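import Pool.Agent.H445.MJ.GenJ

/-!
# Algebraic points of the upper half-plane outside of finitely many orbits
-/

set_option autoImplicit false

open Set

noncomputable section

namespace Pool.Agent.H445.MJ

/-- CM points -/
def CMp (z : ℂ) : Prop := ∃ a b c : ℤ, (a ≠ 0 ∨ b ≠ 0 ∨ c ≠ 0) ∧ (a : ℂ) * z ^ 2 + (b : ℂ) * z + (c : ℂ) = 0

theorem GL2Q.symm {τ σ : ℂ} (h : GL2Q τ σ) : GL2Q σ τ := by
  obtain ⟨a, b, c, d, hd, h1⟩ := h
  refine ⟨d, -b, -c, a, by linarith, ?_⟩
  push_cast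
  linear_combination -h1

theorem GL2Q.trans {τ σ ρ : ℂ} (h : GL2Q τ σ) (h' : GL2Q σ ρ) : GL2Q τ ρ := by
  obtain ⟨a, b, c, d, hd, h1⟩ := h
  obtain ⟨a', b', c', d', hd', h1'⟩ := h'
  refine ⟨a' * a + b' * c, a' * b + b' * d, c' * a + d' * c, c' * b + d' * d, ?_, ?_⟩
  · have := mul_pos hd' hd
    linarith
  · push_cast
    linear_combination ((c : ℂ) * τ + d) * h1' + ((a' : ℂ) - ρ * c') * h1

/-- an equation between powers of two -/
theorem pow_two_val {r : ℚ} {N M L : ℕ} (h : r ^ N * 2 ^ M = 2 ^ L) : ∃ v : ℤ, (N : ℤ) * v + M = L := by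
  have hr : N = 0 ∨ r ≠ 0 := by
    by_contra hcon
    push Not at hcon
    rw [hcon.2, zero_pow hcon.1, zero_mul] at h
    exact pow_ne_zero L two_ne_zero h.symm
  rcases hr with rfl | hr
  · rw [pow_zero, one_mul] at h
    refine ⟨0, ?_⟩
    have : M = L := by
      have h2 : (2 : ℕ) ^ M = 2 ^ L := by exact_mod_cast h
      exact Nat.pow_right_injective le_rfl h2
    rw [this]
    simp
  · have hp : Fact (Nat.Prime 2) := ⟨Nat.prime_two⟩
    refine ⟨padicValRat 2 r, ?_⟩
    have h1 := congrArg (padicValRat 2) h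
    have h2 : padicValRat 2 (2 : ℚ) = 1 := by
      have := padicValRat.self (p := 2) (by norm_num)
      exact_mod_cast this
    rw [padicValRat.mul (pow_ne_zero _ hr) (pow_ne_zero _ two_ne_zero), padicValRat.pow,
      padicValRat.pow, padicValRat.pow, h2] at h1
    linarith

/-- the roots of two -/
def rt (k : ℕ) : ℝ := (2 : ℝ) ^ ((1 : ℝ) / k)

theorem rt_pow {k : ℕ} (hk : k ≠ 0) : rt k ^ k = 2 := by
  rw [rt, ← Real.rpow_natCast, ← Real.rpow_mul (by norm_num)]
  have : (k : ℝ) ≠ 0 := by exact_mod_cast hk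
  rw [one_div, inv_mul_cancel₀ this, Real.rpow_one]

theorem rt_pos (k : ℕ) : 0 < rt k := Real.rpow_pos_of_pos (by norm_num) _

theorem rt_cm {k : ℕ} (hk : 3 ≤ k) {r : ℚ} (h : rt k ^ 2 = r) : False := by
  have h1 : (r : ℝ) ^ k * 2 ^ 0 = 2 ^ 2 := by
    rw [← h, ← pow_mul, mul_comm, mul_comm 2 k, pow_mul, rt_pow (by omega)]
    norm_num
  obtain ⟨v, hv⟩ := pow_two_val (r := r) (N := k) (M := 0) (L := 2) (by exact_mod_cast h1)
  have h2 : (k : ℤ) * v = 2 := by simpa using hv
  have h3 : (k : ℤ) ∣ 2 := ⟨v, h2.symm⟩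
  have h4 := Int.le_of_dvd (by norm_num) h3
  omega

theorem rt_ratio {j k : ℕ} (hj : 3 ≤ j) (hk : 3 ≤ k) (hjk : j ≠ k) {r : ℚ} (h : rt k = r * rt j) : False := by
  have h1 : (r : ℝ) ^ (j * k) * 2 ^ k = 2 ^ j := by
    have e1 : rt k ^ (j * k) = 2 ^ j := by
      rw [mul_comm, pow_mul, rt_pow (by omega)]
    have e2 : rt j ^ (j * k) = 2 ^ k := by
      rw [pow_mul, rt_pow (by omega)]
    rw [← e1, ← e2, h, mul_pow]
  obtain ⟨v, hv⟩ := pow_two_val (r := r) (N := j * k) (M := k) (L := j) (by exact_mod_cast h1)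
  push_cast at hv
  have hj' : (3 : ℤ) ≤ j := by exact_mod_cast hj
  have hk' : (3 : ℤ) ≤ k := by exact_mod_cast hk
  rcases lt_trichotomy v 0 with h0 | h0 | h0
  · have : (j : ℤ) * k * v ≤ (j : ℤ) * k * (-1) := by
      apply mul_le_mul_of_nonneg_left (by omega) (by positivity)
    nlinarith
  · rw [h0] at hv
    apply hjk
    have : (k : ℤ) = j := by linarith
    exact_mod_cast this.symm
  · have : (j : ℤ) * k * 1 ≤ (j : ℤ) * k * v := by
      apply mul_le_mul_of_nonneg_left (by omega) (by positivity)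
    nlinarith

theorem rt_prod {j k : ℕ} (hj : 3 ≤ j) (hk : 3 ≤ k) {r : ℚ} (h : rt k * rt j = r) : False := by
  have h1 : (r : ℝ) ^ (j * k) * 2 ^ 0 = 2 ^ (j + k) := by
    have e1 : rt k ^ (j * k) = 2 ^ j := by
      rw [mul_comm, pow_mul, rt_pow (by omega)]
    have e2 : rt j ^ (j * k) = 2 ^ k := by
      rw [pow_mul, rt_pow (by omega)]
    rw [← h, mul_pow, e1, e2, pow_add, pow_zero, mul_one]
  obtain ⟨v, hv⟩ := pow_two_val (r := r) (N := j * k) (M := 0) (L := j + k) (by exact_mod_cast h1)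
  push_cast at hv
  have hj' : (3 : ℤ) ≤ j := by exact_mod_cast hj
  have hk' : (3 : ℤ) ≤ k := by exact_mod_cast hk
  have h0 : 0 < v := by
    by_contra hcon
    have : (j : ℤ) * k * v ≤ 0 := mul_nonpos_of_nonneg_of_nonpos (by positivity) (by omega)
    omega
  have : (j : ℤ) * k * 1 ≤ (j : ℤ) * k * v := by
    apply mul_le_mul_of_nonneg_left (by omega) (by positivity)
  nlinarith

/-- the points -/
def tp (k : ℕ) : ℂ := (rt k : ℂ) * Complex.I

theorem tp_im (k : ℕ) : 0 < (tp k).im := by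
  simp [tp, rt_pos]

theorem tp_alg {k : ℕ} (hk : k ≠ 0) : IsAlgebraic ℚ (tp k) := by
  have h1 : IsAlgebraic ℚ ((rt k : ℝ) : ℂ) := by
    refine ⟨Polynomial.X ^ k - Polynomial.C 2, (Polynomial.monic_X_pow_sub_C 2 hk).ne_zero, ?_⟩
    simp only [map_sub, map_pow, Polynomial.aeval_X, Polynomial.aeval_C, map_ofNat]
    have : ((rt k : ℝ) : ℂ) ^ k = ((rt k ^ k : ℝ) : ℂ) := by push_cast; rfl
    rw [this, rt_pow hk]
    simp
  have h2 : IsAlgebraic ℚ Complex.I := by
    refine ⟨Polynomial.X ^ 2 + 1, (Polynomial.monic_X_pow_add (by simp)).ne_zero, ?_⟩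
    simp
  exact h1.mul h2

theorem tp_cm {k : ℕ} (hk : 3 ≤ k) : ¬ CMp (tp k) := by
  rintro ⟨a, b, c, hne, h⟩
  have hpos := rt_pos k
  have h1 : ((-(a : ℝ) * rt k ^ 2 + c : ℝ) : ℂ) + ((b * rt k : ℝ) : ℂ) * Complex.I = 0 := by
    push_cast
    rw [tp] at h
    have hI := Complex.I_sq
    linear_combination h - (a : ℂ) * (rt k : ℂ) ^ 2 * hI
  have h2 : -(a : ℝ) * rt k ^ 2 + c = 0 := by
    have := congrArg Complex.re h1
    simpa only [Complex.add_re, Complex.ofReal_re, Complex.mul_re, Complex.I_re, mul_zero, Complex.ofReal_im,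
      Complex.I_im, mul_one, zero_mul, sub_zero, sub_self, add_zero, Complex.zero_re] using this
  have h3 : (b : ℝ) * rt k = 0 := by
    have := congrArg Complex.im h1
    simpa only [Complex.add_im, Complex.ofReal_im, Complex.mul_im, Complex.I_re, mul_zero, Complex.ofReal_re,
      Complex.I_im, mul_one, zero_add, add_zero, Complex.zero_im] using this
  have hb : b = 0 := by
    have := (mul_eq_zero.1 h3).resolve_right hpos.ne'
    exact_mod_cast this
  have ha : a ≠ 0 := by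
    rintro rfl
    have hc : c = 0 := by
      have : (c : ℝ) = 0 := by simpa using h2
      exact_mod_cast this
    rcases hne with h | h | h
    · exact h rfl
    · exact h hb
    · exact h hc
  have ha' : (a : ℝ) ≠ 0 := by exact_mod_cast ha
  refine rt_cm hk (r := (c : ℚ) / a) ?_
  push_cast
  rw [eq_div_iff ha']
  linarith

theorem tp_rel {j k : ℕ} (hj : 3 ≤ j) (hk : 3 ≤ k) (hjk : j ≠ k) : ¬ GL2Q (tp j) (tp k) := by
  rintro ⟨a, b, c, d, hdet, h⟩
  have pj := rt_pos j
  have pk := rt_pos k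
  have h1 : ((-(c : ℝ) * (rt k * rt j) - b : ℝ) : ℂ) + ((d * rt k - a * rt j : ℝ) : ℂ) * Complex.I = 0 := by
    push_cast
    rw [tp, tp] at h
    have hI := Complex.I_sq
    linear_combination h - (c : ℂ) * (rt k : ℂ) * (rt j : ℂ) * hI
  have h2 : -(c : ℝ) * (rt k * rt j) - b = 0 := by
    have := congrArg Complex.re h1
    simpa only [Complex.add_re, Complex.ofReal_re, Complex.mul_re, Complex.I_re, mul_zero, Complex.ofReal_im,
      Complex.I_im, mul_one, zero_mul, sub_zero, sub_self, add_zero, Complex.zero_re] using this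
  have h3 : (d : ℝ) * rt k - a * rt j = 0 := by
    have := congrArg Complex.im h1
    simpa only [Complex.add_im, Complex.ofReal_im, Complex.mul_im, Complex.I_re, mul_zero, Complex.ofReal_re,
      Complex.I_im, mul_one, zero_add, add_zero, Complex.zero_im] using this
  by_cases hd : d = 0
  · have ha : a = 0 := by
      rw [hd] at h3
      have : (a : ℝ) * rt j = 0 := by
        have := h3
        simp only [Rat.cast_zero, zero_mul, zero_sub, neg_eq_zero] at this
        exact this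
      exact_mod_cast (mul_eq_zero.1 this).resolve_right pj.ne'
    have hc : c ≠ 0 := by
      rintro rfl
      rw [ha] at hdet
      simp at hdet
    have hc' : (c : ℝ) ≠ 0 := by exact_mod_cast hc
    refine rt_prod hj hk (r := -b / c) ?_
    push_cast
    rw [eq_div_iff hc']
    linarith
  · have hd' : (d : ℝ) ≠ 0 := by exact_mod_cast hd
    refine rt_ratio hj hk hjk (r := a / d) ?_
    push_cast
    field_simp
    linarith

/-- **algebraic points outside of finitely many orbits** -/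
theorem exists_alg_tau {F : Set ℂ} (hF : F.Finite) : ∃ τ : ℂ, IsAlgebraic ℚ τ ∧ 0 < τ.im ∧ ¬ CMp τ ∧
    ∀ σ ∈ F, ¬ GL2Q σ τ ∧ ¬ GL2Q τ σ := by
  by_contra hcon
  push Not at hcon
  have h1 : ∀ k : ℕ, ∃ σ ∈ F, GL2Q σ (tp (k + 3)) := by
    intro k
    obtain ⟨σ, hσ, h⟩ := hcon (tp (k + 3)) (tp_alg (by omega)) (tp_im _) (tp_cm (by omega))
    by_cases h2 : GL2Q σ (tp (k + 3))
    · exact ⟨σ, hσ, h2⟩
    · exact ⟨σ, hσ, (h h2).symm⟩
  choose f hf hf2 using h1
  have hfin : (Set.range f).Finite := hF.subset (by rintro _ ⟨k, rfl⟩; exact hf k)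
  obtain ⟨j, k, hjk, h⟩ : ∃ j k, j ≠ k ∧ f j = f k := by
    by_contra hinj
    push Not at hinj
    have : Function.Injective f := fun a b hab => by
      by_contra hne
      exact hinj a b hne hab
    exact Set.infinite_range_of_injective this hfin
  have h2 := hf2 k
  rw [← h] at h2
  exact tp_rel (by omega) (by omega) (by omega : j + 3 ≠ k + 3) ((hf2 j).symm.trans h2)

end Pool.Agent.H445.MJ
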