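import Pool.Agent.H445.MJ.Fin
import Pool.Graph.R_pool_sql_team_seeded_3dad9d7b.NH23.Inj
import Pool.Graph.R_pool_sql_team_seeded_3997aac3.Q280.MD.SysD

/-!
# The modular invariant as a series, CM points
-/

set_option autoImplicit false

open Set Filter
open scoped Topology

noncomputable section

namespace Pool.Agent.H445.MJ

open Pool.Agent.Y776 (jf)

/-- the two definitions of `j` agree -/
theorem jq_eq {τ : ℂ} (hτ : 0 < τ.im) : Pool.Agent.TH21.MS.jj τ = jf τ := by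
  rw [Pool.Agent.NH23.Inj.jf_eq hτ]
  exact Pool.Agent.Q280.MD.jj_eq ⟨τ, hτ⟩

theorem CMp.equiv {z w : ℂ} (h : CMp z) (hz : 0 < z.im) (hw : GL2Q z w) : CMp w :=
  Pool.Agent.Q280.MD.CM.of_equivalent hz h hw

theorem dj_ne {τ : ℂ} (hτ : 0 < τ.im) (hcm : ¬ CMp τ) : deriv jf τ ≠ 0 := by
  intro h0
  rw [← deriv_eq (fun z hz => jq_eq hz) hτ] at h0
  exact hcm (Pool.Agent.Q280.MD.cm_of_jd hτ h0)

theorem jf_ne {τ : ℂ} (hτ : 0 < τ.im) (hcm : ¬ CMp τ) : jf τ ≠ 0 := by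
  rw [← jq_eq hτ]
  exact Pool.Agent.Q280.MD.jj_ne_of_ncm hτ hcm

theorem countable_CMp : {z : ℂ | CMp z}.Countable := by
  exact (Algebraic.countable (R := ℚ) (A := ℂ)).mono fun z hz => hz.alg

end Pool.Agent.H445.MJ
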