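import Pool.Agent.H445.MJ.RankJ
import Pool.Agent.H445.EllD

/-!
# Many compatible derivations give a large rank (points of the upper half-plane)
-/

set_option autoImplicit false

open Set Module
open Pool.Agent.TH813.Rel (DF MK subset_cl rk_le_of_subset_cl cl_of_base)
open Pool.Agent.Y685 Pool.Agent.Y776 Pool.Agent.Y776.AxJ
open Pool.Agent.W245.EB Pool.Agent.TH813.Ell H667R3

noncomputable section

namespace Pool.Agent.H445.MJ

variable {K C : IntermediateField ℚ ℂ} {D : Derivation ℚ ℂ ℂ}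

/-- the numbers of a point -/
def N1 (τ : ℂ) : Set ℂ := {τ, h1 τ, (LC τ).g₂, (LC τ).g₃}

/-- the numbers of a set of points -/
def NS (S : Set ℂ) : Set ℂ := ⋃ τ ∈ S, N1 τ

theorem N1_finite (τ : ℂ) : (N1 τ).Finite := by
  unfold N1
  exact Set.toFinite _

theorem NS_finite {S : Set ℂ} (hS : S.Finite) : (NS S).Finite := hS.biUnion fun τ _ => N1_finite τ

theorem NS_union (S T : Set ℂ) : NS (S ∪ T) = NS S ∪ NS T := biUnion_union _ _ _

theorem NS_mono {S T : Set ℂ} (h : S ⊆ T) : NS S ⊆ NS T := biUnion_subset_biUnion_left h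

/-- the restriction of derivations to a set of points -/
def rsJ (S : Finset ℂ) : Derivation ℚ ℂ ℂ →ₗ[ℂ] (S → ℂ) where
  toFun := fun D τ => D τ
  map_add' := fun _ _ => rfl
  map_smul' := fun _ _ => rfl

theorem rsJ_eq_zero {S : Finset ℂ} {D : Derivation ℚ ℂ ℂ} : rsJ S D = 0 ↔ ∀ τ ∈ S, D τ = 0 := by
  constructor
  · intro h τ hτ
    exact congrFun h ⟨τ, hτ⟩
  · intro h
    funext τ
    exact h τ τ.2

theorem finrank_rsJ_le (S : Finset ℂ) (Δ : Submodule ℂ (Derivation ℚ ℂ ℂ)) :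
    finrank ℂ (Δ.map (rsJ S)) ≤ S.card := by
  refine (Submodule.finrank_le _).trans ?_
  rw [Module.finrank_fintype_fun_eq_card, Fintype.card_coe]

/-- the numbers of a point are killed if the point is killed -/
theorem Cj.kill_N1 {τ : ℂ} (h : Cj D τ) (h0 : D τ = 0) {x : ℂ} (hx : x ∈ N1 τ) : D x = 0 := by
  rcases hx with rfl | rfl | rfl | rfl
  · exact h0
  · rw [h.h, h0, mul_zero]
  · rw [h.p, h0, mul_zero]
  · rw [h.q, h0, mul_zero]

/-- **Many compatible derivations give a large rank.** -/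
theorem chainJ (hb : be0 ∈ K) {Δ : Submodule ℂ (Derivation ℚ ℂ ℂ)} (hΔ : Δ ≤ DF K) (m : ℕ) :
    ∀ S : Finset ℂ, S.card = m → (∀ τ ∈ S, 0 < τ.im ∧ τ ∉ T0) →
      (∀ τ ∈ S, ∀ σ ∈ S, τ ≠ σ → ¬ GL2Q τ σ) → (∀ D ∈ Δ, ∀ τ ∈ S, Cj D τ) →
      (∀ τ ∈ S, ∃ D ∈ Δ, D τ ≠ 0) →
      ((3 * S.card + finrank ℂ (Δ.map (rsJ S)) : ℕ) : ℕ∞) ≤ (MK K).eRk (NS S) := by
  classical
  induction m using Nat.strong_induction_on with
  | _ m ih =>
  intro S hm hS hGL hC hDS
  by_cases hne : ∃ D ∈ Δ, rsJ S D ≠ 0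
  swap
  · push Not at hne
    have hS0 : S = ∅ := by
      rw [Finset.eq_empty_iff_forall_notMem]
      intro τ hτ
      obtain ⟨D, hD1, hD2⟩ := hDS τ hτ
      exact hD2 (rsJ_eq_zero.1 (hne D hD1) τ hτ)
    have h1 : Δ.map (rsJ S) = ⊥ := by
      rw [Submodule.eq_bot_iff]
      rintro _ ⟨D, hD1, rfl⟩
      exact hne D hD1
    rw [h1, finrank_bot, hS0]
    simp
  -- a derivation with the largest zero set
  let kr : Derivation ℚ ℂ ℂ → Finset ℂ := fun D => S.filter fun τ => D τ = 0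
  let Q : Set ℕ := {k | ∃ D ∈ Δ, rsJ S D ≠ 0 ∧ (kr D).card = k}
  have hQ1 : Q.Nonempty := by
    obtain ⟨D, h4, h5⟩ := hne
    exact ⟨_, D, h4, h5, rfl⟩
  have hQ2 : BddAbove Q := by
    refine ⟨m, ?_⟩
    rintro _ ⟨D, -, -, rfl⟩
    rw [← hm]
    exact Finset.card_le_card (Finset.filter_subset _ _)
  obtain ⟨D, hDΔ, hDne, hDk⟩ := Nat.sSup_mem hQ1 hQ2
  have hmax : ∀ D' ∈ Δ, rsJ S D' ≠ 0 → (kr D').card ≤ (kr D).card := by
    intro D' h4 h5
    rw [hDk]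
    exact le_csSup hQ2 ⟨D', h4, h5, rfl⟩
  set S₁ : Finset ℂ := S.filter fun τ => D τ = 0 with hS₁
  set S₂ : Finset ℂ := S.filter fun τ => ¬ D τ = 0 with hS₂
  have hS₁S : S₁ ⊆ S := Finset.filter_subset _ _
  have hS₂S : S₂ ⊆ S := Finset.filter_subset _ _
  have hcard : S₁.card + S₂.card = S.card := Finset.card_filter_add_card_filter_not _
  obtain ⟨x₀, hx₀, hx₀D⟩ : ∃ x₀ ∈ S, D x₀ ≠ 0 := by
    by_contra hcon
    push Not at hcon
    exact hDne (rsJ_eq_zero.2 hcon)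
  have hx₀2 : x₀ ∈ S₂ := Finset.mem_filter.2 ⟨hx₀, hx₀D⟩
  have hpos : 0 < S₂.card := Finset.card_pos.2 ⟨x₀, hx₀2⟩
  -- the induction hypothesis
  have hI := ih S₁.card (by omega) S₁ rfl (fun τ hτ => hS τ (hS₁S hτ))
    (fun τ hτ σ hσ => hGL τ (hS₁S hτ) σ (hS₁S hσ)) (fun D hD τ hτ => hC D hD τ (hS₁S hτ))
    (fun τ hτ => hDS τ (hS₁S hτ))
  -- the dimension of the restrictions
  have hdim : finrank ℂ (Δ.map (rsJ S)) ≤ finrank ℂ (Δ.map (rsJ S₁)) + 1 := by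
    let r : (S → ℂ) →ₗ[ℂ] (S₁ → ℂ) :=
      { toFun := fun f τ => f ⟨τ, hS₁S τ.2⟩
        map_add' := fun _ _ => rfl
        map_smul' := fun _ _ => rfl }
    let R := r.domRestrict (Δ.map (rsJ S))
    have h4 := LinearMap.finrank_range_add_finrank_ker R
    have h5 : LinearMap.range R = Δ.map (rsJ S₁) := by
      ext f
      constructor
      · rintro ⟨⟨_, D', hD', rfl⟩, rfl⟩
        exact ⟨D', hD', rfl⟩
      · rintro ⟨D', hD', rfl⟩
        exact ⟨⟨_, D', hD', rfl⟩, rfl⟩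
    have h6 : finrank ℂ (LinearMap.ker R) ≤ 1 := by
      let e₀ : (S → ℂ) →ₗ[ℂ] ℂ := LinearMap.proj ⟨x₀, hx₀⟩
      let ev : LinearMap.ker R →ₗ[ℂ] ℂ :=
        (e₀ ∘ₗ (Δ.map (rsJ S)).subtype) ∘ₗ (LinearMap.ker R).subtype
      have hinj : Function.Injective ev := by
        rw [injective_iff_map_eq_zero]
        rintro ⟨⟨_, D', hD', rfl⟩, hker⟩ h0
        have h7 : D' x₀ = 0 := h0
        have h8 : rsJ S₁ D' = 0 := hker
        have h8 := rsJ_eq_zero.1 h8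
        by_contra hne'
        have h10 : rsJ S D' ≠ 0 := by
          intro h
          apply hne'
          apply Subtype.ext
          apply Subtype.ext
          exact h
        have h11 : S₁ ⊂ kr D' := by
          rw [Finset.ssubset_iff_of_subset]
          · exact ⟨x₀, Finset.mem_filter.2 ⟨hx₀, h7⟩, fun h => hx₀D (Finset.mem_filter.1 h).2⟩
          · intro τ hτ
            exact Finset.mem_filter.2 ⟨hS₁S hτ, h8 τ hτ⟩
        exact absurd (Finset.card_lt_card h11) (not_lt.2 (hmax D' hD' h10))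
      have := LinearMap.finrank_le_finrank_of_injective hinj
      rwa [finrank_self] at this
    rw [h5] at h4
    have h7 : finrank ℂ (Δ.map (rsJ S)) = finrank ℂ (Δ.map (rsJ S₁)) +
        finrank ℂ (LinearMap.ker R) := h4.symm
    omega
  -- the moved points
  let e := S₂.equivFin
  let p : Fin S₂.card → ℂ := fun i => (e.symm i : ℂ)
  have hpS : ∀ i, p i ∈ S₂ := fun i => (e.symm i).2
  have hpi : ∀ i k, i ≠ k → p i ≠ p k := fun i k hik h => hik (e.symm.injective (Subtype.ext h))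
  have h4 := rank_tau (D := D) (τ := p) (t := (![] : Fin 0 → ℂ)) (fun i => (hS _ (hS₂S (hpS i))).1)
    (fun i => (hS _ (hS₂S (hpS i))).2) (fun i k hik => hGL _ (hS₂S (hpS i)) _ (hS₂S (hpS k)) (hpi i k hik))
    (hΔ hDΔ _ hb) (fun i => hC D hDΔ _ (hS₂S (hpS i))) (fun i => (Finset.mem_filter.1 (hpS i)).2) hpos
    (fun k => k.elim0) (fun _ _ => Subsingleton.elim _ _)
  have h4' : ((3 * S₂.card + 1 : ℕ) : ℕ∞) ≤ (MK (Cst D)).eRk (NS S₂) := by
    have h5 : NX (fun i => QL (p i)) ∪ Pool.Agent.Y776.ET (![] : Fin 0 → ℂ) ⊆ NS S₂ := by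
      rw [Pool.Agent.Y776.ET]
      simp only [Set.range_eq_empty, Set.union_empty]
      rintro x hx
      obtain ⟨i, hi⟩ := Set.mem_iUnion.1 hx
      exact Set.mem_biUnion (hpS i) hi
    exact h4.trans ((MK _).eRk_mono h5)
  have h5 : clo K (NS S₁) ≤ Cst D := by
    intro x hx
    refine hx D (hΔ hDΔ) ?_
    intro y hy
    obtain ⟨τ, hτ, hy⟩ := Set.mem_iUnion₂.1 hy
    exact (hC D hDΔ τ (hS₁S hτ)).kill_N1 (Finset.mem_filter.1 hτ).2 hy
  have hf1 : (NS (S₁ : Set ℂ)).Finite := NS_finite S₁.finite_toSet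
  have hf2 : (NS (S₂ : Set ℂ)).Finite := NS_finite S₂.finite_toSet
  have h6 := rank_mono_base h5 hf2
  have h7 := rank_add (C := K) hf1 hf2
  have h8 : (MK K).eRk (NS S₁ ∪ NS S₂) ≤ (MK K).eRk (NS S) := by
    apply (MK K).eRk_mono
    exact union_subset (NS_mono hS₁S) (NS_mono hS₂S)
  calc ((3 * S.card + finrank ℂ (Δ.map (rsJ S)) : ℕ) : ℕ∞)
      ≤ ((3 * S₁.card + finrank ℂ (Δ.map (rsJ S₁)) : ℕ) : ℕ∞) + ((3 * S₂.card + 1 : ℕ) : ℕ∞) := by
        rw [← Nat.cast_add]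
        exact_mod_cast (by omega : 3 * S.card + finrank ℂ (Δ.map (rsJ S)) ≤
          (3 * S₁.card + finrank ℂ (Δ.map (rsJ S₁))) + (3 * S₂.card + 1))
    _ ≤ (MK K).eRk (NS S₁) + (MK (clo K (NS S₁))).eRk (NS S₂) := add_le_add hI (h4'.trans h6)
    _ = (MK K).eRk (NS S₁ ∪ NS S₂) := h7.symm
    _ ≤ (MK K).eRk (NS S) := h8

end Pool.Agent.H445.MJ
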