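import Pool.Agent.H445.MJ.Loc

/-!
# Derivations of an algebraic function field and its embeddings into series
-/

set_option autoImplicit false

open HahnSeries Polynomial

noncomputable section

namespace Pool.Agent.H445.MJ

variable {E F : Type} [Field E] [CharZero E] [Field F] [Algebra E F]

/-- **the chain rule** -/
theorem ader {x : F} (hF : ∀ z : F, IsAlgebraic (IntermediateField.adjoin E {x}) z) (φ : F →+* HahnSeries ℚ E)
    (hφ : ∀ c, φ (algebraMap E F c) = HahnSeries.C c) (d : Derivation E F F) (hd : d x = 1) (z : F) :
    th (φ z) = φ (d z) * th (φ x) := by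
  classical
  have : CharZero F := charZero_of_injective_algebraMap (algebraMap E F).injective
  let S : IntermediateField E F :=
    { carrier := {z | th (φ z) = φ (d z) * th (φ x)}
      mul_mem' := by
        intro a b ha hb
        change th (φ (a * b)) = φ (d (a * b)) * th (φ x)
        replace ha : th (φ a) = φ (d a) * th (φ x) := ha
        replace hb : th (φ b) = φ (d b) * th (φ x) := hb
        rw [map_mul, th_mul, ha, hb, Derivation.leibniz, smul_eq_mul, smul_eq_mul, map_add, map_mul, map_mul]
        ring
      add_mem' := by
        intro a b ha hb
        change th (φ (a + b)) = φ (d (a + b)) * th (φ x)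
        replace ha : th (φ a) = φ (d a) * th (φ x) := ha
        replace hb : th (φ b) = φ (d b) * th (φ x) := hb
        rw [map_add, th_add, ha, hb, map_add, map_add]
        ring
      algebraMap_mem' := by
        intro r
        change th (φ (algebraMap E F r)) = φ (d (algebraMap E F r)) * th (φ x)
        rw [hφ, th_C, d.map_algebraMap, map_zero, zero_mul]
      inv_mem' := by
        intro a ha
        change th (φ a⁻¹) = φ (d a⁻¹) * th (φ x)
        replace ha : th (φ a) = φ (d a) * th (φ x) := ha
        by_cases h0 : a = 0
        · rw [h0, inv_zero, map_zero, map_zero, map_zero, th_zero, zero_mul]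
        · have h1 : φ a * th (φ a⁻¹) = -(th (φ a) * φ a⁻¹) := by
            have h2 : th (φ a * φ a⁻¹) = 0 := by
              rw [← map_mul, mul_inv_cancel₀ h0, map_one, th_one]
            rw [th_mul] at h2
            linear_combination h2
          have h3 : φ a * φ (d a⁻¹) = -(φ (d a) * φ a⁻¹) := by
            have h2 : d (a * a⁻¹) = 0 := by
              rw [mul_inv_cancel₀ h0, d.map_one_eq_zero]
            rw [Derivation.leibniz, smul_eq_mul, smul_eq_mul] at h2
            have h4 := congrArg φ h2
            rw [map_add, map_mul, map_mul, map_zero] at h4
            linear_combination h4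
          have hφa : φ a ≠ 0 := (map_ne_zero φ).2 h0
          apply mul_left_cancel₀ hφa
          rw [h1, ha, ← mul_assoc, h3]
          ring }
  have hxS : IntermediateField.adjoin E {x} ≤ S := by
    rw [IntermediateField.adjoin_le_iff]
    intro w hw
    rw [Set.mem_singleton_iff.1 hw]
    change th (φ x) = φ (d x) * th (φ x)
    rw [hd, map_one, one_mul]
  have hS : ∀ k : IntermediateField.adjoin E {x}, th (φ (k : F)) = φ (d (k : F)) * th (φ x) := fun k => hxS k.2
  set K := IntermediateField.adjoin E {x} with hK
  have key : ∀ p : K[X], th (φ (aeval z p)) - φ (d (aeval z p)) * th (φ x) =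
      φ (aeval z (derivative p)) * (th (φ z) - φ (d z) * th (φ x)) := by
    intro p
    induction p using Polynomial.induction_on' with
    | add p q hp hq =>
      rw [map_add, map_add, th_add, map_add, map_add, derivative_add, map_add, map_add]
      linear_combination hp + hq
    | monomial n a =>
      rw [aeval_monomial, derivative_monomial, aeval_monomial]
      have hpow : ∀ n : ℕ, th (φ z ^ n) = (n : HahnSeries ℚ E) * φ z ^ (n - 1) * th (φ z) := by
        intro n
        induction n with
        | zero => rw [pow_zero, th_one]; simp
        | succ n ih =>
          rw [pow_succ, th_mul, ih, Nat.add_sub_cancel]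
          rcases Nat.eq_zero_or_pos n with rfl | hn
          · simp
          · have : φ z ^ n = φ z ^ (n - 1) * φ z := by
              rw [← pow_succ, Nat.sub_add_cancel hn]
            rw [this]
            push_cast
            ring
      have ha : th (φ (algebraMap K F a)) = φ (d (algebraMap K F a)) * th (φ x) := hS a
      rw [map_mul, th_mul, ha, map_pow, hpow, Derivation.leibniz, Derivation.leibniz_pow, smul_eq_mul, smul_eq_mul,
        smul_eq_mul, map_add, map_mul, map_mul, map_mul, map_mul, map_mul, map_pow, map_nsmul]
      simp only [nsmul_eq_mul, map_natCast, map_mul, map_pow]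
      ring
  have hz := hF z
  have hint : IsIntegral K z := hz.isIntegral
  have h1 := key (minpoly K z)
  rw [minpoly.aeval, map_zero, map_zero, th_zero, map_zero, zero_mul, sub_zero] at h1
  have hsep : (minpoly K z).Separable := (minpoly.irreducible hint).separable
  have h2 : aeval z (derivative (minpoly K z)) ≠ 0 := hsep.aeval_derivative_ne_zero (minpoly.aeval K z)
  have h3 := (mul_eq_zero.1 h1.symm).resolve_left ((map_ne_zero φ).2 h2)
  exact sub_eq_zero.1 h3

end Pool.Agent.H445.MJ
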