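import Pool.Agent.H445.MJ.RedJ

/-!
# The exact dimension of the set of the failures of the modular Schanuel inequality
-/

set_option autoImplicit false

open Set Module MvPolynomial
open Pool.Agent.TH813.Rel (DF MK subset_cl rk_le_of_subset_cl cl_of_base exists_derF)
open Pool.Agent.Y685
open Pool.Agent.Y776 (T0 T0_spec be0 jf)
open Pool.Agent.Y776.AxJ
open Pool.Agent.W245.EB Pool.Agent.TH813.Ell H667R3
open scoped NNReal ENNReal

noncomputable section

namespace Pool.Agent.H445.MJ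

variable {r : Bool} {P : Set ℂ} {c n m : ℕ} {K : Subfield ℂ}

theorem FailJ.mono {m m' : ℕ} (hm : m ≤ m') {z : Fin n → ℂ} (h : FailJ r P c n m' z) : FailJ r P c n m z :=
  ⟨h.im, h.ncm, h.ineq, le_trans (by gcongr) h.rk⟩

theorem range_snoc (z : Fin n → ℂ) (x : ℂ) : range (Fin.snoc z x : Fin (n + 1) → ℂ) = range z ∪ {x} := by
  ext y
  constructor
  · rintro ⟨i, rfl⟩
    refine Fin.lastCases ?_ (fun i => ?_) i
    · rw [Fin.snoc_last]; exact Or.inr rfl
    · rw [Fin.snoc_castSucc]; exact Or.inl ⟨i, rfl⟩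
  · rintro (⟨i, rfl⟩ | hy)
    · exact ⟨i.castSucc, by rw [Fin.snoc_castSucc]⟩
    · exact ⟨Fin.last n, by rw [Fin.snoc_last]; exact (mem_singleton_iff.1 hy).symm⟩

/-- adding an algebraic point -/
theorem FailJ.succ {z : Fin n → ℂ} (h : FailJ r P c n m z) : ∃ z' : Fin (n + 1) → ℂ, FailJ r P c (n + 1) m z' := by
  obtain ⟨τ, h1, h2, h3, h4⟩ := exists_alg_tau (finite_range z)
  refine ⟨Fin.snoc z τ, ?_, ?_, ?_, ?_⟩
  · intro i
    refine Fin.lastCases ?_ (fun i => ?_) i
    · rw [Fin.snoc_last]; exact h2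
    · rw [Fin.snoc_castSucc]; exact h.im i
  · intro i
    refine Fin.lastCases ?_ (fun i => ?_) i
    · rw [Fin.snoc_last]; exact h3
    · rw [Fin.snoc_castSucc]; exact h.ncm i
  · intro i k
    refine Fin.lastCases ?_ (fun i => ?_) i
    · refine Fin.lastCases ?_ (fun k => ?_) k
      · intro hik; exact absurd rfl hik
      · intro _
        rw [Fin.snoc_last, Fin.snoc_castSucc]
        exact (h4 _ ⟨k, rfl⟩).2
    · refine Fin.lastCases ?_ (fun k => ?_) k
      · intro _
        rw [Fin.snoc_last, Fin.snoc_castSucc]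
        exact (h4 _ ⟨i, rfl⟩).1
      · intro hik
        rw [Fin.snoc_castSucc, Fin.snoc_castSucc]
        exact h.ineq i k fun hik' => hik (by rw [hik'])
  · rw [range_snoc, SgS_union, ← union_assoc]
    have e1 : SgS r ({τ} : Set ℂ) = Sg r τ := by simp [SgS]
    rw [e1]
    obtain ⟨T, hT1, hT2⟩ : ∃ T : Set ℂ, Sg r τ ⊆ insert τ T ∧ T.encard ≤ (rr r : ℕ) := by
      cases r
      · refine ⟨{jf τ}, le_rfl, ?_⟩
        rw [encard_singleton]
        norm_num [rr]
      · refine ⟨{jf τ, deriv jf τ, deriv (deriv jf) τ}, le_rfl, ?_⟩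
        refine (Set.encard_insert_le _ _).trans ?_
        refine (add_le_add_left (Set.encard_insert_le _ _) _).trans ?_
        rw [Set.encard_singleton]
        norm_num [rr]
    have h5 : (P ∪ SgS r (range z)) ∪ Sg r τ ⊆
        (MK (⊥ : IntermediateField ℚ ℂ)).closure ((P ∪ SgS r (range z)) ∪ T) := by
      rintro y (hy | hy)
      · exact subset_cl _ (Or.inl hy)
      · rcases hT1 hy with rfl | hy
        · exact alg_mem_cl h1 _
        · exact subset_cl _ (Or.inr hy)
    have h6 := (rk_le_of_subset_cl h5).trans ((MK (⊥ : IntermediateField ℚ ℂ)).eRk_union_le_eRk_add_encard _ _)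
    calc (MK (⊥ : IntermediateField ℚ ℂ)).eRk ((P ∪ SgS r (range z)) ∪ Sg r τ) + m
        ≤ ((MK (⊥ : IntermediateField ℚ ℂ)).eRk (P ∪ SgS r (range z)) + (rr r : ℕ)) + m := by
          gcongr
          exact h6.trans (add_le_add le_rfl hT2)
      _ = ((MK (⊥ : IntermediateField ℚ ℂ)).eRk (P ∪ SgS r (range z)) + m) + (rr r : ℕ) := by ring
      _ ≤ ((rr r * n + c : ℕ) : ℕ∞) + (rr r : ℕ) := by gcongr; exact h.rk
      _ = ((rr r * (n + 1) + c : ℕ) : ℕ∞) := by push_cast; ring

theorem FailJ.extend {n₀ : ℕ} (hn : n₀ ≤ n) (h : ∃ z : Fin n₀ → ℂ, FailJ r P c n₀ m z) :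
    ∃ z : Fin n → ℂ, FailJ r P c n m z := by
  induction n, hn using Nat.le_induction with
  | base => exact h
  | succ n _ ih =>
    obtain ⟨z, hz⟩ := ih
    exact hz.succ

theorem range_append {a b : ℕ} (z : Fin a → ℂ) (x : Fin b → ℂ) : range (Fin.append z x) = range z ∪ range x := by
  ext y
  constructor
  · rintro ⟨i, rfl⟩
    refine Fin.addCases (fun i => ?_) (fun j => ?_) i
    · exact Or.inl ⟨i, by rw [Fin.append_left]⟩
    · exact Or.inr ⟨j, by rw [Fin.append_right]⟩
  · rintro (⟨i, rfl⟩ | ⟨i, rfl⟩)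
    · exact ⟨Fin.castAdd b i, by rw [Fin.append_left]⟩
    · exact ⟨Fin.natAdd a i, by rw [Fin.append_right]⟩

theorem CMp.alg {z : ℂ} (h : CMp z) : IsAlgebraic ℚ z := by
  obtain ⟨a, b, c, hne, h⟩ := h
  have key : ∀ a b c : ℚ, (a ≠ 0 ∨ b ≠ 0 ∨ c ≠ 0) → (a : ℂ) * z ^ 2 + (b : ℂ) * z + (c : ℂ) = 0 →
      IsAlgebraic ℚ z := by
    intro a b c hne h
    refine ⟨Polynomial.C a * Polynomial.X ^ 2 + Polynomial.C b * Polynomial.X + Polynomial.C c, ?_, ?_⟩
    · intro h0
      have h1 := congrArg (fun p => Polynomial.coeff p 0) h0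
      have h2 := congrArg (fun p => Polynomial.coeff p 1) h0
      have h3 := congrArg (fun p => Polynomial.coeff p 2) h0
      simp [Polynomial.coeff_X, Polynomial.coeff_C, Polynomial.coeff_X_pow] at h1 h2 h3
      rcases hne with h | h | h
      · exact h h3
      · exact h h2
      · exact h h1
    · simpa using h
  refine key a b c ?_ (by exact_mod_cast h)
  rcases hne with h | h | h
  · exact Or.inl (by exact_mod_cast h)
  · exact Or.inr (Or.inl (by exact_mod_cast h))
  · exact Or.inr (Or.inr (by exact_mod_cast h))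

theorem FldJ.alg_mem (hK : FldJ K) {z : ℂ} (hz : IsAlgebraic ℚ z) : z ∈ K :=
  hK.alg z (hz.extendScalars (algebraMap ℚ K).injective)

theorem encard_SgS {d : ℕ} (x : Fin d → ℂ) : (SgS r (range x)).encard ≤ ((rr r + 1) * d : ℕ) := by
  classical
  have h1 : SgS r (range x) = ⋃ i ∈ (Finset.univ : Finset (Fin d)), Sg r (x i) := by
    rw [SgS, biUnion_range]
    simp
  have h2 : ∀ s : Finset (Fin d), (⋃ i ∈ s, Sg r (x i)).encard ≤ ((rr r + 1) * s.card : ℕ) := by
    intro s
    induction s using Finset.induction_on with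
    | empty => simp
    | insert a s ha ih =>
      rw [Finset.set_biUnion_insert, Finset.card_insert_of_notMem ha, mul_add, add_comm, mul_one, Nat.cast_add]
      exact (encard_union_le _ _).trans (add_le_add (Sg_encard r _) ih)
  rw [h1]
  refine (h2 _).trans ?_
  rw [Finset.card_univ, Fintype.card_fin]

/-- adding generic points -/
theorem FailJ.generic {b : ℕ} {z : Fin n → ℂ} (h : FailJ r P c n (m + b) z) (hK : FldJ K) (hz : ∀ i, z i ∈ K)
    {x : Fin b → ℂ} (hx : x ∈ GenJ K b) : FailJ r P c (n + b) m (Fin.append z x) := by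
  obtain ⟨hxU, hxK, hxG⟩ := hx
  refine ⟨?_, ?_, ?_, ?_⟩
  · intro i
    refine Fin.addCases (fun i => ?_) (fun j => ?_) i
    · rw [Fin.append_left]; exact h.im i
    · rw [Fin.append_right]; exact hxU j
  · intro i
    refine Fin.addCases (fun i => ?_) (fun j => ?_) i
    · rw [Fin.append_left]; exact h.ncm i
    · rw [Fin.append_right]; exact fun hcm => hxK j (hK.alg_mem hcm.alg)
  · intro i k
    refine Fin.addCases (fun i => ?_) (fun j => ?_) i
    · refine Fin.addCases (fun k => ?_) (fun k => ?_) k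
      · intro hik
        rw [Fin.append_left, Fin.append_left]
        exact h.ineq i k fun hik' => hik (by rw [hik'])
      · intro _ hG
        rw [Fin.append_left, Fin.append_right] at hG
        exact hxK k (hG.mem_right (h.im i) (hz i))
    · refine Fin.addCases (fun k => ?_) (fun k => ?_) k
      · intro _ hG
        rw [Fin.append_left, Fin.append_right] at hG
        exact hxK j (hG.mem_left (h.im k) (hz k))
      · intro hik
        rw [Fin.append_right, Fin.append_right]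
        exact hxG j k fun hik' => hik (by rw [hik'])
  · rw [range_append, SgS_union, ← union_assoc]
    have h1 := (MK (⊥ : IntermediateField ℚ ℂ)).eRk_union_le_eRk_add_encard (P ∪ SgS r (range z)) (SgS r (range x))
    have h3 := h.rk
    calc (MK (⊥ : IntermediateField ℚ ℂ)).eRk ((P ∪ SgS r (range z)) ∪ SgS r (range x)) + m
        ≤ ((MK (⊥ : IntermediateField ℚ ℂ)).eRk (P ∪ SgS r (range z)) + (((rr r + 1) * b : ℕ) : ℕ∞)) + m := by
          gcongr
          exact h1.trans (add_le_add le_rfl (encard_SgS x))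
      _ = ((MK (⊥ : IntermediateField ℚ ℂ)).eRk (P ∪ SgS r (range z)) + (m + b : ℕ)) + (rr r * b : ℕ) := by
          have e1 : (((rr r + 1) * b : ℕ) : ℕ∞) + m = ((m + b : ℕ) : ℕ∞) + ((rr r * b : ℕ) : ℕ∞) := by
            rw [← Nat.cast_add, ← Nat.cast_add]
            congr 1
            ring
          rw [add_assoc, e1, ← add_assoc]
      _ ≤ ((rr r * n + c : ℕ) : ℕ∞) + (rr r * b : ℕ) := by gcongr
      _ = ((rr r * (n + b) + c : ℕ) : ℕ∞) := by
          rw [← Nat.cast_add]
          congr 1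
          ring

/-- the set of the failures -/
def FJ (r : Bool) (P : Set ℂ) (c n m : ℕ) : Set (Fin n → ℂ) := {z | FailJ r P c n m z}

/-- the admissible levels -/
def LevJ (r : Bool) (P : Set ℂ) (c n m : ℕ) : Set ℕ := {d | d ≤ n ∧ (FJ r P c (n - d) (m + d)).Nonempty}

theorem LevJ_bdd : BddAbove (LevJ r P c n m) := ⟨n, fun _ h => h.1⟩

theorem LevJ_down {d e : ℕ} (hed : e ≤ d) (hd : d ∈ LevJ r P c n m) : e ∈ LevJ r P c n m := by
  obtain ⟨h1, z, hz⟩ := hd
  exact ⟨hed.trans h1, FailJ.extend (n₀ := n - d) (by omega) ⟨z, hz.mono (by omega)⟩⟩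

theorem FailJ.level (hP : P.Finite) (hK : FldJ K) (hPK : P ⊆ K) {z : Fin n → ℂ} (hz : FailJ r P c n m z) :
    finrank ℂ (Tan PJ K (PhJ z)) ∈ LevJ r P c n m ∧ (finrank ℂ (Tan PJ K (PhJ z)) = 0 → ∀ j, z j ∈ K) := by
  obtain ⟨⟨n₀, z₀, h1, h2⟩, h3⟩ := hz.reduce hK hP hPK
  exact ⟨⟨by omega, FailJ.extend (n₀ := n₀) (by omega) ⟨z₀, h2⟩⟩, h3⟩

theorem lowerJ {d : ℕ} (hd : d ∈ LevJ r P c n m) : ((2 * d : ℕ) : ℝ≥0∞) ≤ dimH (FJ r P c n m) := by
  obtain ⟨h1, z, hz⟩ := hd
  obtain ⟨n', rfl⟩ : ∃ n', n = n' + d := ⟨n - d, by omega⟩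
  obtain ⟨K, hK, hS⟩ := exists_FldJ (S := range z) (countable_range z)
  have e : n' + d - d = n' := by omega
  have hS' : ∀ i, z i ∈ K := fun i => hS ⟨i, rfl⟩
  clear hS
  revert z
  rw [e]
  intro z hz hS'
  let π : (Fin (n' + d) → ℂ) →L[ℂ] (Fin d → ℂ) :=
    ContinuousLinearMap.pi fun j => ContinuousLinearMap.proj (Fin.natAdd n' j)
  refine (dimH_GenJ hK.cnt d).trans (le_trans (dimH_mono ?_) (π.lipschitz.dimH_image_le (FJ r P c (n' + d) m)))
  intro x hx
  refine ⟨Fin.append z x, FailJ.generic hz hK hS' hx, ?_⟩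
  funext j
  change Fin.append z x (Fin.natAdd n' j) = x j
  rw [Fin.append_right]

/-- **The dimension formula** -/
theorem dimJ (hP : P.Finite) : dimH (FJ r P c n m) = (2 * sSup (LevJ r P c n m) : ℕ) := by
  apply le_antisymm
  · obtain ⟨K, hK, hPK⟩ := exists_FldJ (S := P) hP.countable
    refine (dimH_mono ?_).trans (dimH_Tan (P := PJ (n := n)) (K := K) (Φ := PhJ) hK.cnt
      (isOpen_UJ n) (fun x hx s₀ => PhJ_der hx s₀) (sSup (LevJ r P c n m))).1
    intro z hz
    exact ⟨hz.im, le_csSup LevJ_bdd (FailJ.level hP hK hPK hz).1⟩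
  · rcases Set.eq_empty_or_nonempty (LevJ r P c n m) with h | h
    · rw [h, csSup_empty]
      simp
    · exact lowerJ (Nat.sSup_mem h LevJ_bdd)

/-- **Countability** -/
theorem countableJ (hP : P.Finite) : (FJ r P c n m).Countable ↔ 1 ∉ LevJ r P c n m := by
  constructor
  · intro h h1
    have h2 := lowerJ h1
    rw [h.dimH_zero] at h2
    norm_num at h2
  · intro h
    obtain ⟨K, hK, hPK⟩ := exists_FldJ (S := P) hP.countable
    refine Set.Countable.mono ?_ (Set.countable_univ_pi fun _ : Fin n => hK.cnt)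
    intro z hz j _
    obtain ⟨h1, h2⟩ := FailJ.level hP hK hPK hz
    refine h2 ?_ j
    by_contra h0
    exact h (LevJ_down (Nat.one_le_iff_ne_zero.2 h0) h1)

end Pool.Agent.H445.MJ
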