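import Pool.Agent.H445.MJ.Schn
import Pool.Agent.H445.EllF

/-!
# The failures: bounds, and the passage to transcendence degrees
-/

set_option autoImplicit false

open Set Filter
open scoped Topology

noncomputable section

namespace Pool.Agent.H445.MJ

open H667R3 Pool.Agent.W245.EB
open Pool.Agent.Y685 Pool.Agent.TH813.Ell Pool.Agent.Y776 Pool.Agent.Y776.Fam Pool.Agent.Y776.AxJ
open Pool.Agent.TH813.Rel (MK)

variable {r : Bool} {P : Set ℂ} {c n m : ℕ}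

/-- Schneider's theorem in terms of ranks -/
theorem one_le_rk {S : Set ℂ} {τ : ℂ} (hτ : 0 < τ.im) (hcm : ¬ CMp τ) (h1 : τ ∈ S) (h2 : jf τ ∈ S) :
    1 ≤ (MK (⊥ : IntermediateField ℚ ℂ)).eRk S := by
  rw [Order.one_le_iff_ne_zero]
  intro h0
  have h6 : S ⊆ (MK (⊥ : IntermediateField ℚ ℂ)).closure ∅ :=
    (Matroid.eRk_eq_zero_iff (M := MK (⊥ : IntermediateField ℚ ℂ)) (X := S)).1 h0
  have h7 : ∀ y ∈ S, IsAlgebraic ℚ y := fun y hy => alg_of_cl_empty alg_bot (h6 hy)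
  exact hcm (schneider hτ (h7 _ h1) (h7 _ h2))

theorem jf_mem_Sg (r : Bool) (z : ℂ) : jf z ∈ Sg r z := by
  cases r
  · exact Or.inr rfl
  · exact Or.inr (Or.inl rfl)

theorem FailJ.bound {z : Fin n → ℂ} (h : FailJ r P c n m z) (hn : 0 < n) : m + 1 ≤ rr r * n + c := by
  have h1 : z ⟨0, hn⟩ ∈ range z := ⟨_, rfl⟩
  have h2 := one_le_rk (S := P ∪ SgS r (range z)) (h.im ⟨0, hn⟩) (h.ncm ⟨0, hn⟩)
    (Or.inr (mem_biUnion h1 (self_mem_Sg r _))) (Or.inr (mem_biUnion h1 (jf_mem_Sg r _)))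
  have h3 : ((1 + m : ℕ) : ℕ∞) ≤ ((rr r * n + c : ℕ) : ℕ∞) := by
    rw [Nat.cast_add, Nat.cast_one]
    exact (add_le_add h2 le_rfl).trans h.rk
  have h4 : 1 + m ≤ rr r * n + c := by exact_mod_cast h3
  omega

theorem FR_bot : Pool.Agent.Y685.FR ℚ = ⊥ := by
  rw [eq_bot_iff]
  rintro _ ⟨q, rfl⟩
  exact IntermediateField.mem_bot.2 ⟨q, rfl⟩

theorem trdeg_iff {S : Set ℂ} (m N : ℕ) :
    Algebra.trdeg ℚ (IntermediateField.adjoin ℚ S) + m ≤ (N : Cardinal) ↔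
    (MK (⊥ : IntermediateField ℚ ℂ)).eRk S + m ≤ (N : ℕ∞) := by
  have h2 : Cardinal.toENat (Algebra.trdeg ℚ (IntermediateField.adjoin ℚ S)) =
      (Pool.Agent.TH813.Rel.MK ℚ).eRk S := Pool.Agent.TH813.Rel.toENat_trdeg (k := ℚ) _
  rw [← Cardinal.toENat_le_natCast, map_add, h2, ← Pool.Agent.Y685.MK_FR ℚ, FR_bot]
  simp

theorem isOpen_im : IsOpen {z : ℂ | 0 < z.im} := isOpen_lt continuous_const Complex.continuous_im

theorem ev_eq {f : ℂ → ℂ} (hf : ∀ z : ℂ, 0 < z.im → f z = jf z) {z : ℂ} (hz : 0 < z.im) : f =ᶠ[𝓝 z] jf := by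
  filter_upwards [isOpen_im.mem_nhds hz] with w hw using hf w hw

theorem deriv_eq {f : ℂ → ℂ} (hf : ∀ z : ℂ, 0 < z.im → f z = jf z) {z : ℂ} (hz : 0 < z.im) :
    deriv f z = deriv jf z := (ev_eq hf hz).deriv_eq

theorem deriv2_eq {f : ℂ → ℂ} (hf : ∀ z : ℂ, 0 < z.im → f z = jf z) {z : ℂ} (hz : 0 < z.im) :
    deriv (deriv f) z = deriv (deriv jf) z := (ev_eq hf hz).deriv.deriv_eq

/-- the lattice `ℤ + ℤ τ` -/
theorem LC_eq {τ : ℂ} (h : 0 < τ.im) {L : PeriodPair} (h1 : L.ω₁ = 1) (h2 : L.ω₂ = τ) : LC τ = L := by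
  have e1 : (LC τ).ω₁ = L.ω₁ := by rw [h1]; rfl
  have e2 : (LC τ).ω₂ = L.ω₂ := by rw [h2, LC_ω₂ h]
  cases L with
  | mk a b c =>
    cases hM : LC τ with
    | mk a' b' c' =>
      rw [hM] at e1 e2
      simp only at e1 e2
      subst e1 e2
      rfl

end Pool.Agent.H445.MJ
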