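import Pool.Agent.H445.MJ.ChainJ

/-!
# Countable closed fields for the functions on the upper half-plane
-/

set_option autoImplicit false

open Set Module MvPolynomial
open Pool.Agent.TH813.Rel (DF MK subset_cl rk_le_of_subset_cl cl_of_base exists_derF)
open Pool.Agent.Y685
open Pool.Agent.Y776 (T0 T0_spec be0 Good good_der good_union countable_bad exists_chain grC Grad)
open Pool.Agent.Y776.AxJ
open Pool.Agent.W245.EB Pool.Agent.TH813.Ell H667R3 Pool.Agent.Y119.CB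

noncomputable section

namespace Pool.Agent.H445.MJ

variable {n : ℕ} {K : Subfield ℂ}

/-- names of the numbers -/
abbrev SJ (n : ℕ) : Type := (Fin n × Fin 5) ⊕ Unit

/-- the vector field of one point -/
def vJ (i : Fin n) : Fin 5 → MvPolynomial (SJ n) ℚ :=
  Fin.cons 1 (w4 (X (Sum.inr ())) (C (1 / 12)) (C (1 / 3)) (fun k => X (Sum.inl (i, k.succ))))

/-- the vector fields -/
def PJ (j : Fin n) : SJ n → MvPolynomial (SJ n) ℚ :=
  Sum.elim (fun p => if p.1 = j then vJ p.1 p.2 else 0) (fun _ => 0)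

/-- the functions of one point -/
def b5J : Fin 5 → ℂ → ℂ := Fin.cons id hp4

/-- the numbers -/
def PhJ (x : Fin n → ℂ) : SJ n → ℂ := Sum.elim (fun p => b5J p.2 (x p.1)) (fun _ => be0)

/-- the domain -/
def UJ (n : ℕ) : Set (Fin n → ℂ) := {x | ∀ i, 0 < (x i).im}

theorem isOpen_UJ (n : ℕ) : IsOpen (UJ n) := by
  have : UJ n = ⋂ i, {x : Fin n → ℂ | 0 < (x i).im} := by
    ext x
    simp [UJ]
  rw [this]
  exact isOpen_iInter_of_finite fun i =>
    isOpen_lt continuous_const (Complex.continuous_im.comp (continuous_apply i))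

theorem vJ_succ (i : Fin n) (k : Fin 4) : vJ i k.succ =
    w4 (X (Sum.inr ())) (C (1 / 12)) (C (1 / 3)) (fun k => X (Sum.inl (i, k.succ))) k := Fin.cons_succ _ _ _

theorem vJ_zero (i : Fin n) : vJ i 0 = 1 := Fin.cons_zero _ _

theorem aeval_vJ (x : Fin n → ℂ) (i : Fin n) (k : Fin 5) :
    aeval (PhJ x) (vJ i k) = (Fin.cons 1 (v4 fun k => hp4 k (x i)) : Fin 5 → ℂ) k := by
  refine Fin.cases ?_ (fun k => ?_) k
  · rw [vJ_zero, map_one, Fin.cons_zero]
  · rw [vJ_succ, Fin.cons_succ, ← w4_v4]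
    have h1 := w4_map ((aeval (PhJ x) : MvPolynomial (SJ n) ℚ →ₐ[ℚ] ℂ) : MvPolynomial (SJ n) ℚ →+* ℂ)
      (X (Sum.inr ())) (C (1 / 12)) (C (1 / 3)) (fun k : Fin 4 => X (Sum.inl (i, k.succ))) k
    refine h1.trans ?_
    simp only [RingHom.coe_coe, aeval_X, aeval_C]
    have e1 : (algebraMap ℚ ℂ) (1 / 12) = 1 / 12 := by simp
    have e2 : (algebraMap ℚ ℂ) (1 / 3) = 1 / 3 := by simp
    rw [e1, e2]
    have e3 : (fun j : Fin 4 => PhJ x (Sum.inl (i, j.succ))) = fun k => hp4 k (x i) := by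
      funext j
      change b5J j.succ (x i) = _
      rw [b5J, Fin.cons_succ]
    rw [e3]
    rfl

theorem b5J_der (k : Fin 5) {t : ℂ} (ht : 0 < t.im) :
    HasDerivAt (b5J k) ((Fin.cons 1 (v4 fun k => hp4 k t) : Fin 5 → ℂ) k) t := by
  refine Fin.cases ?_ (fun k => ?_) k
  · exact hasDerivAt_id t
  · exact hp4_der k ht

theorem PhJ_der {x : Fin n → ℂ} (hx : x ∈ UJ n) (s : SJ n) :
    HasFDerivAt (fun y => PhJ y s) (∑ j, (aeval (PhJ x) (PJ j s)) •
      (ContinuousLinearMap.proj j : (Fin n → ℂ) →L[ℂ] ℂ)) x := by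
  rcases s with ⟨i, k⟩ | ⟨⟩
  · have h1 : (∑ j, (aeval (PhJ x) (PJ j (Sum.inl (i, k)))) •
        (ContinuousLinearMap.proj j : (Fin n → ℂ) →L[ℂ] ℂ)) =
        ((Fin.cons 1 (v4 fun k => hp4 k (x i)) : Fin 5 → ℂ) k) •
          (ContinuousLinearMap.proj i : (Fin n → ℂ) →L[ℂ] ℂ) := by
      rw [Finset.sum_eq_single i]
      · change aeval (PhJ x) (if i = i then vJ i k else 0) • _ = _
        rw [if_pos rfl, aeval_vJ]
      · intro j _ hj
        change aeval (PhJ x) (if i = j then vJ i k else 0) • _ = _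
        rw [if_neg (Ne.symm hj), map_zero]
        refine ContinuousLinearMap.ext fun v => ?_
        simp
      · intro h; exact absurd (Finset.mem_univ _) h
    rw [h1]
    have h2 := (b5J_der k (hx i)).comp_hasFDerivAt x
      (ContinuousLinearMap.proj i : (Fin n → ℂ) →L[ℂ] ℂ).hasFDerivAt
    exact h2
  · have h1 : (∑ j, (aeval (PhJ x) (PJ j (Sum.inr ()))) •
        (ContinuousLinearMap.proj j : (Fin n → ℂ) →L[ℂ] ℂ)) = 0 := by
      refine Finset.sum_eq_zero fun j _ => ?_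
      change aeval (PhJ x) (0 : MvPolynomial (SJ n) ℚ) • _ = _
      rw [map_zero]
      refine ContinuousLinearMap.ext fun v => ?_
      simp
    rw [h1]
    exact hasFDerivAt_const _ _

/-- the exceptional points over a field -/
def badJ (K : Subfield ℂ) : Set ℂ := {x | ∃ (n : ℕ) (z : Fin n → ℂ) (j₀ : Fin n), z ∈ UJ n ∧ z j₀ = x ∧
    ¬ Good PJ K (PhJ z) j₀}

theorem countable_badJ {K : Subfield ℂ} (hK : (K : Set ℂ).Countable) : (badJ K).Countable := by
  have h1 : ∀ (n : ℕ) (j₀ : Fin n), {c : ℂ | ∃ a ∈ UJ n, a j₀ = c ∧ ¬ Good PJ K (PhJ a) j₀}.Countable := by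
    intro n j₀
    exact countable_bad PJ hK (isOpen_UJ n) (fun x hx s₀ => PhJ_der hx s₀) (s₀ := Sum.inl (j₀, 0)) (fun x => rfl)
  refine (Set.countable_iUnion fun n => Set.countable_iUnion fun j₀ => h1 n j₀).mono ?_
  rintro x ⟨n, z, j₀, hz, rfl, hg⟩
  exact mem_iUnion.2 ⟨n, mem_iUnion.2 ⟨j₀, z, hz, rfl, hg⟩⟩

/-- closed fields -/
structure FldJ (K : Subfield ℂ) : Prop where
  cnt : (K : Set ℂ).Countable
  alg : ∀ x, IsAlgebraic K x → x ∈ K
  t0 : ∀ τ ∈ T0, τ ∈ K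
  be : be0 ∈ K
  val : ∀ τ ∈ K, ∀ k, hp4 k τ ∈ K
  good : ∀ (n : ℕ) (z : Fin n → ℂ) (j₀ : Fin n), z ∈ UJ n → z j₀ ∉ K → Good PJ K (PhJ z) j₀

/-- **Countable closed fields** -/
theorem exists_FldJ {S : Set ℂ} (hS : S.Countable) : ∃ K : Subfield ℂ, FldJ K ∧ S ⊆ K := by
  obtain ⟨K, F, hmono, hF, hFc, hSF, hTF, halg⟩ := exists_chain
    (fun k => badJ k ∪ ⋃ i, hp4 i '' (k : Set ℂ))
    (fun k hk => (countable_badJ hk).union (countable_iUnion fun i => hk.image _))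
    (S₀ := T0 ∪ ({be0} ∪ S)) (T0_spec.1.union ((Set.countable_singleton _).union hS))
  refine ⟨F, ⟨hFc, halg, fun τ hτ => hSF (Or.inl hτ), hSF (Or.inr (Or.inl rfl)), ?_, ?_⟩,
    fun x hx => hSF (Or.inr (Or.inr hx))⟩
  · intro τ hτ k
    obtain ⟨i, hi⟩ := (hF τ).1 hτ
    exact hTF i (Or.inr (mem_iUnion.2 ⟨k, τ, hi, rfl⟩))
  · intro n z j₀ hz hx
    refine good_union hmono (fun x hx => (hF x).1 hx) (fun i => ?_)
    by_contra hcon
    apply hx
    exact hTF i (Or.inl ⟨n, z, j₀, hz, rfl, hcon⟩)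

/-- the compatible derivations at a point -/
def CjS (τ : ℂ) : Submodule ℂ (Derivation ℚ ℂ ℂ) where
  carrier := {D | Cj D τ}
  add_mem' := by
    rintro D D' ⟨a1, a2, a3⟩ ⟨b1, b2, b3⟩
    refine ⟨?_, ?_, ?_⟩
    · rw [Derivation.add_apply, Derivation.add_apply, a1, b1]; ring
    · rw [Derivation.add_apply, Derivation.add_apply, a2, b2]; ring
    · rw [Derivation.add_apply, Derivation.add_apply, a3, b3]; ring
  zero_mem' := by
    refine ⟨?_, ?_, ?_⟩ <;> simp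
  smul_mem' := by
    rintro c D ⟨a1, a2, a3⟩
    refine ⟨?_, ?_, ?_⟩
    · rw [Derivation.smul_apply, Derivation.smul_apply, a1, smul_eq_mul, smul_eq_mul]; ring
    · rw [Derivation.smul_apply, Derivation.smul_apply, a2, smul_eq_mul, smul_eq_mul]; ring
    · rw [Derivation.smul_apply, Derivation.smul_apply, a3, smul_eq_mul, smul_eq_mul]; ring

theorem mem_CjS {τ : ℂ} {D : Derivation ℚ ℂ ℂ} : D ∈ CjS τ ↔ Cj D τ := Iff.rfl

/-- the compatible derivations over a field -/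
def CJ (K : Subfield ℂ) (z : Fin n → ℂ) : Submodule ℂ (Derivation ℚ ℂ ℂ) :=
  DF (IFd K) ⊓ ⨅ i, CjS (z i)

theorem mem_CJ {z : Fin n → ℂ} {D : Derivation ℚ ℂ ℂ} :
    D ∈ CJ K z ↔ (∀ x ∈ K, D x = 0) ∧ ∀ i, Cj D (z i) := by
  unfold CJ
  rw [Submodule.mem_inf, Submodule.mem_iInf]
  rfl

/-- every compatible direction comes from a derivation -/
theorem Tan_CJ {z : Fin n → ℂ} {v : Fin n → ℂ} (hv : v ∈ Tan PJ K (PhJ z)) :
    ∃ D ∈ CJ K z, ∀ j, D (z j) = v j := by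
  classical
  obtain ⟨D₀, hD⟩ := exists_derivation (k := K) (PhJ z)
    (fun s₀ => ∑ j, v j * aeval (PhJ z) (PJ j s₀)) (by
      intro H hH
      have h1 := hv _ ⟨H, hH, rfl⟩
      rw [← h1]
      simp only [grC, Finset.mul_sum, Finset.sum_mul]
      rw [Finset.sum_comm]
      exact Finset.sum_congr rfl fun j _ => Finset.sum_congr rfl fun s _ => by ring)
  set D : Derivation ℚ ℂ ℂ := D₀.restrictScalars ℚ with hDD
  have hk : ∀ x ∈ K, D x = 0 := fun c hc => D₀.map_algebraMap ⟨c, hc⟩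
  have key : ∀ i k, D (b5J k (z i)) = (Fin.cons 1 (v4 fun k => hp4 k (z i)) : Fin 5 → ℂ) k * v i := by
    intro i k
    have h1 := hD (Sum.inl (i, k))
    rw [Finset.sum_eq_single i] at h1
    · change D₀ (b5J k (z i)) = v i * aeval (PhJ z) (if i = i then vJ i k else 0) at h1
      rw [if_pos rfl, aeval_vJ] at h1
      change D₀ (b5J k (z i)) = _
      rw [h1, mul_comm]
    · intro j _ hj
      change v j * aeval (PhJ z) (if i = j then vJ i k else 0) = 0
      rw [if_neg (Ne.symm hj), map_zero, mul_zero]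
    · intro h; exact absurd (Finset.mem_univ _) h
  have k0 : ∀ i, D (z i) = v i := by
    intro i
    have h1 : D (z i) = 1 * v i := key i 0
    rw [h1, one_mul]
  refine ⟨D, mem_CJ.2 ⟨hk, fun i => ⟨?_, ?_, ?_⟩⟩, k0⟩
  · rw [k0]
    exact key i 1
  · rw [k0]
    exact key i 2
  · rw [k0]
    exact key i 3

/-- a point outside of the field is moved by a compatible derivation -/
theorem FldJ.moves (hK : FldJ K) {z : Fin n → ℂ} (hz : z ∈ UJ n) {j : Fin n} (hx : z j ∉ K) :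
    ∃ D ∈ CJ K z, D (z j) ≠ 0 := by
  obtain ⟨v, hv, hv1⟩ := good_Tan (hK.good n z j hz hx)
  obtain ⟨D, hD, hDv⟩ := Tan_CJ hv
  refine ⟨D, hD, ?_⟩
  rw [hDv, hv1]
  exact one_ne_zero

end Pool.Agent.H445.MJ
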