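import Mathlib
import Pool.Graph.R_seed8.Y685.Clo

/-!
# Derivations and flows
-/

set_option autoImplicit false

open Filter Topology MvPolynomial

noncomputable section

namespace Pool.Agent.H445.MJ

variable {ι : Type} {K : IntermediateField ℚ ℂ} {g : ℂ} {D : Derivation ℚ ℂ ℂ} {W : ι → ℂ → ℂ}
  {P : ι → MvPolynomial ι K}

theorem flow_hd (hd : ∀ i, ∀ᶠ s in 𝓝 g, HasDerivAt (W i) (aeval (fun j => W j s) (P i)) s)
    (F : MvPolynomial ι K) : ∀ᶠ s in 𝓝 g, HasDerivAt (fun s => aeval (fun j => W j s) F)
      (aeval (fun j => W j s) (mkDerivation K P F)) s := by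
  induction F using MvPolynomial.induction_on with
  | C a =>
    refine Eventually.of_forall fun s => ?_
    rw [derivation_C, map_zero]
    simp only [aeval_C]
    exact hasDerivAt_const _ _
  | add p q hp hq =>
    filter_upwards [hp, hq] with s h1 h2
    rw [map_add, map_add]
    simp only [map_add]
    exact h1.add h2
  | mul_X p i hp =>
    filter_upwards [hp, hd i] with s h1 h2
    rw [Derivation.leibniz, mkDerivation_X, smul_eq_mul, smul_eq_mul, map_add, map_mul, map_mul, aeval_X]
    simp only [map_mul, aeval_X]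
    refine (h1.mul h2).congr_deriv ?_
    ring

theorem flow_D (hK : ∀ c ∈ K, D c = 0) (hD : ∀ i, D (W i g) = aeval (fun j => W j g) (P i))
    (F : MvPolynomial ι K) : D (aeval (fun j => W j g) F) = aeval (fun j => W j g) (mkDerivation K P F) := by
  induction F using MvPolynomial.induction_on with
  | C a =>
    rw [derivation_C, map_zero, aeval_C]
    exact hK _ a.2
  | add p q hp hq => rw [map_add, map_add, map_add, map_add, hp, hq]
  | mul_X p i hp =>
    have e : aeval (fun j => W j g) (p * X i) = aeval (fun j => W j g) p * W i g := by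
      rw [map_mul, aeval_X]
    rw [e, Derivation.leibniz, hp, hD, Derivation.leibniz, mkDerivation_X, smul_eq_mul, smul_eq_mul, smul_eq_mul,
      smul_eq_mul, map_add, map_mul, map_mul, aeval_X]

/-- **the iterated derivatives along a flow** -/
theorem flow_all (hK : ∀ c ∈ K, D c = 0)
    (hd : ∀ i, ∀ᶠ s in 𝓝 g, HasDerivAt (W i) (aeval (fun j => W j s) (P i)) s)
    (hD : ∀ i, D (W i g) = aeval (fun j => W j g) (P i)) (k : ℕ) (F : MvPolynomial ι K) :
    iteratedDeriv k (fun s => aeval (fun j => W j s) F) g = (fun z => D z)^[k] (aeval (fun j => W j g) F) := by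
  induction k generalizing F with
  | zero => rw [iteratedDeriv_zero]; rfl
  | succ k ih =>
    rw [iteratedDeriv_succ', Function.iterate_succ_apply, flow_D hK hD, ← ih]
    refine Filter.EventuallyEq.iteratedDeriv_eq k ?_
    filter_upwards [flow_hd hd F] with s hs
    exact hs.deriv

/-- **relations spread along flows** -/
theorem flow_zero (hK : ∀ c ∈ K, D c = 0)
    (hd : ∀ i, ∀ᶠ s in 𝓝 g, HasDerivAt (W i) (aeval (fun j => W j s) (P i)) s)
    (hD : ∀ i, D (W i g) = aeval (fun j => W j g) (P i)) {F : MvPolynomial ι K}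
    (hF : aeval (fun j => W j g) F = 0) : ∀ᶠ s in 𝓝 g, aeval (fun j => W j s) F = 0 := by
  have han : AnalyticAt ℂ (fun s => aeval (fun j => W j s) F) g := by
    rw [Complex.analyticAt_iff_eventually_differentiableAt]
    filter_upwards [flow_hd hd F] with s hs
    exact hs.differentiableAt
  have h1 := han.hasFPowerSeriesAt
  have h2 : FormalMultilinearSeries.ofScalars ℂ (fun n : ℕ =>
      iteratedDeriv n (fun s => aeval (fun j => W j s) F) g / (n.factorial : ℂ)) = (0 : FormalMultilinearSeries ℂ ℂ ℂ) := by
    have h3 : (fun n : ℕ => iteratedDeriv n (fun s => aeval (fun j => W j s) F) g / (n.factorial : ℂ)) = 0 := by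
      funext n
      have h4 : ∀ n : ℕ, (fun z => D z)^[n] (0 : ℂ) = 0 := by
        intro n
        induction n with
        | zero => rfl
        | succ n ih => rw [Function.iterate_succ_apply, map_zero, ih]
      rw [flow_all hK hd hD, hF, h4, zero_div, Pi.zero_apply]
    rw [h3]
    exact FormalMultilinearSeries.ofScalars_series_eq_zero_of_scalar_zero ..
  rw [h2] at h1
  exact h1.eventually_eq_zero

end Pool.Agent.H445.MJ
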