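import Pool.Agent.H445.MJ.FldJ
import Pool.Agent.H445.DimC

/-!
# Generic tuples of points of the upper half-plane
-/

set_option autoImplicit false

open Set Module Topology
open scoped NNReal ENNReal

noncomputable section

namespace Pool.Agent.H445.MJ

theorem GL2Q.refl (τ : ℂ) : GL2Q τ τ := ⟨1, 0, 0, 1, by norm_num, by push_cast; ring⟩

theorem den_ne {τ : ℂ} (hτ : 0 < τ.im) {c d : ℚ} (h : ¬ (c = 0 ∧ d = 0)) : (c : ℂ) * τ + d ≠ 0 := by
  intro h0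
  have h1 := congrArg Complex.im h0
  simp only [Complex.add_im, Complex.mul_im, Complex.ratCast_re, Complex.ratCast_im, zero_mul, add_zero,
    Complex.zero_im] at h1
  have h2 : c = 0 := by
    have : (c : ℝ) = 0 := (mul_eq_zero.1 h1).resolve_right hτ.ne'
    exact_mod_cast this
  subst h2
  have h3 := congrArg Complex.re h0
  simp only [Rat.cast_zero, zero_mul, zero_add, Complex.ratCast_re, Complex.zero_re] at h3
  exact h ⟨rfl, by exact_mod_cast h3⟩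

theorem GL2Q.mem_right {K : Subfield ℂ} {τ σ : ℂ} (h : GL2Q τ σ) (hτ : 0 < τ.im) (hK : τ ∈ K) : σ ∈ K := by
  obtain ⟨a, b, c, d, hd, h1⟩ := h
  have hq : ∀ q : ℚ, (q : ℂ) ∈ K := fun q => SubfieldClass.ratCast_mem K q
  have hne := den_ne hτ (c := c) (d := d) (by
    rintro ⟨rfl, rfl⟩
    simp at hd)
  rw [eq_div_of_mul_eq hne h1]
  exact div_mem (add_mem (mul_mem (hq a) hK) (hq b)) (add_mem (mul_mem (hq c) hK) (hq d))

theorem GL2Q.mem_left {K : Subfield ℂ} {τ σ : ℂ} (h : GL2Q τ σ) (hσ : 0 < σ.im) (hK : σ ∈ K) : τ ∈ K := by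
  obtain ⟨a, b, c, d, hd, h1⟩ := h
  have hq : ∀ q : ℚ, (q : ℂ) ∈ K := fun q => SubfieldClass.ratCast_mem K q
  have hne := den_ne hσ (c := c) (d := -a) (by
    rintro ⟨rfl, ha⟩
    rw [neg_eq_zero] at ha
    subst ha
    simp at hd)
  have h2 : τ * ((c : ℂ) * σ + ((-a : ℚ) : ℂ)) = (b : ℂ) - d * σ := by
    push_cast
    linear_combination h1
  rw [eq_div_of_mul_eq hne h2]
  exact div_mem (sub_mem (hq b) (mul_mem (hq d) hK)) (add_mem (mul_mem (hq c) hK) (hq _))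

/-- generic tuples -/
def GenJ (K : Subfield ℂ) (d : ℕ) : Set (Fin d → ℂ) :=
  {x | x ∈ UJ d ∧ (∀ i, x i ∉ K) ∧ ∀ i k, i ≠ k → ¬ GL2Q (x i) (x k)}

/-- level sets of complex valued functions -/
theorem dimH_lev {d : ℕ} {f : (Fin d → ℂ) → ℂ} {f' : (Fin d → ℂ) →L[ℂ] ℂ} {a : Fin d → ℂ}
    (hf : HasStrictFDerivAt f f' a) (hf' : f' ≠ 0) :
    ∃ t ∈ 𝓝 a, dimH {x ∈ t | f x = f a} ≤ (2 * (d - 1) : ℕ) := by
  obtain ⟨t, ht, h⟩ := dimH_level (hf.restrictScalars ℝ)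
  refine ⟨t, ht, h.trans ?_⟩
  have h1 : ((f'.restrictScalars ℝ : (Fin d → ℂ) →L[ℝ] ℂ) : (Fin d → ℂ) →ₗ[ℝ] ℂ).ker =
      f'.toLinearMap.ker.restrictScalars ℝ := rfl
  rw [h1]
  have h2 := finrank_mul_finrank ℝ ℂ f'.toLinearMap.ker
  rw [Complex.finrank_real_complex] at h2
  have h3 := LinearMap.finrank_range_add_finrank_ker f'.toLinearMap
  have h4 : finrank ℂ (LinearMap.range f'.toLinearMap) = 1 := by
    have h5 : LinearMap.range f'.toLinearMap = ⊤ := by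
      apply LinearMap.range_eq_top.2
      apply LinearMap.surjective
      intro h0
      apply hf'
      ext v
      exact LinearMap.congr_fun h0 _
    rw [h5, finrank_top, finrank_self]
  rw [h4, Module.finrank_fin_fun] at h3
  have h5 : finrank ℝ (f'.toLinearMap.ker.restrictScalars ℝ) ≤ 2 * (d - 1) := by
    have h6 : finrank ℝ (f'.toLinearMap.ker.restrictScalars ℝ) = 2 * finrank ℂ f'.toLinearMap.ker := h2.symm
    rw [h6]
    omega
  exact_mod_cast h5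

theorem dimH_UJ (d : ℕ) : dimH (UJ d) = (2 * d : ℕ) := by
  have h1 : (interior (UJ d)).Nonempty := by
    rw [(isOpen_UJ d).interior_eq]
    exact ⟨fun _ => Complex.I, fun _ => by simp⟩
  have h2 : finrank ℝ (Fin d → ℂ) = 2 * d := by
    rw [Module.finrank_pi_fintype]
    simp [Complex.finrank_real_complex, mul_comm]
  rw [Real.dimH_of_nonempty_interior h1, h2]

theorem dimH_GenJ {K : Subfield ℂ} (hK : (K : Set ℂ).Countable) (d : ℕ) :
    ((2 * d : ℕ) : ℝ≥0∞) ≤ dimH (GenJ K d) := by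
  classical
  rcases Nat.eq_zero_or_pos d with rfl | hd
  · simp
  have hKc : Countable K := hK.to_subtype
  by_contra hcon
  push Not at hcon
  let B1 : Fin d × K → Set (Fin d → ℂ) := fun q => {x | x ∈ UJ d ∧ x q.1 = q.2}
  let I2 := {q : (Fin d × Fin d) × (Fin 4 → ℚ) // q.1.1 ≠ q.1.2 ∧ 0 < q.2 0 * q.2 3 - q.2 1 * q.2 2}
  let B2 : I2 → Set (Fin d → ℂ) := fun q => {x | x ∈ UJ d ∧ x q.1.1.2 * (q.1.2 2 * x q.1.1.1 + q.1.2 3) =
    q.1.2 0 * x q.1.1.1 + q.1.2 1}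
  have h1 : ∀ q, dimH (B1 q) ≤ (2 * (d - 1) : ℕ) := by
    intro q
    apply dimH_le_of_local
    rintro x ⟨hx, hq⟩
    have hs : HasStrictFDerivAt (fun y : Fin d → ℂ => y q.1) (ContinuousLinearMap.proj q.1 :
        (Fin d → ℂ) →L[ℂ] ℂ) x := (ContinuousLinearMap.proj q.1 : (Fin d → ℂ) →L[ℂ] ℂ).hasStrictFDerivAt
    obtain ⟨t, ht, h⟩ := dimH_lev hs (fun h0 => by
      have := congrArg (fun f => f (Pi.single q.1 1)) h0
      simp at this)
    refine ⟨t ∩ B1 q, Filter.inter_mem (mem_nhdsWithin_of_mem_nhds ht) self_mem_nhdsWithin,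
      le_trans (dimH_mono ?_) h⟩
    rintro y ⟨hy, hy'⟩
    exact ⟨hy, hy'.2.trans hq.symm⟩
  have h2 : ∀ q, dimH (B2 q) ≤ (2 * (d - 1) : ℕ) := by
    rintro ⟨⟨⟨i, k⟩, m⟩, hik, hm⟩
    apply dimH_le_of_local
    rintro x ⟨hx, hq⟩
    replace hq : x k * (m 2 * x i + m 3) = m 0 * x i + m 1 := hq
    replace hik : i ≠ k := hik
    replace hm : 0 < m 0 * m 3 - m 1 * m 2 := hm
    have pi : HasStrictFDerivAt (fun y : Fin d → ℂ => y i) (ContinuousLinearMap.proj i :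
        (Fin d → ℂ) →L[ℂ] ℂ) x := (ContinuousLinearMap.proj i : (Fin d → ℂ) →L[ℂ] ℂ).hasStrictFDerivAt
    have pk : HasStrictFDerivAt (fun y : Fin d → ℂ => y k) (ContinuousLinearMap.proj k :
        (Fin d → ℂ) →L[ℂ] ℂ) x := (ContinuousLinearMap.proj k : (Fin d → ℂ) →L[ℂ] ℂ).hasStrictFDerivAt
    have hs := (pk.mul ((pi.const_mul (m 2 : ℂ)).add_const (m 3 : ℂ))).sub ((pi.const_mul (m 0 : ℂ)).add_const (m 1 : ℂ))
    have hne : (m 2 : ℂ) * x i + m 3 ≠ 0 := den_ne (hx i) (by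
      rintro ⟨h3, h4⟩
      rw [h3, h4] at hm
      simp at hm)
    obtain ⟨t, ht, h⟩ := dimH_lev hs (fun h0 => by
      have := congrArg (fun f => f (Pi.single k 1)) h0
      simp [Pi.single_eq_of_ne hik] at this
      exact hne this)
    refine ⟨t ∩ B2 ⟨((i, k), m), hik, hm⟩, Filter.inter_mem (mem_nhdsWithin_of_mem_nhds ht) self_mem_nhdsWithin,
      le_trans (dimH_mono ?_) h⟩
    rintro y ⟨hy, hy'⟩
    refine ⟨hy, ?_⟩
    have e1 : y k * (m 2 * y i + m 3) = m 0 * y i + m 1 := hy'.2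
    change y k * (m 2 * y i + m 3) - (m 0 * y i + m 1) = x k * (m 2 * x i + m 3) - (m 0 * x i + m 1)
    rw [e1, hq, sub_self, sub_self]
  have h3 : UJ d ⊆ GenJ K d ∪ ((⋃ q, B1 q) ∪ ⋃ q, B2 q) := by
    intro x hx
    by_cases hg : x ∈ GenJ K d
    · exact Or.inl hg
    right
    by_cases hk : ∀ i, x i ∉ K
    · right
      have h4 : ¬ ∀ i k, i ≠ k → ¬ GL2Q (x i) (x k) := fun h => hg ⟨hx, hk, h⟩
      push Not at h4
      obtain ⟨i, k, hik, a, b, c, e, he, h5⟩ := h4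
      exact mem_iUnion.2 ⟨⟨((i, k), ![a, b, c, e]), hik, he⟩, hx, h5⟩
    · left
      push Not at hk
      obtain ⟨i, hi⟩ := hk
      exact mem_iUnion.2 ⟨(i, ⟨x i, hi⟩), hx, rfl⟩
  have h4 : dimH (UJ d) ≤ max (dimH (GenJ K d)) ((2 * (d - 1) : ℕ) : ℝ≥0∞) := by
    refine (dimH_mono h3).trans ?_
    rw [dimH_union, dimH_union, dimH_iUnion, dimH_iUnion]
    exact max_le_max le_rfl (max_le (iSup_le h1) (iSup_le h2))
  rw [dimH_UJ] at h4
  have h5 : ((2 * (d - 1) : ℕ) : ℝ≥0∞) < ((2 * d : ℕ) : ℝ≥0∞) := by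
    exact_mod_cast (by omega : 2 * (d - 1) < 2 * d)
  exact absurd h4 (not_le.2 (max_lt hcon h5))

end Pool.Agent.H445.MJ
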