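import Mathlib
import Pool.Graph.R_seed8.Helper165.P1.Pui

/-!
# GLOB (for project MJ of helper445): an element of an algebraic function field of one variable
which is regular at all places and vanishes at the places over infinity is zero
-/

set_option autoImplicit false

open HahnSeries

noncomputable section

namespace Pool.Agent.H445.MJ.GLx

open Pool.Agent.Helper165.P1 Polynomial

variable {E : Type} [Field E]

/-- evaluation of a polynomial at a power of the variable -/
abbrev ev (e : ℚ) : E[X] →+* HahnSeries ℚ E :=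
  Polynomial.eval₂RingHom (HahnSeries.C : E →+* HahnSeries ℚ E) (single e 1)

theorem ev_monomial (e : ℚ) (m : ℕ) (a : E) : ev e (monomial m a) = single (m * e) a := by
  simp only [ev, Polynomial.coe_eval₂RingHom, Polynomial.eval₂_monomial, HahnSeries.single_pow,
    one_pow]
  rw [HahnSeries.C_apply, HahnSeries.single_mul_single]
  simp

theorem ev_coeff (e : ℚ) (he : e ≠ 0) (q : E[X]) (n : ℕ) :
    (ev e q).coeff (n * e) = q.coeff n := by
  induction q using Polynomial.induction_on' with
  | add p q hp hq => rw [map_add, HahnSeries.coeff_add, hp, hq, Polynomial.coeff_add]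
  | monomial m a =>
    rw [ev_monomial, Polynomial.coeff_monomial]
    split_ifs with h
    · rw [h, HahnSeries.coeff_single_same]
    · apply HahnSeries.coeff_single_of_ne
      intro h'
      apply h
      have := mul_right_cancel₀ he h'
      exact_mod_cast this.symm

theorem ev_coeff_zero (e : ℚ) (q : E[X]) (r : ℚ) (hr : ∀ n : ℕ, r ≠ n * e) :
    (ev e q).coeff r = 0 := by
  induction q using Polynomial.induction_on' with
  | add p q hp hq => rw [map_add, HahnSeries.coeff_add, hp, hq, add_zero]
  | monomial m a =>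
    rw [ev_monomial]
    exact HahnSeries.coeff_single_of_ne (hr m)

theorem ev_inj (e : ℚ) (he : e ≠ 0) : Function.Injective (ev (E := E) e) := by
  rw [injective_iff_map_eq_zero]
  intro q hq
  ext n
  rw [← ev_coeff e he q n, hq]
  simp

theorem C_mem (c : E) : (HahnSeries.C c : HahnSeries ℚ E) ∈ Pui E := by
  refine ⟨1, one_pos, HahnSeries.C c, ?_⟩
  unfold eHom
  rw [HahnSeries.embDomainRingHom_C]

theorem single_mem (n : ℤ) : (single (n : ℚ) 1 : HahnSeries ℚ E) ∈ Pui E := by
  refine ⟨1, one_pos, single n 1, ?_⟩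
  unfold eHom
  rw [HahnSeries.embDomainRingHom_apply, HahnSeries.embDomain_single]
  have h : ((n : ℚ) / ((1 : ℕ) : ℚ)) = n := by simp
  conv_rhs => rw [← h]
  rfl

theorem mul_neg {x y : HahnSeries ℚ E} (hx : ∀ q : ℚ, q < 0 → x.coeff q = 0)
    (hy : ∀ q : ℚ, q < 0 → y.coeff q = 0) : ∀ q : ℚ, q < 0 → (x * y).coeff q = 0 := by
  intro q hq
  rw [HahnSeries.coeff_mul]
  apply Finset.sum_eq_zero
  rintro ⟨i, j⟩ hij
  have h := (Finset.mem_antidiagonal.1 hij).2.2
  simp only at h
  by_cases hi : i < 0
  · rw [hx i hi, zero_mul]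
  · rw [hy j (by linarith), mul_zero]

theorem mul_nonpos {x y : HahnSeries ℚ E} (hx : ∀ q : ℚ, q ≤ 0 → x.coeff q = 0)
    (hy : ∀ q : ℚ, q < 0 → y.coeff q = 0) : ∀ q : ℚ, q ≤ 0 → (x * y).coeff q = 0 := by
  intro q hq
  rw [HahnSeries.coeff_mul]
  apply Finset.sum_eq_zero
  rintro ⟨i, j⟩ hij
  have h := (Finset.mem_antidiagonal.1 hij).2.2
  simp only at h
  by_cases hi : i ≤ 0
  · rw [hx i hi, zero_mul]
  · rw [hy j (by linarith), mul_zero]

variable [IsAlgClosed E] [CharZero E]

/-- the key step: a place of the base extended to the algebraic extension -/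
theorem prod_roots {K F : Type} [Field K] [Field F] [Algebra K F] [Algebra.IsAlgebraic K F]
    (ψ : K →+* Pui E) (y : F) :
    ∃ s : Multiset (HahnSeries ℚ E), s ≠ 0 ∧ (∀ r ∈ s, ∃ φ : F →+* HahnSeries ℚ E,
      (∀ k : K, φ (algebraMap K F k) = ψ k) ∧ φ y = r) ∧
      ((ψ ((minpoly K y).coeff 0) : Pui E) : HahnSeries ℚ E) =
        (-1) ^ (minpoly K y).natDegree * s.prod := by
  letI : Algebra K (Pui E) := ψ.toAlgebra
  have hy : IsIntegral K y := Algebra.IsIntegral.isIntegral y
  have hm := minpoly.monic hy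
  have hsp : ((minpoly K y).map ψ).Splits := IsAlgClosed.splits _
  have h1 := hsp.coeff_zero_eq_prod_roots_of_monic (hm.map ψ)
  refine ⟨((minpoly K y).map ψ).roots.map (Pui E).subtype, ?_, ?_, ?_⟩
  · intro h
    rw [Multiset.map_eq_zero] at h
    have h2 := hsp.natDegree_eq_card_roots
    rw [h, Multiset.card_zero, hm.natDegree_map] at h2
    exact (minpoly.natDegree_pos hy).ne' h2
  · intro r hr
    obtain ⟨r', hr', rfl⟩ := Multiset.mem_map.1 hr
    have h3 : aeval r' (minpoly K y) = 0 := by
      have := (Polynomial.mem_roots'.1 hr').2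
      rw [Polynomial.IsRoot.def, Polynomial.eval_map] at this
      exact this
    obtain ⟨φ, hφ⟩ := IntermediateField.exists_algHom_of_splits_of_aeval (F := K) (E := F)
      (K := Pui E) (fun s => ⟨Algebra.IsIntegral.isIntegral s, IsAlgClosed.splits _⟩) h3
    refine ⟨(Pui E).subtype.comp φ.toRingHom, ?_, ?_⟩
    · intro k
      simp only [RingHom.comp_apply, AlgHom.toRingHom_eq_coe, RingHom.coe_coe, AlgHom.commutes]
      rfl
    · simp only [RingHom.comp_apply, AlgHom.toRingHom_eq_coe, RingHom.coe_coe, hφ]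
  · rw [Polynomial.coeff_map, hm.natDegree_map] at h1
    rw [h1]
    have := map_multiset_prod (Pui E).subtype ((minpoly K y).map ψ).roots
    rw [← this]
    simp

end Pool.Agent.H445.MJ.GLx

namespace Pool.Agent.H445.MJ

open GLx Pool.Agent.Helper165.P1

/-- **GLOB** -/
theorem glob {E F : Type} [Field E] [IsAlgClosed E] [CharZero E] [Field F] [Algebra E F] {x y : F}
    (hx : Transcendental E x) (hF : ∀ z : F, IsAlgebraic (IntermediateField.adjoin E {x}) z)
    (h0 : ∀ (φ : F →+* HahnSeries ℚ E) (x₀ : E), (∀ c : E, φ (algebraMap E F c) = HahnSeries.C c) →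
      φ x = HahnSeries.C x₀ + single 1 1 → ∀ q : ℚ, q < 0 → (φ y).coeff q = 0)
    (hinf : ∀ φ : F →+* HahnSeries ℚ E, (∀ c : E, φ (algebraMap E F c) = HahnSeries.C c) →
      φ x = single (-1) 1 → ∀ q : ℚ, q ≤ 0 → (φ y).coeff q = 0) : y = 0 := by
  classical
  -- the base field
  let K := FractionRing (Polynomial E)
  have hxi : Function.Injective (Polynomial.aeval (R := E) x) :=
    transcendental_iff_injective.1 hx
  let ι : K →+* F := IsFractionRing.lift (K := K) (g := (Polynomial.aeval (R := E) x).toRingHom) hxi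
  letI : Algebra K F := ι.toAlgebra
  have hι : ∀ f : Polynomial E, algebraMap K F (algebraMap (Polynomial E) K f) =
      Polynomial.aeval x f := fun f => IsFractionRing.lift_algebraMap hxi f
  haveI : Algebra.IsAlgebraic K F := by
    have hmem : ∀ k : K, algebraMap K F k ∈ IntermediateField.adjoin E {x} := by
      intro k
      obtain ⟨f, g, hg, rfl⟩ := IsFractionRing.div_surjective (A := Polynomial E) k
      rw [map_div₀, hι, hι]
      exact IntermediateField.mem_adjoin_simple_iff E _ |>.2 ⟨f, g, rfl⟩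
    let f : K →+* IntermediateField.adjoin E {x} :=
      (algebraMap K F).codRestrict (IntermediateField.adjoin E {x}).toSubfield hmem
    constructor
    intro z
    refine (hF z).of_ringHom_of_comp_eq f (RingHom.id F) ?_ Function.injective_id ?_
    · rintro ⟨w, hw⟩
      obtain ⟨r, s, rfl⟩ := IntermediateField.mem_adjoin_simple_iff E _ |>.1 hw
      refine ⟨algebraMap _ K r / algebraMap _ K s, ?_⟩
      apply Subtype.ext
      show algebraMap K F _ = _
      rw [map_div₀, hι, hι]
    · ext k
      rfl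
  -- constants and polynomials under an embedding
  set a : K := (minpoly K y).coeff 0 with ha
  have hy : IsIntegral K y := Algebra.IsIntegral.isIntegral y
  -- places
  have hplace : ∀ (g : Polynomial E →+* HahnSeries ℚ E) (hg : ∀ f, g f ∈ Pui E)
      (hgi : Function.Injective g), ∃ ψ : K →+* Pui E, ∀ f : Polynomial E,
        ((ψ (algebraMap _ K f) : Pui E) : HahnSeries ℚ E) = g f := by
    intro g hg hgi
    let g' : Polynomial E →+* Pui E := g.codRestrict (Pui E) hg
    have hg' : Function.Injective g' := fun u v h => hgi (congrArg Subtype.val h)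
    refine ⟨IsFractionRing.lift (K := K) hg', fun f => ?_⟩
    rw [IsFractionRing.lift_algebraMap]
    rfl
  have hevmem : ∀ (s : HahnSeries ℚ E), s ∈ Pui E → ∀ f : Polynomial E,
      Polynomial.eval₂RingHom (HahnSeries.C : E →+* HahnSeries ℚ E) s f ∈ Pui E := by
    intro s hs f
    rw [Polynomial.coe_eval₂RingHom, Polynomial.eval₂_eq_sum]
    exact Subring.sum_mem (Pui E).toSubring fun n _ => (Pui E).mul_mem (C_mem _) ((Pui E).pow_mem hs n)
  have hsign : ∀ (n : ℕ) (z : HahnSeries ℚ E) (q : ℚ), z.coeff q = 0 →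
      ((-1) ^ n * z).coeff q = 0 := by
    intro n z q hz
    rcases neg_one_pow_eq_or (HahnSeries ℚ E) n with h | h
    · rw [h, one_mul, hz]
    · rw [h, neg_one_mul, HahnSeries.coeff_neg, hz, neg_zero]
  have hφc : ∀ (ψ : K →+* Pui E) (g : Polynomial E →+* HahnSeries ℚ E)
      (_ : ∀ f : Polynomial E, ((ψ (algebraMap _ K f) : Pui E) : HahnSeries ℚ E) = g f)
      (φ : F →+* HahnSeries ℚ E) (_ : ∀ k : K, φ (algebraMap K F k) = ψ k) (f : Polynomial E),
      φ (Polynomial.aeval x f) = g f := by
    intro ψ g hψ φ hφ f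
    rw [← hι, hφ, hψ]
  -- regularity of `a` at the finite places
  have hA : ∀ x₀ : E, ∀ ψ : K →+* Pui E, (∀ f : Polynomial E,
      ((ψ (algebraMap _ K f) : Pui E) : HahnSeries ℚ E) =
        Polynomial.eval₂RingHom (HahnSeries.C : E →+* HahnSeries ℚ E)
          (HahnSeries.C x₀ + single 1 1) f) →
      ∀ q : ℚ, q < 0 → ((ψ a : Pui E) : HahnSeries ℚ E).coeff q = 0 := by
    intro x₀ ψ hψ q hq
    obtain ⟨s, hs0, hs, hsa⟩ := prod_roots ψ y
    rw [hsa]
    apply hsign
    revert q
    refine Multiset.prod_induction (fun z : HahnSeries ℚ E => ∀ q : ℚ, q < 0 → z.coeff q = 0) s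
      (fun a b ha hb => mul_neg ha hb) ?_ ?_
    · intro q hq
      rw [HahnSeries.coeff_one, if_neg hq.ne]
    · intro r hr
      obtain ⟨φ, hφ, rfl⟩ := hs r hr
      refine h0 φ x₀ ?_ ?_
      · intro c
        have := hφc ψ _ hψ φ hφ (Polynomial.C c)
        simpa using this
      · have := hφc ψ _ hψ φ hφ Polynomial.X
        simpa using this
  -- the place at infinity
  have hB : ∀ ψ : K →+* Pui E, (∀ f : Polynomial E,
      ((ψ (algebraMap _ K f) : Pui E) : HahnSeries ℚ E) = ev (-1) f) →
      ∀ q : ℚ, q ≤ 0 → ((ψ a : Pui E) : HahnSeries ℚ E).coeff q = 0 := by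
    intro ψ hψ q hq
    obtain ⟨s, hs0, hs, hsa⟩ := prod_roots ψ y
    rw [hsa]
    apply hsign
    revert q
    refine Multiset.prod_induction_nonempty
      (fun z : HahnSeries ℚ E => ∀ q : ℚ, q ≤ 0 → z.coeff q = 0)
      (fun a b ha hb => mul_nonpos ha fun q hq => hb q hq.le) hs0 ?_
    intro r hr
    obtain ⟨φ, hφ, rfl⟩ := hs r hr
    refine hinf φ ?_ ?_
    · intro c
      have := hφc ψ _ hψ φ hφ (Polynomial.C c)
      simpa using this
    · have := hφc ψ _ hψ φ hφ Polynomial.X
      simpa using this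
  obtain ⟨f, g, hrel, hfg⟩ := IsFractionRing.exists_reduced_fraction (A := Polynomial E) (K := K) a
  have hg0 : (g : Polynomial E) ≠ 0 := nonZeroDivisors.ne_zero g.2
  have hag : a * algebraMap _ K (g : Polynomial E) = algebraMap _ K f := by
    rw [← hfg, IsLocalization.mk'_spec]
  -- `g` is constant
  have hgdeg : (g : Polynomial E).degree = 0 := by
    by_contra hne
    obtain ⟨x₀, hx₀⟩ := IsAlgClosed.exists_root (g : Polynomial E) hne
    have htay : ∀ f : Polynomial E, Polynomial.eval₂RingHom (HahnSeries.C : E →+* HahnSeries ℚ E)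
        (HahnSeries.C x₀ + single 1 1) f = ev 1 (Polynomial.taylor x₀ f) := by
      intro f
      simp only [ev, Polynomial.coe_eval₂RingHom, Polynomial.taylor_apply,
        Polynomial.eval₂_comp, Polynomial.eval₂_add, Polynomial.eval₂_X, Polynomial.eval₂_C]
      rw [add_comm]
    have hmem1 : (HahnSeries.C x₀ + single 1 1 : HahnSeries ℚ E) ∈ Pui E := by
      have := single_mem (E := E) 1
      rw [Int.cast_one] at this
      exact (Pui E).add_mem (C_mem _) this
    obtain ⟨ψ, hψ⟩ := hplace (Polynomial.eval₂RingHom (HahnSeries.C : E →+* HahnSeries ℚ E)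
      (HahnSeries.C x₀ + single 1 1)) (hevmem _ hmem1) (fun u v h => by
        rw [htay, htay] at h
        exact Polynomial.taylor_injective x₀ (ev_inj 1 one_ne_zero h))
    have h1 := hA x₀ ψ hψ
    have h2 : ((ψ (algebraMap _ K (g : Polynomial E)) : Pui E) : HahnSeries ℚ E) *
        ((ψ a : Pui E) : HahnSeries ℚ E) = (ψ (algebraMap _ K f) : Pui E) := by
      rw [mul_comm, ← hag, map_mul]
      rfl
    rw [hψ, hψ, htay, htay] at h2
    have h3 : ∀ q : ℚ, q ≤ 0 → (ev 1 (Polynomial.taylor x₀ (g : Polynomial E))).coeff q = 0 := by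
      intro q hq
      rcases hq.lt_or_eq with hq | rfl
      · apply ev_coeff_zero
        intro n hn
        have : (0 : ℚ) ≤ n := Nat.cast_nonneg n
        rw [hn] at hq
        linarith
      · have := ev_coeff 1 one_ne_zero (Polynomial.taylor x₀ (g : Polynomial E)) 0
        rw [Nat.cast_zero, zero_mul] at this
        rw [this, Polynomial.taylor_coeff_zero]
        exact hx₀
    have h4 := mul_nonpos h3 h1 0 le_rfl
    rw [h2] at h4
    have h5 := ev_coeff 1 one_ne_zero (Polynomial.taylor x₀ f) 0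
    rw [Nat.cast_zero, zero_mul, h4, Polynomial.taylor_coeff_zero] at h5
    have h6 : IsUnit (Polynomial.X - Polynomial.C x₀) :=
      hrel (Polynomial.dvd_iff_isRoot.2 h5.symm) (Polynomial.dvd_iff_isRoot.2 hx₀)
    exact Polynomial.not_isUnit_X_sub_C x₀ h6
  -- the numerator vanishes
  have hf0 : f = 0 := by
    obtain ⟨c, hc⟩ : ∃ c : E, (g : Polynomial E) = Polynomial.C c :=
      ⟨_, Polynomial.eq_C_of_degree_eq_zero hgdeg⟩
    have hmem1 : (single (-1) 1 : HahnSeries ℚ E) ∈ Pui E := by
      have := single_mem (E := E) (-1)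
      rwa [Int.cast_neg, Int.cast_one] at this
    obtain ⟨ψ, hψ⟩ := hplace (ev (-1)) (hevmem _ hmem1) (ev_inj (-1) (by norm_num))
    have h1 := hB ψ hψ
    have h2 : ((ψ a : Pui E) : HahnSeries ℚ E) *
        ((ψ (algebraMap _ K (g : Polynomial E)) : Pui E) : HahnSeries ℚ E) =
          (ψ (algebraMap _ K f) : Pui E) := by
      rw [← hag, map_mul]
      rfl
    rw [hψ, hψ] at h2
    have h3 : ∀ q : ℚ, q < 0 → (ev (-1) (g : Polynomial E)).coeff q = 0 := by
      intro q hq
      rw [hc]
      simp only [ev, Polynomial.coe_eval₂RingHom, Polynomial.eval₂_C]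
      rw [HahnSeries.C_apply]
      exact HahnSeries.coeff_single_of_ne hq.ne
    ext n
    rw [← ev_coeff (-1) (by norm_num) f n, ← h2, Polynomial.coeff_zero]
    apply mul_nonpos h1 h3
    have : (0 : ℚ) ≤ n := Nat.cast_nonneg n
    linarith
  have ha0 : a = 0 := by
    rw [hf0, map_zero] at hag
    rcases mul_eq_zero.1 hag with h | h
    · exact h
    · exact absurd ((map_eq_zero_iff _ (IsFractionRing.injective (Polynomial E) K)).1 h) hg0
  rw [ha] at ha0
  exact (minpoly.coeff_zero_eq_zero hy).1 ha0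

end Pool.Agent.H445.MJ
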