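import Pool.Agent.H445.MJ.Uni

/-!
# Tuples of pairwise inequivalent points, special points allowed
-/

set_option autoImplicit false

open Set Filter Module
open scoped Topology ENNReal

noncomputable section

namespace Pool.Agent.H445.MJ

open H667R3 Pool.Agent.W245.EB
open Pool.Agent.Y685 Pool.Agent.TH813.Ell Pool.Agent.Y776 Pool.Agent.Y776.Fam Pool.Agent.Y776.AxJ
open Pool.Agent.TH813.Rel (MK)

variable {n m : ℕ}

/-- the finite sets of pairwise inequivalent points with `j' ≠ 0` of defect at least `m` -/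
structure BadI (m : ℕ) (S : Set ℂ) : Prop where
  fin : S.Finite
  im : ∀ z ∈ S, 0 < z.im
  ineq : ∀ x ∈ S, ∀ y ∈ S, x ≠ y → ¬ GL2Q x y
  dj : ∀ z ∈ S, deriv jf z ≠ 0
  rk : (MK (⊥ : IntermediateField ℚ ℂ)).eRk (SgS true S) + m ≤
    ((3 * {z | z ∈ S ∧ ¬ CMp z}.ncard + (cmS S).ncard : ℕ) : ℕ∞)

theorem ncard_range_inj {a : ℕ} {w : Fin a → ℂ} (hinj : Function.Injective w) : (range w).ncard = a := by
  rw [← image_univ, ncard_image_of_injective _ hinj, ncard_univ, Nat.card_eq_fintype_card, Fintype.card_fin]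

/-- assembling a failure -/
theorem BadI.of_FailJ {a : ℕ} {S₀ : Set ℂ} (hfin : S₀.Finite) (hS : ∀ z ∈ S₀, 0 < z.im ∧ CMp z)
    (hin : ∀ x ∈ S₀, ∀ y ∈ S₀, x ≠ y → ¬ GL2Q x y) (hdj : ∀ z ∈ S₀, deriv jf z ≠ 0) {w : Fin a → ℂ}
    (h : FailJ true (SgS true S₀) S₀.ncard a m w) : BadI m (range w ∪ S₀) := by
  have h1 : {z | z ∈ range w ∪ S₀ ∧ ¬ CMp z} = range w := by
    ext z
    refine ⟨fun h1 => h1.1.resolve_right fun h2 => h1.2 (hS z h2).2, ?_⟩
    rintro ⟨i, rfl⟩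
    exact ⟨Or.inl ⟨i, rfl⟩, h.ncm i⟩
  have h2 : cmS (range w ∪ S₀) = S₀ := by
    ext z
    refine ⟨fun h1 => h1.1.resolve_left ?_, fun h1 => ⟨Or.inr h1, (hS z h1).2⟩⟩
    rintro ⟨i, rfl⟩
    exact h.ncm i h1.2
  refine ⟨(finite_range w).union hfin, ?_, ?_, ?_, ?_⟩
  · rintro z (⟨i, rfl⟩ | hz)
    · exact h.im i
    · exact (hS z hz).1
  · rintro x (⟨i, rfl⟩ | hx) y (⟨k, rfl⟩ | hy) hxy hG
    · exact h.ineq i k (fun hik => hxy (by rw [hik])) hG
    · exact h.ncm i ((hS y hy).2.equiv (hS y hy).1 hG.symm)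
    · exact h.ncm k ((hS x hx).2.equiv (hS x hx).1 hG)
    · exact hin x hx y hy hxy hG
  · rintro z (⟨i, rfl⟩ | hz)
    · exact dj_ne (h.im i) (h.ncm i)
    · exact hdj z hz
  · rw [h1, h2, ncard_range_inj h.inj, SgS_union, union_comm]
    exact h.rk

/-- the points which are not special -/
theorem BadI.choose {S : Set ℂ} (h : BadI m S) : ∃ (a : ℕ) (w : Fin a → ℂ), (∀ k, w k ∈ S) ∧
    (∀ z ∈ S, ¬ CMp z → ∃ k, w k = z) ∧ a + (cmS S).ncard = S.ncard ∧
    FailJ true (SgS true (cmS S)) (cmS S).ncard a m w := by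
  have hfin : {z | z ∈ S ∧ ¬ CMp z}.Finite := h.fin.subset fun z hz => hz.1
  have := hfin.to_subtype
  let e : {z | z ∈ S ∧ ¬ CMp z} ≃ Fin {z | z ∈ S ∧ ¬ CMp z}.ncard := Finite.equivFinOfCardEq rfl
  have hw : ∀ k, ((e.symm k : {z | z ∈ S ∧ ¬ CMp z}) : ℂ) ∈ S ∧ ¬ CMp ((e.symm k : {z | z ∈ S ∧ ¬ CMp z}) : ℂ) :=
    fun k => (e.symm k).2
  have hrange : range (fun k => ((e.symm k : {z | z ∈ S ∧ ¬ CMp z}) : ℂ)) = {z | z ∈ S ∧ ¬ CMp z} := by
    ext z
    constructor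
    · rintro ⟨k, rfl⟩
      exact hw k
    · intro hz
      exact ⟨e ⟨z, hz⟩, by simp⟩
  refine ⟨{z | z ∈ S ∧ ¬ CMp z}.ncard, fun k => ((e.symm k : {z | z ∈ S ∧ ¬ CMp z}) : ℂ), fun k => (hw k).1, ?_, ?_, ?_⟩
  · intro z hz hcm
    exact ⟨e ⟨z, hz, hcm⟩, by simp⟩
  · have h2 : Disjoint {z | z ∈ S ∧ ¬ CMp z} (cmS S) := by
      rw [Set.disjoint_left]
      intro z h3 h4
      exact h3.2 h4.2
    have h3 : {z | z ∈ S ∧ ¬ CMp z} ∪ cmS S = S := by
      ext z
      by_cases hcm : CMp z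
      · exact ⟨fun h => h.elim (fun h => h.1) fun h => h.1, fun h => Or.inr ⟨h, hcm⟩⟩
      · exact ⟨fun h => h.elim (fun h => h.1) fun h => h.1, fun h => Or.inl ⟨h, hcm⟩⟩
    rw [← ncard_union_eq h2 hfin (h.fin.subset fun z hz => hz.1), h3]
  · refine ⟨fun k => h.im _ (hw k).1, fun k => (hw k).2, ?_, ?_⟩
    · intro i k hik
      exact h.ineq _ (hw i).1 _ (hw k).1 fun h1 => hik (e.symm.injective (Subtype.ext h1))
    · rw [hrange, ← SgS_eq]
      exact h.rk

/-- the failures of length `n` -/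
def FI (n m : ℕ) : Set (Fin n → ℂ) := {z | Function.Injective z ∧ BadI m (range z)}

/-- the admissible levels -/
def LevI (n m : ℕ) : Set ℕ := {d | d ≤ n ∧ (FI (n - d) (m + d)).Nonempty}

theorem LevI_bdd : BddAbove (LevI n m) := ⟨n, fun _ h => h.1⟩

theorem exists_range_inj {S : Set ℂ} (hS : S.Finite) (h : S.ncard = n) :
    ∃ z : Fin n → ℂ, Function.Injective z ∧ range z = S := by
  have := hS.to_subtype
  let e : S ≃ Fin n := Finite.equivFinOfCardEq h
  refine ⟨fun i => e.symm i, fun i k hik => e.symm.injective (Subtype.ext hik), ?_⟩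
  ext x
  constructor
  · rintro ⟨i, rfl⟩
    exact (e.symm i).2
  · intro hx
    exact ⟨e ⟨x, hx⟩, by simp⟩

/-- the levels of the pieces are levels -/
theorem LevJ_subI {z : Fin n → ℂ} (hz : z ∈ FI n m) {a : ℕ}
    (ha : a + (cmS (range z)).ncard = (range z).ncard) :
    LevJ true (SgS true (cmS (range z))) (cmS (range z)).ncard a m ⊆ LevI n m := by
  rintro d ⟨hd, w, hw⟩
  obtain ⟨hinj, hz⟩ := hz
  have hfin : (cmS (range z)).Finite := hz.fin.subset fun x hx => hx.1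
  have h1 : BadI (m + d) (range w ∪ cmS (range z)) :=
    BadI.of_FailJ hfin (fun x hx => ⟨hz.im x hx.1, hx.2⟩) (fun x hx y hy => hz.ineq x hx.1 y hy.1)
      (fun x hx => hz.dj x hx.1) hw
  have hn : (range z).ncard = n := ncard_range_inj hinj
  have hw' : FailJ _ _ _ _ _ w := hw
  have hwc : (range w).ncard = a - d := ncard_range_inj hw'.inj
  have hdisj : Disjoint (range w) (cmS (range z)) := by
    rw [Set.disjoint_left]
    rintro _ ⟨k, rfl⟩ h3
    exact hw'.ncm k h3.2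
  have h2 : (range w ∪ cmS (range z)).ncard = n - d := by
    rw [ncard_union_eq hdisj (finite_range w) hfin]
    omega
  refine ⟨by omega, ?_⟩
  obtain ⟨z', hz', hz''⟩ := exists_range_inj h1.fin h2
  exact ⟨z', hz', by rw [hz'']; exact h1⟩

/-- adding generic points -/
theorem BadI.generic {S : Set ℂ} {d : ℕ} (h : BadI (m + d) S) {K : Subfield ℂ} (hK : FldJ K) (hS : S ⊆ K)
    {x : Fin d → ℂ} (hx : x ∈ GenJ K d) : BadI m (S ∪ range x) := by
  obtain ⟨hxU, hxK, hxG⟩ := hx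
  have hxcm : ∀ i, ¬ CMp (x i) := fun i hcm => hxK i (hK.alg_mem hcm.alg)
  have hinj : Function.Injective x := by
    intro i k hik
    by_contra hne
    exact hxG i k hne (by rw [hik]; exact GL2Q.refl _)
  have h1 : {z | z ∈ S ∪ range x ∧ ¬ CMp z} = {z | z ∈ S ∧ ¬ CMp z} ∪ range x := by
    ext z
    constructor
    · rintro ⟨h1 | h1, h2⟩
      · exact Or.inl ⟨h1, h2⟩
      · exact Or.inr h1
    · rintro (⟨h1, h2⟩ | ⟨i, rfl⟩)
      · exact ⟨Or.inl h1, h2⟩
      · exact ⟨Or.inr ⟨i, rfl⟩, hxcm i⟩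
  have h2 : cmS (S ∪ range x) = cmS S := by
    ext z
    refine ⟨fun h1 => ⟨h1.1.resolve_right ?_, h1.2⟩, fun h1 => ⟨Or.inl h1.1, h1.2⟩⟩
    rintro ⟨i, rfl⟩
    exact hxcm i h1.2
  have h3 : Disjoint {z | z ∈ S ∧ ¬ CMp z} (range x) := by
    rw [Set.disjoint_left]
    rintro z ⟨hz, -⟩ ⟨i, rfl⟩
    exact hxK i (hS hz)
  have h4 : 3 * {z | z ∈ S ∪ range x ∧ ¬ CMp z}.ncard + (cmS (S ∪ range x)).ncard =
      3 * {z | z ∈ S ∧ ¬ CMp z}.ncard + (cmS S).ncard + 3 * d := by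
    rw [h1, h2, ncard_union_eq h3 (h.fin.subset fun z hz => hz.1) (finite_range x), ncard_range_inj hinj]
    ring
  refine ⟨h.fin.union (finite_range x), ?_, ?_, ?_, ?_⟩
  · rintro z (hz | ⟨i, rfl⟩)
    · exact h.im z hz
    · exact hxU i
  · rintro u (hu | ⟨i, rfl⟩) v (hv | ⟨k, rfl⟩) huv hG
    · exact h.ineq u hu v hv huv hG
    · exact hxK k (hG.mem_right (h.im u hu) (hS hu))
    · exact hxK i (hG.mem_left (h.im v hv) (hS hv))
    · exact hxG i k (fun hik => huv (by rw [hik])) hG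
  · rintro z (hz | ⟨i, rfl⟩)
    · exact h.dj z hz
    · exact dj_ne (hxU i) (hxcm i)
  · rw [h4, SgS_union]
    have h5 := (MK (⊥ : IntermediateField ℚ ℂ)).eRk_union_le_eRk_add_encard (SgS true S) (SgS true (range x))
    have h6 := encard_SgS (r := true) x
    set N := 3 * {z | z ∈ S ∧ ¬ CMp z}.ncard + (cmS S).ncard with hN
    calc (MK (⊥ : IntermediateField ℚ ℂ)).eRk (SgS true S ∪ SgS true (range x)) + m
        ≤ ((MK (⊥ : IntermediateField ℚ ℂ)).eRk (SgS true S) + (((rr true + 1) * d : ℕ) : ℕ∞)) + m := by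
          gcongr
          exact h5.trans (add_le_add le_rfl h6)
      _ = ((MK (⊥ : IntermediateField ℚ ℂ)).eRk (SgS true S) + (m + d : ℕ)) + (3 * d : ℕ) := by
          have e1 : (((rr true + 1) * d : ℕ) : ℕ∞) + m = ((m + d : ℕ) : ℕ∞) + ((3 * d : ℕ) : ℕ∞) := by
            rw [← Nat.cast_add, ← Nat.cast_add]
            congr 1
            simp only [rr]
            ring
          rw [add_assoc, e1, ← add_assoc]
      _ ≤ ((N : ℕ) : ℕ∞) + (3 * d : ℕ) := add_le_add h.rk le_rfl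
      _ = ((N + 3 * d : ℕ) : ℕ∞) := (Nat.cast_add N (3 * d)).symm

theorem lowerI {d : ℕ} (hd : d ∈ LevI n m) : ((2 * d : ℕ) : ℝ≥0∞) ≤ dimH (FI n m) := by
  obtain ⟨h1, z, hz⟩ := hd
  obtain ⟨n', rfl⟩ : ∃ n', n = n' + d := ⟨n - d, by omega⟩
  obtain ⟨K, hK, hS⟩ := exists_FldJ (S := range z) (countable_range z)
  have e : n' + d - d = n' := by omega
  have hS' : ∀ i, z i ∈ K := fun i => hS ⟨i, rfl⟩
  clear hS
  revert z
  rw [e]
  rintro z ⟨hinj, hz⟩ hS'
  let π : (Fin (n' + d) → ℂ) →L[ℂ] (Fin d → ℂ) :=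
    ContinuousLinearMap.pi fun j => ContinuousLinearMap.proj (Fin.natAdd n' j)
  refine (dimH_GenJ hK.cnt d).trans (le_trans (dimH_mono ?_) (π.lipschitz.dimH_image_le (FI (n' + d) m)))
  intro x hx
  refine ⟨Fin.append z x, ⟨?_, ?_⟩, ?_⟩
  · have hx2 := hx.2.2
    intro i k
    refine Fin.addCases (fun i => ?_) (fun j => ?_) i
    · refine Fin.addCases (fun k => ?_) (fun k => ?_) k
      · intro h
        rw [Fin.append_left, Fin.append_left] at h
        rw [hinj h]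
      · intro h
        rw [Fin.append_left, Fin.append_right] at h
        exact absurd (h ▸ hS' i) (hx.2.1 k)
    · refine Fin.addCases (fun k => ?_) (fun k => ?_) k
      · intro h
        rw [Fin.append_left, Fin.append_right] at h
        exact absurd (h ▸ hS' k) (hx.2.1 j)
      · intro h
        rw [Fin.append_right, Fin.append_right] at h
        by_contra hne
        exact hx2 j k (fun hjk => hne (by rw [hjk])) (by rw [h]; exact GL2Q.refl _)
  · rw [range_append]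
    exact BadI.generic hz hK (by rintro _ ⟨i, rfl⟩; exact hS' i) hx
  funext j
  change Fin.append z x (Fin.natAdd n' j) = x j
  rw [Fin.append_right]

/-- the piece of a code -/
def pcI (m : ℕ) (C : Code n) : Set (Fin C.1 → ℂ) := FJ true (SgS true (spC C)) (spC C).ncard C.1 m

theorem coverI {z : Fin n → ℂ} (hz : z ∈ FI n m) : ∃ C : Code n,
    LevJ true (SgS true (spC C)) (spC C).ncard C.1 m ⊆ LevI n m ∧ z ∈ rec1 C '' pcI m C := by
  classical
  obtain ⟨a, w, h1, h2, h3, h4⟩ := BadI.choose hz.2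
  have h5 : ∀ i, ∃ c : (Fin a × Mat) ⊕ {s : ℂ // CMp s}, (match c with
      | Sum.inl (k, q) => ((q.1 0 : ℂ) * w k + q.1 1) / ((q.1 2 : ℂ) * w k + q.1 3)
      | Sum.inr s => (s : ℂ)) = z i ∧ (∀ s, c = Sum.inr s → (s : ℂ) = z i) ∧
      ((∃ s, c = Sum.inr s) ↔ CMp (z i)) := by
    intro i
    by_cases hcm : CMp (z i)
    · refine ⟨Sum.inr ⟨z i, hcm⟩, rfl, ?_, ⟨fun _ => hcm, fun _ => ⟨_, rfl⟩⟩⟩
      intro s hs
      rw [← Sum.inr_injective hs]
    · obtain ⟨k, hk⟩ := h2 (z i) ⟨i, rfl⟩ hcm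
      refine ⟨Sum.inl (k, ⟨![1, 0, 0, 1], show (0 : ℚ) < 1 * 1 - 0 * 0 by norm_num⟩), ?_, ?_, ?_⟩
      · change (((1 : ℚ) : ℂ) * w k + ((0 : ℚ) : ℂ)) / (((0 : ℚ) : ℂ) * w k + ((1 : ℚ) : ℂ)) = z i
        rw [hk]
        push_cast
        ring
      · intro s hs
        cases hs
      · refine ⟨?_, fun h => absurd h hcm⟩
        rintro ⟨s, hs⟩
        cases hs
  choose c hc1 hc2 hc3 using h5
  have hsp : spC (⟨a, c⟩ : Code n) = cmS (range z) := by
    ext s
    constructor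
    · rintro ⟨i, s', h6, rfl⟩
      have h7 := hc2 i s' h6
      exact ⟨⟨i, h7.symm⟩, s'.2⟩
    · rintro ⟨⟨i, rfl⟩, h6⟩
      obtain ⟨s', hs'⟩ := (hc3 i).2 h6
      exact ⟨i, s', hs', (hc2 i s' hs').symm⟩
  refine ⟨⟨a, c⟩, ?_, w, ?_, ?_⟩
  · rw [hsp]
    exact LevJ_subI hz h3
  · show FailJ _ _ _ _ _ _
    rw [hsp]
    exact h4
  · funext i
    have h6 := hc1 i
    unfold rec1
    rcases hci : c i with ⟨k, q⟩ | s
    · rw [hci] at h6
      simp only [hci]
      exact h6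
    · rw [hci] at h6
      simp only [hci]
      exact h6

/-- **The dimension formula** -/
theorem dimI (n m : ℕ) : dimH (FI n m) = (2 * sSup (LevI n m) : ℕ) := by
  apply le_antisymm
  · let ι := {C : Code n // LevJ true (SgS true (spC C)) (spC C).ncard C.1 m ⊆ LevI n m}
    have hc : Countable (Code n) := countable_Code
    have h1 : FI n m ⊆ ⋃ C : ι, rec1 C.1 '' pcI m C.1 := by
      intro z hz
      obtain ⟨C, hC, h⟩ := coverI hz
      exact mem_iUnion.2 ⟨⟨C, hC⟩, h⟩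
    refine (dimH_mono h1).trans ?_
    rw [dimH_iUnion]
    refine iSup_le fun C => ?_
    have h2 : pcI m C.1 ⊆ UJ C.1.1 := fun w hw => FailJ.im hw
    refine ((rec1_contDiff C.1).dimH_image_le (convex_UJ _) h2).trans ?_
    rw [pcI, dimJ (SgS_finite true (spC_finite C.1))]
    have h3 : sSup (LevJ true (SgS true (spC C.1)) (spC C.1).ncard C.1.1 m) ≤ sSup (LevI n m) := by
      rcases Set.eq_empty_or_nonempty (LevJ true (SgS true (spC C.1)) (spC C.1).ncard C.1.1 m) with h | h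
      · rw [h, csSup_empty]
        exact Nat.zero_le _
      · exact le_csSup LevI_bdd (C.2 (Nat.sSup_mem h LevJ_bdd))
    exact_mod_cast Nat.mul_le_mul_left 2 h3
  · rcases Set.eq_empty_or_nonempty (LevI n m) with h | h
    · rw [h, csSup_empty]
      simp
    · exact lowerI (Nat.sSup_mem h LevI_bdd)

/-- **Countability** -/
theorem countableI (n m : ℕ) : (FI n m).Countable ↔ 1 ∉ LevI n m := by
  constructor
  · intro h h1
    have h2 := lowerI h1
    rw [h.dimH_zero] at h2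
    norm_num at h2
  · intro h
    let ι := {C : Code n // LevJ true (SgS true (spC C)) (spC C).ncard C.1 m ⊆ LevI n m}
    have hc : Countable (Code n) := countable_Code
    have h1 : FI n m ⊆ ⋃ C : ι, rec1 C.1 '' pcI m C.1 := by
      intro z hz
      obtain ⟨C, hC, h⟩ := coverI hz
      exact mem_iUnion.2 ⟨⟨C, hC⟩, h⟩
    refine (countable_iUnion fun C => ?_).mono h1
    refine Set.Countable.image ?_ _
    rw [pcI, countableJ (SgS_finite true (spC_finite C.1))]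
    exact fun h2 => h (C.2 h2)

/-- the bound for the levels -/
theorem LevI_le {d : ℕ} (hd : d ∈ LevI n m) : d ≤ (3 * n - m - 1) / 4 := by
  obtain ⟨h1, z, hinj, hz⟩ := hd
  obtain ⟨a, w, h2, h3, h4, h5⟩ := BadI.choose hz
  have hn : (range z).ncard = n - d := ncard_range_inj hinj
  rcases Nat.eq_zero_or_pos a with h0 | h0
  · have h6 : ((m + d : ℕ) : ℕ∞) ≤ ((rr true * a + (cmS (range z)).ncard : ℕ) : ℕ∞) := le_add_self.trans h5.rk
    have h7 : m + d ≤ rr true * a + (cmS (range z)).ncard := by exact_mod_cast h6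
    rw [h0] at h7
    omega
  · have h6 := h5.bound h0
    simp only [rr] at h6
    omega

end Pool.Agent.H445.MJ
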