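import Pool.Agent.H445.MJ.PairIA
import Pool.Agent.H445.MJ.Flow
import Pool.Graph.R_seed8.Y776.AxJ.JFun
import Pool.Graph.R_pool_sql_team_seeded_3dad9d7b.NH23.Pair

/-!
# Möbius related horizontal points with interalgebraic invariants are isogenous
-/

set_option autoImplicit false

open Filter Topology MvPolynomial

noncomputable section

namespace Pool.Agent.H445.MJ

open H667R3 Pool.Agent.W245.EB
open Pool.Agent.Y685 Pool.Agent.TH813.Ell Pool.Agent.Y776 Pool.Agent.Y776.Fam Pool.Agent.Y776.AxJ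
open Pool.Agent.TH813.Rel (DF MK exists_derF bracket_mem)
open Pool.Agent.NH23.Cross (ev2 mb ratl)

/-- `σ` is the image of `τ` under a rational matrix of positive determinant -/
def GL2Q (τ σ : ℂ) : Prop :=
  ∃ a b c d : ℚ, 0 < a * d - b * c ∧ σ * (c * τ + d) = a * τ + b

/-- the flow with a speed -/
theorem th_flow' {x : Qd} {b c : ℂ} {D : Derivation ℚ ℂ ℂ} (hx : x.Ok) (hb : b ≠ 0) (hD : Th b x D = 0)
    (ht : D x.t = c) : D x.h = (b * x.h ^ 2 - b * x.p / 12) * c ∧ D x.p = (4 * b * x.h * x.p - 6 * b * x.q) * c ∧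
      D x.q = (6 * b * x.h * x.q - b * x.p ^ 2 / 3) * c := by
  have hu : fu b x D = 0 := congrFun hD 0
  have h1 := congrFun hD 1
  rw [Th1, hu, Pi.zero_apply] at h1
  have hv : fv x D = 0 := by linear_combination -h1
  have h2 := congrFun hD 2
  rw [Th2, hu, hv, fs, ht, Pi.zero_apply] at h2
  have h3 : fb x D / b = c := by linear_combination -h2
  have h4 : fb x D = b * c := by
    rw [div_eq_iff hb] at h3
    rw [h3, mul_comm]
  have h5 : fa x D = -(b * x.h * c) := by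
    rw [fv, h4] at hv
    linear_combination hv
  rw [fu, h5, h4] at hu
  have h6 := (mul_eq_zero.1 hu).resolve_left (neg_ne_zero.2 hb)
  refine ⟨by linear_combination h6, ?_, ?_⟩
  · rw [d_p hx.dl, h4, h5]; ring
  · rw [d_q hx.dl, h4, h5]; ring

/-- the functions on the upper half-plane -/
def hp4 : Fin 4 → ℂ → ℂ := ![h1, fun t => (LC t).g₂, fun t => (LC t).g₃, fun t => 1 / dlf t]

/-- the vector field -/
def v4 (u : Fin 4 → ℂ) : Fin 4 → ℂ :=
  ![be0 * u 0 ^ 2 - be0 * u 1 / 12, 4 * be0 * u 0 * u 1 - 6 * be0 * u 2, 6 * be0 * u 0 * u 2 - be0 * u 1 ^ 2 / 3,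
    -12 * be0 * u 0 * u 3]

theorem hp4_der (k : Fin 4) {t : ℂ} (ht : 0 < t.im) : HasDerivAt (hp4 k) (v4 (fun i => hp4 i t) k) t := by
  fin_cases k
  · exact der_h ht
  · exact der_p ht
  · exact der_q ht
  · have hd := dlf_ne ht
    have h := (der_dl ht).inv hd
    have h' : HasDerivAt (fun t => 1 / dlf t) (-(12 * be0 * h1 t * dlf t) / dlf t ^ 2) t := by
      refine h.congr_of_eventuallyEq (Eventually.of_forall fun s => ?_)
      simp
    refine h'.congr_deriv ?_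
    change -(12 * be0 * h1 t * dlf t) / dlf t ^ 2 = -12 * be0 * h1 t * (1 / dlf t)
    field_simp

/-- polynomial form of the vector field -/
def w4 {R : Type*} [CommRing R] (be t12 t3 : R) (u : Fin 4 → R) : Fin 4 → R :=
  ![be * u 0 ^ 2 - be * u 1 * t12, 4 * be * u 0 * u 1 - 6 * be * u 2, 6 * be * u 0 * u 2 - be * u 1 ^ 2 * t3,
    -12 * be * u 0 * u 3]

theorem w4_v4 (u : Fin 4 → ℂ) (k : Fin 4) : w4 be0 (1 / 12) (1 / 3) u k = v4 u k := by
  fin_cases k
  · change be0 * u 0 ^ 2 - be0 * u 1 * (1 / 12) = be0 * u 0 ^ 2 - be0 * u 1 / 12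
    ring
  · rfl
  · change 6 * be0 * u 0 * u 2 - be0 * u 1 ^ 2 * (1 / 3) = 6 * be0 * u 0 * u 2 - be0 * u 1 ^ 2 / 3
    ring
  · rfl

theorem w4_map {R S : Type*} [CommRing R] [CommRing S] (f : R →+* S) (be t12 t3 : R) (u : Fin 4 → R) (k : Fin 4) :
    f (w4 be t12 t3 u k) = w4 (f be) (f t12) (f t3) (fun i => f (u i)) k := by
  fin_cases k
  · change f (be * u 0 ^ 2 - be * u 1 * t12) = f be * f (u 0) ^ 2 - f be * f (u 1) * f t12
    simp only [map_sub, map_mul, map_pow]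
  · change f (4 * be * u 0 * u 1 - 6 * be * u 2) = 4 * f be * f (u 0) * f (u 1) - 6 * f be * f (u 2)
    simp only [map_sub, map_mul, map_ofNat]
  · change f (6 * be * u 0 * u 2 - be * u 1 ^ 2 * t3) = 6 * f be * f (u 0) * f (u 2) - f be * f (u 1) ^ 2 * f t3
    simp only [map_sub, map_mul, map_pow, map_ofNat]
  · change f (-12 * be * u 0 * u 3) = -12 * f be * f (u 0) * f (u 3)
    simp only [map_neg, map_mul, map_ofNat]

/-- two-variable polynomials -/
def toP2 {K : IntermediateField ℚ ℂ} : MvPolynomial (Fin 2) K →+* Polynomial (Polynomial ℂ) :=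
  eval₂Hom ((Polynomial.C.comp Polynomial.C).comp (algebraMap K ℂ)) ![Polynomial.C Polynomial.X, Polynomial.X]

theorem ev2_toP2 {K : IntermediateField ℚ ℂ} (R : MvPolynomial (Fin 2) K) (x y : ℂ) :
    ev2 (toP2 R) x y = aeval ![x, y] R := by
  rw [Pool.Agent.NH23.Pair.ev2_eq]
  have h1 : ((Polynomial.evalRingHom y).comp ((Polynomial.mapRingHom (Polynomial.evalRingHom x)).comp toP2)) =
      ((aeval (R := K) ![x, y] : MvPolynomial (Fin 2) K →ₐ[K] ℂ) : MvPolynomial (Fin 2) K →+* ℂ) := by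
    apply MvPolynomial.ringHom_ext
    · intro r
      simp [toP2]
    · intro i
      fin_cases i <;> simp [toP2]
  exact congrFun (congrArg DFunLike.coe h1) R

theorem toP2_ne {K : IntermediateField ℚ ℂ} {R : MvPolynomial (Fin 2) K} (hR : R ≠ 0) : toP2 R ≠ 0 := by
  intro h0
  apply hR
  have h1 : MvPolynomial.map (algebraMap K ℂ) R = 0 := by
    apply MvPolynomial.funext
    intro v
    rw [map_zero, eval_map, ← aeval_def]
    have h2 := ev2_toP2 R (v 0) (v 1)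
    rw [h0] at h2
    have h3 : ![v 0, v 1] = v := by
      funext i
      fin_cases i <;> rfl
    rw [h3] at h2
    rw [← h2]
    simp [ev2]
  exact (map_eq_zero_iff _ (map_injective _ (algebraMap K ℂ).injective)).1 h1

/-- **interalgebraic and Möbius related implies isogenous** -/
theorem isog {τ₁ τ₂ : ℂ} (h₁ : 0 < τ₁.im) (h₂ : 0 < τ₂.im) (ok₁ : (QL τ₁).Ok) (ok₂ : (QL τ₂).Ok)
    {D : Derivation ℚ ℂ ℂ} (hDb : D be0 = 0) (th₁ : Th be0 (QL τ₁) D = 0) (th₂ : Th be0 (QL τ₂) D = 0)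
    (hD1 : D τ₁ ≠ 0) (hw : gg (QL τ₂) ∈ clo (Cst D) {gg (QL τ₁)}) (hm : MobRel (Cst D) τ₁ τ₂) : GL2Q τ₁ τ₂ := by
  classical
  obtain ⟨m, hmC, hdet, -, hrel⟩ := hm
  set K := Cst D with hKdef
  -- normalise
  set D₁ : Derivation ℚ ℂ ℂ := (D τ₁)⁻¹ • D with hD₁
  have happ : ∀ z, D₁ z = (D τ₁)⁻¹ * D z := fun z => rfl
  have hK : ∀ c ∈ K, D₁ c = 0 := fun c hc => by rw [happ, show D c = 0 from hc, mul_zero]
  have t1 : Th be0 (QL τ₁) D₁ = 0 := by rw [hD₁, Th_smul, th₁, smul_zero]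
  have t2 : Th be0 (QL τ₂) D₁ = 0 := by rw [hD₁, Th_smul, th₂, smul_zero]
  have hτ1 : D₁ τ₁ = 1 := by rw [happ, inv_mul_cancel₀ hD1]
  -- the Möbius transformation
  set A : ℂ := -m 3 with hA
  set B : ℂ := m 1 with hB
  set C' : ℂ := m 2 with hC'
  set E : ℂ := -m 0 with hE
  have hAK : A ∈ K := neg_mem (hmC 3)
  have hBK : B ∈ K := hmC 1
  have hCK : C' ∈ K := hmC 2
  have hEK : E ∈ K := neg_mem (hmC 0)
  have hd : A * E - B * C' ≠ 0 := by
    rw [hA, hB, hC', hE]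
    intro h0
    apply hdet
    linear_combination h0
  have hrel' : τ₂ * (C' * τ₁ + E) = A * τ₁ + B := by
    rw [hA, hB, hC', hE]
    linear_combination hrel
  have hne : C' * τ₁ + E ≠ 0 := by
    intro h0
    rw [h0, mul_zero] at hrel'
    apply hd
    linear_combination A * h0 + C' * hrel'
  have hτ2 : mb A B C' E τ₁ = τ₂ := by
    rw [mb, div_eq_iff hne]
    exact hrel'.symm
  set e : ℂ → ℂ := fun t => 1 / (C' * t + E) with he
  have hmbd : ∀ t, C' * t + E ≠ 0 → HasDerivAt (mb A B C' E) ((A * E - B * C') * e t ^ 2) t := by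
    intro t ht
    have h1 : HasDerivAt (fun t => A * t + B) A t := by
      simpa using ((hasDerivAt_id t).const_mul A).add_const B
    have h2 : HasDerivAt (fun t => C' * t + E) C' t := by
      simpa using ((hasDerivAt_id t).const_mul C').add_const E
    refine (h1.div h2 ht).congr_deriv ?_
    rw [he]
    field_simp
    ring
  have hed : ∀ t, C' * t + E ≠ 0 → HasDerivAt e (-C' * e t ^ 2) t := by
    intro t ht
    have h2 : HasDerivAt (fun t => C' * t + E) C' t := by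
      simpa using ((hasDerivAt_id t).const_mul C').add_const E
    have h3 : HasDerivAt e (-C' / (C' * t + E) ^ 2) t := by
      refine (h2.inv ht).congr_of_eventuallyEq (Eventually.of_forall fun s => ?_)
      simp [he]
    refine h3.congr_deriv ?_
    rw [he]
    field_simp
  have hDτ2 : D₁ τ₂ = (A * E - B * C') * e τ₁ ^ 2 := by
    have h1 := congrArg D₁ hrel'
    rw [dmul, map_add, map_add, dmul, dmul, hK _ hCK, hK _ hEK, hK _ hAK, hK _ hBK, hτ1] at h1
    have h2 : D₁ τ₂ * (C' * τ₁ + E) = A - C' * τ₂ := by linear_combination h1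
    have h3 : D₁ τ₂ = (A - C' * τ₂) * e τ₁ := by
      rw [he]
      field_simp
      exact h2
    rw [h3, ← hτ2, mb, he]
    field_simp
    ring
  have hDe : D₁ (e τ₁) = -C' * e τ₁ ^ 2 := by
    have h1 : D₁ (1 / (C' * τ₁ + E)) = -C' * (1 / (C' * τ₁ + E)) ^ 2 := by
      rw [ddiv _ _ hne, done', map_add, dmul, hK _ hCK, hK _ hEK, hτ1]
      field_simp
      ring
    exact h1
  -- the flow
  let ι := (Fin 2 × Fin 4) ⊕ Unit
  let M2 : Fin 2 → ℂ → ℂ := ![id, mb A B C' E]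
  let W : ι → ℂ → ℂ := Sum.elim (fun q t => hp4 q.2 (M2 q.1 t)) (fun _ => e)
  let kk : ∀ z : ℂ, z ∈ K → MvPolynomial ι K := fun z hz => C ⟨z, hz⟩
  have hkk : ∀ (z : ℂ) (hz : z ∈ K) (v : ι → ℂ), aeval v (kk z hz) = z := fun z hz v => by
    change aeval v (C _) = z
    rw [aeval_C]
    rfl
  have hbK : be0 ∈ K := hDb
  have b12 : (1 / 12 : ℂ) ∈ K := div_mem (one_mem K) (ofNat_mem K 12)
  have b3 : (1 / 3 : ℂ) ∈ K := div_mem (one_mem K) (ofNat_mem K 3)
  have hdK : A * E - B * C' ∈ K := sub_mem (mul_mem hAK hEK) (mul_mem hBK hCK)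
  let sp : Fin 2 → MvPolynomial ι K := ![1, kk _ hdK * X (Sum.inr ()) ^ 2]
  let P : ι → MvPolynomial ι K := Sum.elim
    (fun q => w4 (kk be0 hbK) (kk _ b12) (kk _ b3) (fun k => X (Sum.inl (q.1, k))) q.2 * sp q.1)
    (fun _ => -kk _ hCK * X (Sum.inr ()) ^ 2)
  have hP1 : ∀ (v : ι → ℂ) (q : Fin 2 × Fin 4), aeval v (P (Sum.inl q)) =
      v4 (fun k => v (Sum.inl (q.1, k))) q.2 * aeval v (sp q.1) := by
    intro v q
    change aeval v (_ * _) = _
    rw [map_mul]
    congr 1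
    have h1 := w4_map ((aeval v : MvPolynomial ι K →ₐ[K] ℂ) : MvPolynomial ι K →+* ℂ) (kk be0 hbK) (kk _ b12)
      (kk _ b3) (fun k => X (Sum.inl (q.1, k))) q.2
    rw [← w4_v4]
    refine h1.trans ?_
    simp only [RingHom.coe_coe, hkk, aeval_X]
  have hP2 : ∀ v : ι → ℂ, aeval v (P (Sum.inr ())) = -C' * v (Sum.inr ()) ^ 2 := by
    intro v
    change aeval v (-kk _ hCK * X (Sum.inr ()) ^ 2) = _
    rw [map_mul, map_neg, hkk, map_pow, aeval_X]
  have hsp0 : ∀ v : ι → ℂ, aeval v (sp 0) = 1 := fun v => map_one _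
  have hsp1 : ∀ v : ι → ℂ, aeval v (sp 1) = (A * E - B * C') * v (Sum.inr ()) ^ 2 := by
    intro v
    change aeval v (kk _ hdK * X (Sum.inr ()) ^ 2) = _
    rw [map_mul, hkk, map_pow, aeval_X]
  have n1 : ∀ᶠ t in 𝓝 τ₁, 0 < t.im := isOpen_H.mem_nhds h₁
  have n2 : ∀ᶠ t in 𝓝 τ₁, C' * t + E ≠ 0 := by
    have : ContinuousAt (fun t : ℂ => C' * t + E) τ₁ := by fun_prop
    exact this.eventually_ne hne
  have n3 : ∀ᶠ t in 𝓝 τ₁, 0 < (mb A B C' E t).im := by
    have : ContinuousAt (mb A B C' E) τ₁ := (hmbd τ₁ hne).continuousAt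
    have h3 : {z : ℂ | 0 < z.im} ∈ 𝓝 (mb A B C' E τ₁) := by
      rw [hτ2]
      exact isOpen_H.mem_nhds h₂
    exact this h3
  have hdW : ∀ i, ∀ᶠ s in 𝓝 τ₁, HasDerivAt (W i) (aeval (fun j => W j s) (P i)) s := by
    rintro (⟨i, k⟩ | ⟨⟩)
    · fin_cases i
      · filter_upwards [n1] with s hs
        rw [hP1]
        change HasDerivAt (hp4 k) (v4 (fun k => hp4 k s) k * aeval _ (sp 0)) s
        rw [hsp0, mul_one]
        exact hp4_der k hs
      · filter_upwards [n2, n3] with s hs hs'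
        rw [hP1]
        change HasDerivAt (fun t => hp4 k (mb A B C' E t)) (v4 (fun k => hp4 k (mb A B C' E s)) k * aeval _ (sp 1)) s
        rw [hsp1]
        exact (hp4_der k hs').comp s (hmbd s hs)
    · filter_upwards [n2] with s hs
      rw [hP2]
      exact hed s hs
  have hDW : ∀ i, D₁ (W i τ₁) = aeval (fun j => W j τ₁) (P i) := by
    have hx : ∀ {τ c : ℂ}, 0 < τ.im → (QL τ).Ok → Th be0 (QL τ) D₁ = 0 → D₁ τ = c →
        ∀ k, D₁ (hp4 k τ) = v4 (fun k => hp4 k τ) k * c := by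
      intro τ c hτ ok t hc k
      obtain ⟨e1, e2, e3⟩ := th_flow' ok be0_ne t hc
      fin_cases k
      · exact e1
      · exact e2
      · exact e3
      · have hdl := dlf_ne hτ
        have e4 : D₁ (dlf τ) = 12 * be0 * h1 τ * dlf τ * c := by
          have e2' : D₁ (LC τ).g₂ = (4 * be0 * h1 τ * (LC τ).g₂ - 6 * be0 * (LC τ).g₃) * c := e2
          have e3' : D₁ (LC τ).g₃ = (6 * be0 * h1 τ * (LC τ).g₃ - be0 * (LC τ).g₂ ^ 2 / 3) * c := e3
          rw [dlf, map_sub, show (LC τ).g₂ ^ 3 = (LC τ).g₂ * (LC τ).g₂ ^ 2 by ring, dmul, dmul, dsq, dsq, dnat, e2', e3']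
          ring
        change D₁ (1 / dlf τ) = -12 * be0 * h1 τ * (1 / dlf τ) * c
        rw [ddiv _ _ hdl, done', e4]
        field_simp
        ring
    rintro (⟨i, k⟩ | ⟨⟩)
    · fin_cases i
      · rw [hP1]
        change D₁ (hp4 k τ₁) = v4 (fun k => hp4 k τ₁) k * aeval _ (sp 0)
        rw [hsp0]
        exact hx h₁ ok₁ t1 hτ1 k
      · rw [hP1]
        change D₁ (hp4 k (mb A B C' E τ₁)) = v4 (fun k => hp4 k (mb A B C' E τ₁)) k * aeval _ (sp 1)
        rw [hsp1, hτ2]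
        exact hx h₂ ok₂ t2 hDτ2 k
    · rw [hP2]
      exact hDe
  -- the relation
  have hdep : ¬ AlgebraicIndependent K ![jf τ₁, jf τ₂] := by
    intro hind
    obtain ⟨δ, hδ, hv⟩ := exists_derF K hind ![0, 1]
    have v0 : δ (jf τ₁) = 0 := hv 0
    have v1 : δ (jf τ₂) = 1 := hv 1
    have g1 := gg_of_j h₁ ok₁
    have g2 := gg_of_j h₂ ok₂
    have k1 : δ (gg (QL τ₁)) = 0 := by
      rw [g1.2.1, ddiv _ _ (sub_ne_zero.2 g1.1), dmul, map_sub, v0, dnat, dnat]
      simp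
    have k2 : δ (gg (QL τ₂)) = 0 := hw δ hδ fun s hs => by rw [Set.mem_singleton_iff.1 hs, k1]
    rw [g2.2.2, ddiv _ _ (gg_27 ok₂), dmul, map_sub, k2, dnat, dnat] at v1
    simp at v1
  obtain ⟨R, hR0, hR⟩ : ∃ R : MvPolynomial (Fin 2) K, R ≠ 0 ∧ aeval ![jf τ₁, jf τ₂] R = 0 := by
    by_contra hcon
    push Not at hcon
    apply hdep
    rw [AlgebraicIndependent, injective_iff_map_eq_zero]
    intro R hR
    by_contra hne
    exact hcon R hne hR
  have b1728 : (1728 : ℂ) ∈ K := ofNat_mem K 1728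
  let jp : Fin 2 → MvPolynomial ι K := fun i =>
    kk _ b1728 * X (Sum.inl (i, 1)) ^ 3 * X (Sum.inl (i, 3))
  have hjp : ∀ (t : ℂ) (i : Fin 2), aeval (fun j => W j t) (jp i) = jf (M2 i t) := by
    intro t i
    change aeval (fun j => W j t) (kk _ b1728 * X (Sum.inl (i, 1)) ^ 3 * X (Sum.inl (i, 3))) = _
    rw [map_mul, map_mul, map_pow, hkk, aeval_X, aeval_X]
    change 1728 * (LC (M2 i t)).g₂ ^ 3 * (1 / dlf (M2 i t)) = jf (M2 i t)
    rw [jf, dlf]
    ring
  have hF : ∀ t : ℂ, aeval (fun j => W j t) (aeval jp R) = aeval ![jf t, jf (mb A B C' E t)] R := by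
    intro t
    rw [← AlgHom.comp_apply, comp_aeval]
    congr 2
    funext i
    rw [hjp]
    fin_cases i <;> rfl
  have hz := flow_zero hK hdW hDW (F := aeval jp R) (by
    rw [hF, hτ2]
    exact hR)
  have hrat := ratl (Q := toP2 R) (toP2_ne hR0) (a := A) (b := B) (c := C') (d := E) hd h₁ hne (by
    rw [hτ2]
    exact h₂) (by
    filter_upwards [hz] with s hs
    rw [ev2_toP2, ← hF]
    exact hs)
  obtain ⟨a', b', c', d', hpos, hall⟩ := hrat
  refine ⟨a', b', c', d', hpos, ?_⟩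
  have := hall τ₁ h₁
  rwa [hτ2] at this

end Pool.Agent.H445.MJ
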