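import Pool.Agent.H445.MJ.Th

/-!
# The local analysis at a place
-/

set_option autoImplicit false

open HahnSeries

noncomputable section

namespace Pool.Agent.H445.MJ

variable {E : Type*} [Field E]

/-- no coefficients below `m` -/
def Ge (m : ℚ) (f : HahnSeries ℚ E) : Prop := ∀ q : ℚ, q < m → f.coeff q = 0

theorem Ge.mono {m m' : ℚ} {f : HahnSeries ℚ E} (h : Ge m f) (hm : m' ≤ m) : Ge m' f :=
  fun q hq => h q (lt_of_lt_of_le hq hm)

theorem Ge.add {m : ℚ} {f g : HahnSeries ℚ E} (hf : Ge m f) (hg : Ge m g) : Ge m (f + g) := by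
  intro q hq
  rw [coeff_add, hf q hq, hg q hq, add_zero]

theorem Ge.neg {m : ℚ} {f : HahnSeries ℚ E} (hf : Ge m f) : Ge m (-f) := by
  intro q hq
  rw [coeff_neg, hf q hq, neg_zero]

theorem Ge.sub {m : ℚ} {f g : HahnSeries ℚ E} (hf : Ge m f) (hg : Ge m g) : Ge m (f - g) := by
  rw [sub_eq_add_neg]
  exact hf.add hg.neg

theorem Ge_zero (m : ℚ) : Ge m (0 : HahnSeries ℚ E) := fun _ _ => coeff_zero

theorem Ge.th {m : ℚ} {f : HahnSeries ℚ E} (hf : Ge m f) : Ge m (th f) := by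
  intro q hq
  rw [th_coeff, hf q hq, mul_zero]

/-- the first coefficient of a product -/
theorem Ge.mul {a b : ℚ} {f g : HahnSeries ℚ E} (hf : Ge a f) (hg : Ge b g) :
    Ge (a + b) (f * g) ∧ (f * g).coeff (a + b) = f.coeff a * g.coeff b := by
  have hs : ∀ q, f.coeff q ≠ 0 → a ≤ q := fun q h => by
    by_contra hcon
    exact h (hf q (not_le.1 hcon))
  have ht : ∀ q, g.coeff q ≠ 0 → b ≤ q := fun q h => by
    by_contra hcon
    exact h (hg q (not_le.1 hcon))
  constructor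
  · intro q hq
    rw [coeff_mul]
    refine Finset.sum_eq_zero fun ij hij => ?_
    rw [Finset.mem_antidiagonal] at hij
    have h1 := hs _ hij.1
    have h2 := ht _ hij.2.1
    have h3 := hij.2.2
    linarith
  · rw [coeff_mul]
    have key : ∀ ij ∈ Finset.antidiagonal f.isPWO_support g.isPWO_support (a + b), ij = (a, b) := by
      intro ij hij
      rw [Finset.mem_antidiagonal] at hij
      have h1 := hs _ hij.1
      have h2 := ht _ hij.2.1
      have h3 := hij.2.2
      exact Prod.ext (by linarith) (by linarith)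
    by_cases h0 : f.coeff a = 0 ∨ g.coeff b = 0
    · rw [Finset.sum_eq_zero]
      · rcases h0 with h0 | h0 <;> simp [h0]
      · intro ij hij
        rw [key ij hij]
        rcases h0 with h0 | h0 <;> simp [h0]
    · push Not at h0
      rw [Finset.sum_eq_single (a, b)]
      · intro ij hij hne
        exact absurd (key ij hij) hne
      · intro h
        exfalso
        apply h
        rw [Finset.mem_antidiagonal]
        exact ⟨h0.1, h0.2, rfl⟩

theorem Ge.mul' {a b c : ℚ} {f g : HahnSeries ℚ E} (hf : Ge a f) (hg : Ge b g) (hc : a + b = c) :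
    Ge c (f * g) ∧ (f * g).coeff c = f.coeff a * g.coeff b := by
  subst hc
  exact hf.mul hg

theorem order_Ge {f : HahnSeries ℚ E} : Ge f.order f := by
  intro q hq
  exact coeff_eq_zero_of_lt_order hq

theorem Ge_iff {f : HahnSeries ℚ E} (hf : f ≠ 0) {m : ℚ} : Ge m f ↔ m ≤ f.order := by
  constructor
  · intro h
    by_contra hcon
    exact coeff_order_eq_zero.not.2 hf (h _ (not_le.1 hcon))
  · intro h
    exact order_Ge.mono h

theorem mul_ofNat_coeff (f : HahnSeries ℚ E) (c : E) (q : ℚ) :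
    (HahnSeries.C c * f).coeff q = c * f.coeff q := by
  rw [C_mul_eq_smul, coeff_smul, smul_eq_mul]

/-- the order of `t d/dt` -/
theorem order_th [CharZero E] {f : HahnSeries ℚ E} (hf : f ≠ 0) (ho : f.order ≠ 0) :
    th f ≠ 0 ∧ (th f).order = f.order ∧ (th f).coeff f.order = (f.order : E) * f.coeff f.order := by
  have h1 : (th f).coeff f.order ≠ 0 := by
    rw [th_coeff]
    exact mul_ne_zero (by exact_mod_cast ho) (coeff_order_eq_zero.not.2 hf)
  have h2 : th f ≠ 0 := fun h => h1 (by rw [h, coeff_zero])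
  refine ⟨h2, le_antisymm (order_le_of_coeff_ne_zero h1) ((Ge_iff h2).1 order_Ge.th), th_coeff _ _⟩

/-- the connection coefficient -/
def Bf (P Q : HahnSeries ℚ E) : HahnSeries ℚ E := HahnSeries.C (1 / 2) * (9 * Q * th P - 6 * P * th Q)

theorem C_ofNat (n : ℕ) [n.AtLeastTwo] : (HahnSeries.C (ofNat(n) : E) : HahnSeries ℚ E) = ofNat(n) :=
  map_ofNat _ n

theorem th_ofNat [CharZero E] (n : ℕ) [n.AtLeastTwo] : th (ofNat(n) : HahnSeries ℚ E) = 0 := by
  rw [← C_ofNat, th_C]

theorem th_one [CharZero E] : th (1 : HahnSeries ℚ E) = 0 := by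
  rw [← map_one HahnSeries.C, th_C]

theorem Bf_eq [CharZero E] {P Q : HahnSeries ℚ E} (h : P ^ 3 - 27 * Q ^ 2 = 1)   :
    6 * Q * Bf P Q = -th P := by
  have h2 : (HahnSeries.C (1 / 2 : E) : HahnSeries ℚ E) * 2 = 1 := by
    rw [← C_ofNat, ← map_mul, one_div, inv_mul_cancel₀ two_ne_zero, map_one]
  have h3 : 3 * P ^ 2 * th P = 54 * Q * th Q := by
    have h4 := congrArg th h
    rw [th_sub, th_one, th_mul, th_ofNat, pow_succ, pow_succ, pow_one, pow_two, th_mul, th_mul, th_mul] at h4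
    linear_combination h4
  have h5 : 2 * (6 * Q * Bf P Q) = 2 * (-th P) := by
    rw [Bf]
    have h6 : 2 * (6 * Q * (HahnSeries.C (1 / 2 : E) * (9 * Q * th P - 6 * P * th Q))) =
        (HahnSeries.C (1 / 2 : E) * 2) * (6 * Q * (9 * Q * th P - 6 * P * th Q)) := by ring
    rw [h6, h2]
    have h7 : 6 * Q * (9 * Q * th P - 6 * P * th Q) = 54 * Q ^ 2 * th P - 36 * P * Q * th Q := by ring
    rw [h7]
    have h8 : (36 : HahnSeries ℚ E) * P * Q * th Q = 2 * P ^ 3 * th P := by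
      have : (3 : HahnSeries ℚ E) ≠ 0 := by
        rw [← C_ofNat]
        simp
      apply mul_left_cancel₀ this
      linear_combination (-2 * P) * h3
    rw [one_mul, h8]
    linear_combination (-2 * th P) * h
  exact mul_left_cancel₀ (by rw [← C_ofNat]; simp) h5

theorem coeff_C_mul (c : E) (f : HahnSeries ℚ E) (q : ℚ) : (HahnSeries.C c * f).coeff q = c * f.coeff q :=
  mul_ofNat_coeff f c q

theorem Ge.C_mul {m : ℚ} {f : HahnSeries ℚ E} (hf : Ge m f) (c : E) : Ge m (HahnSeries.C c * f) := by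
  intro q hq
  rw [coeff_C_mul, hf q hq, mul_zero]

/-- **the connection at a place** -/
theorem place [CharZero E] {P Q : HahnSeries ℚ E} (h : P ^ 3 - 27 * Q ^ 2 = 1) :
    ∃ κ : ℚ, 0 ≤ κ ∧ Ge κ (Bf P Q) ∧ Ge (-κ) (Bf P Q * P) ∧
      (Bf P Q).coeff κ * (Bf P Q * P).coeff (-κ) = 3 * (κ : E) ^ 2 ∧
      ((∃ q : ℚ, q < 0 ∧ P.coeff q ≠ 0) → 0 < κ) := by
  by_cases hP : Ge 0 P
  · -- the finite case
    refine ⟨0, le_rfl, ?_, ?_, ?_, fun ⟨q, hq, hq'⟩ => absurd (hP q hq) hq'⟩
    all_goals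
      have hQ : Ge 0 Q := by
        by_cases hQ0 : Q = 0
        · rw [hQ0]; exact Ge_zero 0
        rw [Ge_iff hQ0]
        by_contra hcon
        push Not at hcon
        have h1 : (Q * Q).coeff (Q.order + Q.order) = Q.coeff Q.order * Q.coeff Q.order :=
          (order_Ge.mul order_Ge).2
        have h2 : Q.coeff Q.order ≠ 0 := coeff_order_eq_zero.not.2 hQ0
        have h3 : HahnSeries.C (27 : E) * (Q * Q) = P * P * P - 1 := by
          rw [C_ofNat]
          linear_combination -h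
        have h4 := congrArg (fun f => f.coeff (Q.order + Q.order)) h3
        rw [coeff_C_mul, h1] at h4
        have h5 : Ge 0 (P * P * P - 1) := by
          refine Ge.sub (((hP.mul' hP (add_zero 0)).1.mul' hP (add_zero 0)).1) ?_
          intro q hq
          rw [← HahnSeries.single_zero_one, coeff_single_of_ne hq.ne]
        rw [h5 _ (by linarith)] at h4
        exact (mul_ne_zero (by norm_num) (mul_ne_zero h2 h2)) h4
      have hPth : (th P).coeff 0 = 0 := by rw [th_coeff]; simp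
      have hQth : (th Q).coeff 0 = 0 := by rw [th_coeff]; simp
      have e1 := hQ.mul' hP.th (add_zero 0)
      have e2 := hP.mul' hQ.th (add_zero 0)
      have hB : Bf P Q = HahnSeries.C (9 / 2) * (Q * th P) - HahnSeries.C 3 * (P * th Q) := by
        have h9 : (HahnSeries.C (9 / 2 : E) : HahnSeries ℚ E) = HahnSeries.C (1 / 2) * 9 := by
          rw [← C_ofNat, ← map_mul]; congr 1; ring
        have h3 : (HahnSeries.C (3 : E) : HahnSeries ℚ E) = HahnSeries.C (1 / 2) * 6 := by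
          rw [← C_ofNat, ← map_mul]; congr 1; ring
        rw [Bf, h9, h3]; ring
      have hBG : Ge 0 (Bf P Q) := by
        rw [hB]
        exact (e1.1.C_mul _).sub (e2.1.C_mul _)
      have hB0 : (Bf P Q).coeff 0 = 0 := by
        rw [hB, coeff_sub, coeff_C_mul, coeff_C_mul, e1.2, e2.2, hPth, hQth]
        ring
    · exact hBG
    · rw [neg_zero]
      exact (hBG.mul' hP (add_zero 0)).1
    · rw [hB0]
      simp
  · -- the infinite case
    have hP0 : P ≠ 0 := fun h0 => hP (by rw [h0]; exact Ge_zero 0)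
    have hPo : P.order < 0 := by
      by_contra hcon
      exact hP ((Ge_iff hP0).2 (not_lt.1 hcon))
    set κ : ℚ := -P.order / 2 with hκ
    have hκ0 : 0 < κ := by rw [hκ]; linarith
    have hPk : P.order = -2 * κ := by rw [hκ]; ring
    set p₀ := P.coeff P.order with hp₀
    have hp₀0 : p₀ ≠ 0 := coeff_order_eq_zero.not.2 hP0
    have h3 : HahnSeries.C (27 : E) * (Q * Q) = P * P * P - 1 := by
      rw [C_ofNat]
      linear_combination -h
    have hPP := (order_Ge (f := P)).mul' (order_Ge (f := P)) (show P.order + P.order = -4 * κ by rw [hPk]; ring)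
    have hPPP := hPP.1.mul' (order_Ge (f := P)) (show -4 * κ + P.order = -6 * κ by rw [hPk]; ring)
    rw [hPP.2] at hPPP
    have h1c : (1 : HahnSeries ℚ E).coeff (-6 * κ) = 0 := by
      rw [← HahnSeries.single_zero_one, coeff_single_of_ne (by linarith : -6 * κ < 0).ne]
    have hQ0 : Q ≠ 0 := by
      intro h0
      have h4 := congrArg (fun f => f.coeff (-6 * κ)) h3
      rw [coeff_C_mul, h0, mul_zero, coeff_zero, mul_zero, coeff_sub, hPPP.2, h1c, sub_zero] at h4
      exact (mul_ne_zero (mul_ne_zero hp₀0 hp₀0) hp₀0) h4.symm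
    set q₀ := Q.coeff Q.order with hq₀
    have hq₀0 : q₀ ≠ 0 := coeff_order_eq_zero.not.2 hQ0
    have hQQ := (order_Ge (f := Q)).mul (order_Ge (f := Q))
    have hGe1 : Ge (-6 * κ) (P * P * P - 1) := hPPP.1.sub (by
      intro q hq
      rw [← HahnSeries.single_zero_one, coeff_single_of_ne (by linarith : q < 0).ne])
    have hQo : Q.order = -3 * κ := by
      have a1 : -6 * κ ≤ Q.order + Q.order := by
        by_contra hcon
        push Not at hcon
        have h4 := congrArg (fun f => f.coeff (Q.order + Q.order)) h3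
        rw [coeff_C_mul, hQQ.2, hGe1 _ hcon] at h4
        exact (mul_ne_zero (by norm_num) (mul_ne_zero hq₀0 hq₀0)) h4
      have a2 : Q.order + Q.order ≤ -6 * κ := by
        by_contra hcon
        push Not at hcon
        have h4 := congrArg (fun f => f.coeff (-6 * κ)) h3
        rw [coeff_C_mul, hQQ.1 _ hcon, coeff_sub, hPPP.2, h1c, sub_zero, mul_zero] at h4
        exact (mul_ne_zero (mul_ne_zero hp₀0 hp₀0) hp₀0) h4.symm
      linarith
    have hrel : 27 * (q₀ * q₀) = p₀ * p₀ * p₀ := by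
      have h4 := congrArg (fun f => f.coeff (-6 * κ)) h3
      have e : Q.order + Q.order = -6 * κ := by rw [hQo]; ring
      rw [e] at hQQ
      rw [coeff_C_mul, hQQ.2, coeff_sub, hPPP.2, h1c, sub_zero] at h4
      exact h4
    obtain ⟨t1, t2, t3⟩ := order_th hP0 hPo.ne
    have hBe := Bf_eq h
    have hB0 : Bf P Q ≠ 0 := by
      intro h0
      rw [h0, mul_zero] at hBe
      exact t1 (neg_eq_zero.1 hBe.symm)
    have hBe' : HahnSeries.C (6 : E) * (Q * Bf P Q) = -th P := by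
      rw [C_ofNat, ← hBe]; ring
    have hQB := (order_Ge (f := Q)).mul (order_Ge (f := Bf P Q))
    set β := (Bf P Q).coeff (Bf P Q).order with hβ
    have hβ0 : β ≠ 0 := coeff_order_eq_zero.not.2 hB0
    have hBo : (Bf P Q).order = κ := by
      have a1 : P.order ≤ Q.order + (Bf P Q).order := by
        by_contra hcon
        push Not at hcon
        have h4 := congrArg (fun f => f.coeff (Q.order + (Bf P Q).order)) hBe'
        rw [coeff_C_mul, hQB.2, coeff_neg, (order_Ge (f := P)).th _ hcon, neg_zero] at h4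
        exact (mul_ne_zero (by norm_num) (mul_ne_zero hq₀0 hβ0)) h4
      have a2 : Q.order + (Bf P Q).order ≤ P.order := by
        by_contra hcon
        push Not at hcon
        have h4 := congrArg (fun f => f.coeff P.order) hBe'
        rw [coeff_C_mul, hQB.1 _ hcon, coeff_neg, t3, mul_zero] at h4
        exact (mul_ne_zero (by exact_mod_cast hPo.ne) hp₀0) (neg_eq_zero.1 h4.symm)
      linarith
    have hβrel : 6 * (q₀ * β) = 2 * (κ : E) * p₀ := by
      have h4 := congrArg (fun f => f.coeff P.order) hBe'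
      have e : Q.order + (Bf P Q).order = P.order := by rw [hQo, hBo, hPk]; ring
      rw [e] at hQB
      rw [coeff_C_mul, hQB.2, coeff_neg, t3] at h4
      have h5 : ((P.order : ℚ) : E) = -2 * (κ : E) := by rw [hPk]; push_cast; ring
      rw [h5] at h4
      linear_combination h4
    have hBG : Ge κ (Bf P Q) := hBo ▸ order_Ge
    have hBk : (Bf P Q).coeff κ = β := by rw [hβ, hBo]
    have hBP := hBG.mul' (order_Ge (f := P)) (show κ + P.order = -κ by rw [hPk]; ring)
    refine ⟨κ, hκ0.le, hBG, hBP.1, ?_, fun _ => hκ0⟩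
    rw [hBP.2, hBk]
    have h6 : (6 : E) ≠ 0 := by norm_num
    have h7 : (27 : E) ≠ 0 := by norm_num
    have hb : β = 2 * (κ : E) * p₀ / (6 * q₀) := by
      rw [eq_div_iff (mul_ne_zero h6 hq₀0)]
      linear_combination hβrel
    have h8 : β * (β * p₀) * (36 * (q₀ * q₀)) = 3 * (κ : E) ^ 2 * (36 * (q₀ * q₀)) := by
      have : β * (β * p₀) * (36 * (q₀ * q₀)) = (6 * (q₀ * β)) ^ 2 * p₀ := by ring
      rw [this, hβrel]
      linear_combination (-4 * (κ : E) ^ 2) * hrel
    exact mul_right_cancel₀ (mul_ne_zero (by norm_num) (mul_ne_zero hq₀0 hq₀0)) h8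

/-- the bracket of `sl₂` -/
def brH (x y : Fin 3 → HahnSeries ℚ E) : Fin 3 → HahnSeries ℚ E :=
  ![2 * (x 0 * y 1 - x 1 * y 0), x 0 * y 2 - x 2 * y 0, 2 * (x 1 * y 2 - x 2 * y 1)]

/-- the connection -/
def AvH (P Q : HahnSeries ℚ E) : Fin 3 → HahnSeries ℚ E :=
  ![HahnSeries.C (1 / 12) * (Bf P Q * P), 0, Bf P Q]

/-- the weights -/
def wt : Fin 3 → ℚ := ![-1, 0, 1]

/-- the matrix at a place -/
def Xm (κ : ℚ) (α β : E) : Matrix (Fin 3) (Fin 3) E :=
  !![(κ : E), 2 * α, 0; -β, 0, α; 0, -2 * β, -(κ : E)]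

theorem Xm_nil (κ : ℚ) {α β : E} (h : 4 * (α * β) = (κ : E) ^ 2) : Xm κ α β ^ 3 = 0 := by
  rw [pow_succ, pow_two]
  ext i j
  fin_cases i <;> fin_cases j <;>
    simp only [Xm, Matrix.mul_apply, Fin.sum_univ_three, Matrix.of_apply, Matrix.cons_val', Matrix.cons_val_zero,
      Matrix.cons_val_one, Matrix.cons_val, Matrix.zero_apply, Fin.zero_eta, Fin.mk_one, Fin.reduceFinMk,
      Fin.isValue, Matrix.cons_val_fin_one]
  · linear_combination (-(κ : E)) * h
  · linear_combination (-2 * α) * h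
  · ring
  · linear_combination β * h
  · ring
  · linear_combination (-α) * h
  · ring
  · linear_combination (2 * β) * h
  · linear_combination (κ : E) * h

/-- no eigenvalues -/
theorem no_eig [CharZero E] {m : E} (hm : m ≠ 0) {X Y n : Matrix (Fin 3) (Fin 3) E} (hX : X ^ 3 = 0) (hY : Y ^ 3 = 0)
    (h : m • n = X * n + n * Y) : n = 0 := by
  have key : ∀ Z : Matrix (Fin 3) (Fin 3) E, m • Z = Z * Y → Z = 0 := by
    intro Z hZ
    have h1 : m ^ 2 • Z = Z * Y ^ 2 := by
      rw [pow_two, mul_smul, hZ, ← Matrix.smul_mul, hZ, Matrix.mul_assoc, pow_two]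
    have h2 : m ^ 3 • Z = Z * Y ^ 3 := by
      rw [pow_succ, mul_comm, mul_smul, h1, ← Matrix.smul_mul, hZ, Matrix.mul_assoc, pow_succ' Y 2]
    rw [hY, Matrix.mul_zero] at h2
    exact (smul_eq_zero.1 h2).resolve_left (pow_ne_zero 3 hm)
  have h2 : X ^ 2 * n = 0 := by
    apply key
    have h1 := congrArg (fun Z => X ^ 2 * Z) h
    simp only [Matrix.mul_add, Matrix.mul_smul] at h1
    rw [← Matrix.mul_assoc, ← pow_succ, hX, Matrix.zero_mul, zero_add, ← Matrix.mul_assoc] at h1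
    exact h1
  have h3 : X * n = 0 := by
    apply key
    have h1 := congrArg (fun Z => X * Z) h
    simp only [Matrix.mul_add, Matrix.mul_smul] at h1
    rw [← Matrix.mul_assoc, ← pow_two, h2, zero_add, ← Matrix.mul_assoc] at h1
    exact h1
  apply key
  rw [h, h3, zero_add]

/-- the coefficients of a product with the connection -/
theorem Ge.mulc {a b c : ℚ} {f g : HahnSeries ℚ E} (hf : Ge a f) (hg : Ge b g) (hc : c = a + b) :
    (f * g).coeff c = f.coeff a * g.coeff b := by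
  rw [hc]
  exact (hf.mul hg).2

/-- **the local theorem** -/
theorem loc [CharZero E] {P₁ Q₁ P₂ Q₂ : HahnSeries ℚ E} (h₁ : P₁ ^ 3 - 27 * Q₁ ^ 2 = 1)
    (h₂ : P₂ ^ 3 - 27 * Q₂ ^ 2 = 1) {N : Fin 3 → Fin 3 → HahnSeries ℚ E}
    (hN : ∀ a c, th (N a c) = brH (AvH P₁ Q₁) (fun b => N b c) a + brH (AvH P₂ Q₂) (fun b => N a b) c) :
    ∃ κ₁ κ₂ : ℚ, 0 ≤ κ₁ ∧ 0 ≤ κ₂ ∧ ((∃ q : ℚ, q < 0 ∧ P₁.coeff q ≠ 0) → 0 < κ₁) ∧ Ge (κ₁ + κ₂) (N 2 2) := by
  classical
  obtain ⟨κ₁, k1, B1, BP1, r1, pos1⟩ := place h₁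
  obtain ⟨κ₂, k2, B2, BP2, r2, -⟩ := place h₂
  refine ⟨κ₁, κ₂, k1, k2, pos1, ?_⟩
  set W : Fin 3 → Fin 3 → ℚ := fun a c => κ₁ * wt a + κ₂ * wt c with hW
  by_cases hall : ∀ a c, Ge (W a c) (N a c)
  · have := hall 2 2
    have e : W 2 2 = κ₁ + κ₂ := by simp [hW, wt]
    rwa [e] at this
  exfalso
  push Not at hall
  obtain ⟨a₁, c₁, hac⟩ := hall
  set S : Finset (Fin 3 × Fin 3) := Finset.univ.filter fun p => N p.1 p.2 ≠ 0 with hS
  have hne1 : N a₁ c₁ ≠ 0 := fun h0 => hac (by rw [h0]; exact Ge_zero _)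
  have hSne : S.Nonempty := ⟨(a₁, c₁), by rw [hS, Finset.mem_filter]; exact ⟨Finset.mem_univ _, hne1⟩⟩
  obtain ⟨⟨a₀, c₀⟩, hp, hmin⟩ := S.exists_min_image (fun p => (N p.1 p.2).order - W p.1 p.2) hSne
  set m : ℚ := (N a₀ c₀).order - W a₀ c₀ with hm
  have hN0 : N a₀ c₀ ≠ 0 := by
    rw [hS, Finset.mem_filter] at hp
    exact hp.2
  have hm0 : m < 0 := by
    have h1 := hmin (a₁, c₁) (by rw [hS, Finset.mem_filter]; exact ⟨Finset.mem_univ _, hne1⟩)
    have h2 : (N a₁ c₁).order < W a₁ c₁ := by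
      by_contra hcon
      exact hac ((Ge_iff hne1).2 (not_lt.1 hcon))
    have h3 : m ≤ (N a₁ c₁).order - W a₁ c₁ := h1
    linarith
  have hG : ∀ a c, Ge (m + W a c) (N a c) := by
    intro a c
    by_cases h0 : N a c = 0
    · rw [h0]; exact Ge_zero _
    · rw [Ge_iff h0]
      have h1 : m ≤ (N a c).order - W a c :=
        hmin (a, c) (by rw [hS, Finset.mem_filter]; exact ⟨Finset.mem_univ _, h0⟩)
      linarith
  set n : Matrix (Fin 3) (Fin 3) E := Matrix.of fun a c => (N a c).coeff (m + W a c) with hn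
  set α₁ : E := 1 / 12 * (Bf P₁ Q₁ * P₁).coeff (-κ₁) with hα₁
  set β₁ : E := (Bf P₁ Q₁).coeff κ₁ with hβ₁
  set α₂ : E := 1 / 12 * (Bf P₂ Q₂ * P₂).coeff (-κ₂) with hα₂
  set β₂ : E := (Bf P₂ Q₂).coeff κ₂ with hβ₂
  have hX1 : Xm κ₁ α₁ β₁ ^ 3 = 0 := Xm_nil κ₁ (by rw [hα₁]; linear_combination r1 / 3)
  have hX2 : Xm κ₂ α₂ β₂ ^ 3 = 0 := Xm_nil κ₂ (by rw [hα₂]; linear_combination r2 / 3)
  have hX2' : (Xm κ₂ α₂ β₂).transpose ^ 3 = 0 := by
    rw [← Matrix.transpose_pow, hX2, Matrix.transpose_zero]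
  have hn0 : n = 0 := by
    refine no_eig (m := (m : E)) (by exact_mod_cast hm0.ne) hX1 hX2' ?_
    have hA1 := BP1.C_mul (1 / 12 : E)
    have hA2 := BP2.C_mul (1 / 12 : E)
    have ea1 : (HahnSeries.C (1 / 12 : E) * (Bf P₁ Q₁ * P₁)).coeff (-κ₁) = α₁ := coeff_C_mul _ _ _
    have ea2 : (HahnSeries.C (1 / 12 : E) * (Bf P₂ Q₂ * P₂)).coeff (-κ₂) = α₂ := coeff_C_mul _ _ _
    ext a c
    have h1 := congrArg (fun f => f.coeff (m + W a c)) (hN a c)
    rw [th_coeff, coeff_add] at h1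
    -- the first bracket
    have g1 : (brH (AvH P₁ Q₁) (fun b => N b c) a).coeff (m + W a c) =
        ∑ b, (Xm κ₁ α₁ β₁ a b) * n b c - ((κ₁ : E) * -(wt a : E)) * n a c := by
      fin_cases a
      · change (2 * (HahnSeries.C (1 / 12) * (Bf P₁ Q₁ * P₁) * N 1 c - 0 * N 0 c)).coeff (m + W 0 c) = _
        have e1 : (2 * (HahnSeries.C (1 / 12) * (Bf P₁ Q₁ * P₁) * N 1 c - 0 * N 0 c) : HahnSeries ℚ E) =
            HahnSeries.C 2 * (HahnSeries.C (1 / 12) * (Bf P₁ Q₁ * P₁) * N 1 c) := by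
          rw [C_ofNat]; ring
        rw [e1, coeff_C_mul, hA1.mulc (hG 1 c) (by simp [hW, wt]; ring), ea1]
        simp [Fin.sum_univ_three, Xm, hn, wt]
        ring
      · change (HahnSeries.C (1 / 12) * (Bf P₁ Q₁ * P₁) * N 2 c - Bf P₁ Q₁ * N 0 c).coeff (m + W 1 c) = _
        rw [coeff_sub, hA1.mulc (hG 2 c) (by simp [hW, wt]; ring), B1.mulc (hG 0 c) (by simp [hW, wt]; ring), ea1]
        simp [Fin.sum_univ_three, Xm, hn, wt]
        ring
      · change (2 * (0 * N 2 c - Bf P₁ Q₁ * N 1 c)).coeff (m + W 2 c) = _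
        have e1 : (2 * (0 * N 2 c - Bf P₁ Q₁ * N 1 c) : HahnSeries ℚ E) =
            HahnSeries.C (-2) * (Bf P₁ Q₁ * N 1 c) := by
          rw [map_neg, C_ofNat]; ring
        rw [e1, coeff_C_mul, B1.mulc (hG 1 c) (by simp [hW, wt]; ring)]
        simp [Fin.sum_univ_three, Xm, hn, wt]
        ring
    have g2 : (brH (AvH P₂ Q₂) (fun b => N a b) c).coeff (m + W a c) =
        ∑ b, (Xm κ₂ α₂ β₂ c b) * n a b - ((κ₂ : E) * -(wt c : E)) * n a c := by
      fin_cases c
      · change (2 * (HahnSeries.C (1 / 12) * (Bf P₂ Q₂ * P₂) * N a 1 - 0 * N a 0)).coeff (m + W a 0) = _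
        have e1 : (2 * (HahnSeries.C (1 / 12) * (Bf P₂ Q₂ * P₂) * N a 1 - 0 * N a 0) : HahnSeries ℚ E) =
            HahnSeries.C 2 * (HahnSeries.C (1 / 12) * (Bf P₂ Q₂ * P₂) * N a 1) := by
          rw [C_ofNat]; ring
        rw [e1, coeff_C_mul, hA2.mulc (hG a 1) (by simp [hW, wt]; ring), ea2]
        simp [Fin.sum_univ_three, Xm, hn, wt]
        ring
      · change (HahnSeries.C (1 / 12) * (Bf P₂ Q₂ * P₂) * N a 2 - Bf P₂ Q₂ * N a 0).coeff (m + W a 1) = _
        rw [coeff_sub, hA2.mulc (hG a 2) (by simp [hW, wt]; ring), B2.mulc (hG a 0) (by simp [hW, wt]; ring), ea2]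
        simp [Fin.sum_univ_three, Xm, hn, wt]
        ring
      · change (2 * (0 * N a 2 - Bf P₂ Q₂ * N a 1)).coeff (m + W a 2) = _
        have e1 : (2 * (0 * N a 2 - Bf P₂ Q₂ * N a 1) : HahnSeries ℚ E) =
            HahnSeries.C (-2) * (Bf P₂ Q₂ * N a 1) := by
          rw [map_neg, C_ofNat]; ring
        rw [e1, coeff_C_mul, B2.mulc (hG a 1) (by simp [hW, wt]; ring)]
        simp [Fin.sum_univ_three, Xm, hn, wt]
        ring
    rw [g1, g2] at h1
    have e2 : ((m + W a c : ℚ) : E) = (m : E) + (κ₁ : E) * (wt a : E) + (κ₂ : E) * (wt c : E) := by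
      rw [hW]
      push_cast
      ring
    rw [e2] at h1
    rw [Matrix.smul_apply, smul_eq_mul, Matrix.add_apply, Matrix.mul_apply, Matrix.mul_apply]
    have e3 : ∑ b, n a b * (Xm κ₂ α₂ β₂).transpose b c = ∑ b, (Xm κ₂ α₂ β₂ c b) * n a b :=
      Finset.sum_congr rfl fun b _ => by rw [Matrix.transpose_apply, mul_comm]
    rw [e3]
    have e4 : (N a c).coeff (m + W a c) = n a c := rfl
    rw [e4] at h1
    linear_combination h1
  have h1 : n a₀ c₀ ≠ 0 := by
    have e : m + W a₀ c₀ = (N a₀ c₀).order := by rw [hm]; ring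
    change (N a₀ c₀).coeff (m + W a₀ c₀) ≠ 0
    rw [e]
    exact coeff_order_eq_zero.not.2 hN0
  exact h1 (by rw [hn0]; rfl)

end Pool.Agent.H445.MJ
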