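import Pool.Agent.H445.MJ.Der
import Pool.Agent.H445.MJ.Glob

/-!
# The vanishing theorem for horizontal tensors
-/

set_option autoImplicit false

open HahnSeries

noncomputable section

namespace Pool.Agent.H445.MJ

variable {E F : Type} [Field E] [CharZero E] [Field F] [Algebra E F]

/-- the bracket of `sl₂` -/
def brF {R : Type*} [CommRing R] (x y : Fin 3 → R) : Fin 3 → R :=
  ![2 * (x 0 * y 1 - x 1 * y 0), x 0 * y 2 - x 2 * y 0, 2 * (x 1 * y 2 - x 2 * y 1)]

/-- the connection coefficient -/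
def BF (d : Derivation E F F) (P Q : F) : F := 1 / 2 * (9 * Q * d P - 6 * P * d Q)

/-- the connection -/
def AvF (d : Derivation E F F) (P Q : F) : Fin 3 → F := ![1 / 12 * (BF d P Q * P), 0, BF d P Q]

/-- **the vanishing theorem** -/
theorem locglob [IsAlgClosed E] {x : F} (hx : Transcendental E x)
    (hF : ∀ z : F, IsAlgebraic (IntermediateField.adjoin E {x}) z) (d : Derivation E F F) (hd : d x = 1)
    {P₁ Q₁ P₂ Q₂ : F} (h₁ : P₁ ^ 3 - 27 * Q₁ ^ 2 = 1) (h₂ : P₂ ^ 3 - 27 * Q₂ ^ 2 = 1) (hxP : x = P₁ ^ 3)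
    {N : Fin 3 → Fin 3 → F} (hN : ∀ a c, d (N a c) = brF (AvF d P₁ Q₁) (fun b => N b c) a +
      brF (AvF d P₂ Q₂) (fun b => N a b) c) : N 2 2 = 0 := by
  classical
  have key : ∀ φ : F →+* HahnSeries ℚ E, (∀ c : E, φ (algebraMap E F c) = HahnSeries.C c) →
      ∃ κ₁ κ₂ : ℚ, 0 ≤ κ₁ ∧ 0 ≤ κ₂ ∧ ((∃ q : ℚ, q < 0 ∧ (φ P₁).coeff q ≠ 0) → 0 < κ₁) ∧
        Ge (κ₁ + κ₂) (φ (N 2 2)) := by
    intro φ hφ
    have hth := ader hF φ hφ d hd
    have hhalf : φ (1 / 2) = HahnSeries.C (1 / 2) := by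
      rw [← hφ, map_div₀ (algebraMap E F), map_one, map_ofNat]
    have h12 : φ (1 / 12) = HahnSeries.C (1 / 12) := by
      rw [← hφ, map_div₀ (algebraMap E F), map_one, map_ofNat]
    have hB : ∀ P Q : F, Bf (φ P) (φ Q) = φ (BF d P Q) * th (φ x) := by
      intro P Q
      rw [Bf, BF, hth P, hth Q, map_mul, hhalf, map_sub, map_mul, map_mul, map_mul, map_mul, map_ofNat, map_ofNat]
      ring
    have hA : ∀ (P Q : F) (b : Fin 3), AvH (φ P) (φ Q) b = φ (AvF d P Q b) * th (φ x) := by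
      intro P Q b
      fin_cases b
      · change HahnSeries.C (1 / 12) * (Bf (φ P) (φ Q) * φ P) = φ (1 / 12 * (BF d P Q * P)) * th (φ x)
        rw [hB, map_mul, map_mul, h12]
        ring
      · change 0 = φ 0 * th (φ x)
        rw [map_zero, zero_mul]
      · exact hB P Q
    have hbr : ∀ (u v : Fin 3 → F) (w : Fin 3 → HahnSeries ℚ E) (a : Fin 3),
        (∀ b, w b = φ (u b) * th (φ x)) → brH w (fun b => φ (v b)) a = φ (brF u v a) * th (φ x) := by
      intro u v w a hw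
      fin_cases a
      · change 2 * (w 0 * φ (v 1) - w 1 * φ (v 0)) = φ (2 * (u 0 * v 1 - u 1 * v 0)) * th (φ x)
        rw [hw, hw, map_mul, map_sub, map_mul, map_mul, map_ofNat]
        ring
      · change w 0 * φ (v 2) - w 2 * φ (v 0) = φ (u 0 * v 2 - u 2 * v 0) * th (φ x)
        rw [hw, hw, map_sub, map_mul, map_mul]
        ring
      · change 2 * (w 1 * φ (v 2) - w 2 * φ (v 1)) = φ (2 * (u 1 * v 2 - u 2 * v 1)) * th (φ x)
        rw [hw, hw, map_mul, map_sub, map_mul, map_mul, map_ofNat]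
        ring
    refine loc (P₁ := φ P₁) (Q₁ := φ Q₁) (P₂ := φ P₂) (Q₂ := φ Q₂) ?_ ?_ (N := fun a c => φ (N a c)) ?_
    · have := congrArg φ h₁
      simpa only [map_sub, map_pow, map_mul, map_ofNat, map_one] using this
    · have := congrArg φ h₂
      simpa only [map_sub, map_pow, map_mul, map_ofNat, map_one] using this
    · intro a c
      rw [hth, hN, map_add, add_mul, hbr (AvF d P₁ Q₁) (fun b => N b c) _ a (hA P₁ Q₁),
        hbr (AvF d P₂ Q₂) (fun b => N a b) _ c (hA P₂ Q₂)]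
  refine glob hx hF ?_ ?_
  · intro φ x₀ hφ _ q hq
    obtain ⟨κ₁, κ₂, k1, k2, -, h⟩ := key φ hφ
    exact h q (by linarith)
  · intro φ hφ hφx q hq
    obtain ⟨κ₁, κ₂, k1, k2, hpos, h⟩ := key φ hφ
    have hneg : ∃ q : ℚ, q < 0 ∧ (φ P₁).coeff q ≠ 0 := by
      by_contra hcon
      push Not at hcon
      have h0 : Ge 0 (φ P₁) := fun q hq => hcon q hq
      have h3 : Ge 0 (φ P₁ * φ P₁ * φ P₁) := ((h0.mul' h0 (add_zero 0)).1.mul' h0 (add_zero 0)).1
      have h4 : (single (-1) 1 : HahnSeries ℚ E) = φ P₁ * φ P₁ * φ P₁ := by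
        rw [← hφx, hxP, map_pow]
        ring
      have h5 := h3 (-1) (by norm_num)
      rw [← h4, coeff_single_same] at h5
      exact one_ne_zero h5
    have := hpos hneg
    exact h q (by linarith)

end Pool.Agent.H445.MJ
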