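import Pool.Agent.H445.MJ.Van
import Pool.Graph.R_seed8.Y776.AxJ.Pair

/-!
# Two period matrices: the general case
-/

set_option autoImplicit false

open Finset Module

noncomputable section

namespace Pool.Agent.H445.MJ

open Pool.Agent.Y685 Pool.Agent.TH813.Ell Pool.Agent.Y776.AxJ
open Pool.Agent.TH813.Rel (DF MK exists_derF bracket_mem)

variable {x y : Qd} {b : ℂ} {D : Derivation ℚ ℂ ℂ}

/-- a Möbius relation over the constants -/
def MobRel (C : IntermediateField ℚ ℂ) (s t : ℂ) : Prop :=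
  ∃ m : Fin 4 → ℂ, (∀ i, m i ∈ C) ∧ m 0 * m 3 - m 1 * m 2 ≠ 0 ∧ m 2 * t + m 3 ≠ 0 ∧
    s * (m 2 * t + m 3) = m 0 * t + m 1

/-- the Gram matrix of a standard triple -/
theorem gram {f : Fin 3 → Fin 3 → ℂ} (b01 : br (f 0) (f 1) = (2 : ℂ) • f 0) (b02 : br (f 0) (f 2) = f 1)
    (b12 : br (f 1) (f 2) = (2 : ℂ) • f 2) (h2 : f 2 ≠ 0) :
    pr (f 1) (f 1) = 2 ∧ pr (f 2) (f 2) = 0 ∧ pr (f 0) (f 0) = 0 ∧ pr (f 1) (f 2) = 0 ∧ pr (f 0) (f 2) = -1 := by
  have hs : ∀ (r : ℂ) (u v : Fin 3 → ℂ), pr (r • u) v = r * pr u v := by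
    intro r u v
    simp only [pr, Pi.smul_apply, smul_eq_mul]
    ring
  have hs' : ∀ (r : ℂ) (u v : Fin 3 → ℂ), pr u (r • v) = r * pr u v := by
    intro r u v
    simp only [pr, Pi.smul_apply, smul_eq_mul]
    ring
  have bself : ∀ z : Fin 3 → ℂ, br z z = 0 := by
    intro z
    apply ext3 <;> simp only [br0, br1, br2, Pi.zero_apply] <;> ring
  have bneg : ∀ z z' : Fin 3 → ℂ, br z z' = -br z' z := by
    intro z z'
    apply ext3 <;> simp only [br0, br1, br2, Pi.neg_apply] <;> ring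
  have g22 : pr (f 2) (f 2) = 0 := by
    have h := pr_br (f 1) (f 2) (f 2)
    rw [b12, hs, hs'] at h
    linear_combination h / 4
  have b10 : br (f 1) (f 0) = (-2 : ℂ) • f 0 := by
    rw [bneg, b01]
    module
  have g00 : pr (f 0) (f 0) = 0 := by
    have h := pr_br (f 1) (f 0) (f 0)
    rw [b10, hs, hs'] at h
    linear_combination -h / 4
  have g12 : pr (f 1) (f 2) = 0 := by
    have h := pr_br (f 1) (f 1) (f 2)
    rw [b12, bself, hs'] at h
    simp only [pr, Pi.zero_apply] at h ⊢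
    linear_combination h / 2
  have htrip : ∀ u v : Fin 3 → ℂ, br u (br u v) = (-2 * pr u v) • u + (2 * pr u u) • v := by
    intro u v
    apply ext3 <;> simp only [br0, br1, br2, pr, Pi.add_apply, Pi.smul_apply, smul_eq_mul] <;> ring
  have g11 : pr (f 1) (f 1) = 2 := by
    have h := htrip (f 1) (f 2)
    rw [b12, br_smul_right, b12, g12] at h
    have h3 : (4 - 2 * pr (f 1) (f 1)) • f 2 = 0 := by
      have : (4 - 2 * pr (f 1) (f 1)) • f 2 = (2 : ℂ) • (2 : ℂ) • f 2 -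
          ((-2 * 0 : ℂ) • f 1 + (2 * pr (f 1) (f 1)) • f 2) := by module
      rw [this, h, sub_self]
    have h4 := (smul_eq_zero.1 h3).resolve_right h2
    linear_combination -h4 / 2
  refine ⟨g11, g22, g00, g12, ?_⟩
  have h := pr_br (f 0) (f 1) (f 2)
  rw [b01, b02, hs, g11] at h
  linear_combination h / 2

/-- the Möbius relation -/
theorem mob_alg {C : IntermediateField ℚ ℂ} {f : Fin 3 → Fin 3 → ℂ} (b01 : br (f 0) (f 1) = (2 : ℂ) • f 0)
    (b02 : br (f 0) (f 2) = f 1) (b12 : br (f 1) (f 2) = (2 : ℂ) • f 2) (h2 : f 2 ≠ 0) (hC : ∀ k i, f k i ∈ C)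
    {s t : ℂ} (ht : t ∉ C) (hrel : (f 2 0 * t ^ 2 - 2 * f 2 1 * t + f 2 2) * s ^ 2 +
      (f 1 0 * t ^ 2 - 2 * f 1 1 * t + f 1 2) * s + (f 0 0 * t ^ 2 - 2 * f 0 1 * t + f 0 2) = 0) :
    MobRel C s t := by
  obtain ⟨g11, g22, g00, g12, g02⟩ := gram b01 b02 b12 h2
  have m0 : f 1 0 = 2 * (f 0 0 * f 2 1 - f 0 1 * f 2 0) := by rw [← b02, br0]
  have m1 : f 1 1 = f 0 0 * f 2 2 - f 0 2 * f 2 0 := by rw [← b02, br1]
  have m2 : f 1 2 = 2 * (f 0 1 * f 2 2 - f 0 2 * f 2 1) := by rw [← b02, br2]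
  simp only [pr] at g11 g22 g00 g12 g02
  have C0 := hC 2 0
  have C1 := hC 2 1
  have C2 := hC 2 2
  have M0 := hC 1 0
  have M1 := hC 1 1
  have M2 := hC 1 2
  generalize f 0 0 = a0 at *
  generalize f 0 1 = a1 at *
  generalize f 0 2 = a2 at *
  have hc : ¬ (f 2 0 = 0 ∧ f 2 1 = 0 ∧ f 2 2 = 0) := by
    rintro ⟨h0, h1, h3⟩
    exact h2 (ext3 h0 h1 h3)
  generalize f 2 0 = c0 at *
  generalize f 2 1 = c1 at *
  generalize f 2 2 = c2 at *
  generalize f 1 0 = k0 at *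
  generalize f 1 1 = k1 at *
  generalize f 1 2 = k2 at *
  have hdisc : (k0 * t ^ 2 - 2 * k1 * t + k2) ^ 2 = 4 * (a0 * t ^ 2 - 2 * a1 * t + a2) *
      (c0 * t ^ 2 - 2 * c1 * t + c2) := by
    rw [m0, m1, m2]
    linear_combination (2 * (c0 * t ^ 2 - 2 * c1 * t + c2) ^ 2) * g00 +
      (2 * (a0 * t ^ 2 - 2 * a1 * t + a2) ^ 2) * g22 -
      (4 * (a0 * t ^ 2 - 2 * a1 * t + a2) * (c0 * t ^ 2 - 2 * c1 * t + c2)) * g02
  have hsq : (2 * (c0 * t ^ 2 - 2 * c1 * t + c2) * s + (k0 * t ^ 2 - 2 * k1 * t + k2)) ^ 2 = 0 := by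
    linear_combination (4 * (c0 * t ^ 2 - 2 * c1 * t + c2)) * hrel + hdisc
  have hlin : 2 * (c0 * t ^ 2 - 2 * c1 * t + c2) * s + (k0 * t ^ 2 - 2 * k1 * t + k2) = 0 :=
    pow_eq_zero_iff two_ne_zero |>.1 hsq
  by_cases hc0 : c0 = 0
  · have hc1 : c1 = 0 := by
      rw [hc0] at g22
      have : c1 ^ 2 = 0 := by linear_combination g22 / 2
      exact pow_eq_zero_iff two_ne_zero |>.1 this
    have hc2 : c2 ≠ 0 := fun h => hc ⟨hc0, hc1, h⟩
    rw [hc0, hc1] at g12
    have hk0 : k0 = 0 := by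
      have : k0 * c2 = 0 := by linear_combination -g12
      exact (mul_eq_zero.1 this).resolve_right hc2
    rw [hk0] at g11
    have hk1 : k1 ≠ 0 := by
      rintro rfl
      norm_num at g11
    refine ⟨![2 * k1, -k2, 0, 2 * c2], ?_, ?_, ?_, ?_⟩
    · intro i
      fin_cases i
      · exact mul_mem (ofNat_mem C 2) M1
      · exact neg_mem M2
      · exact zero_mem C
      · exact mul_mem (ofNat_mem C 2) C2
    · change 2 * k1 * (2 * c2) - -k2 * 0 ≠ 0
      rw [mul_zero, sub_zero]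
      exact mul_ne_zero (mul_ne_zero two_ne_zero hk1) (mul_ne_zero two_ne_zero hc2)
    · change 0 * t + 2 * c2 ≠ 0
      rw [zero_mul, zero_add]
      exact mul_ne_zero two_ne_zero hc2
    · change s * (0 * t + 2 * c2) = 2 * k1 * t + -k2
      rw [hc0, hc1, hk0] at hlin
      linear_combination hlin
  · have hne : c0 * t - c1 ≠ 0 := by
      intro h0
      apply ht
      have : t = c1 / c0 := by
        rw [eq_div_iff hc0]
        linear_combination h0
      rw [this]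
      exact div_mem C1 C0
    have hrest : c0 ^ 2 * k2 + k0 * c1 ^ 2 - 2 * k1 * c0 * c1 = 0 := by
      linear_combination (-c0) * g12 + (k0 / 2) * g22
    have hsq2 : (k1 * c0 - k0 * c1) ^ 2 = c0 ^ 2 := by
      linear_combination k0 * hrest + (c0 ^ 2 / 2) * g11
    have hdet : k1 * c0 - k0 * c1 ≠ 0 := by
      intro h0
      rw [h0] at hsq2
      exact pow_ne_zero 2 hc0 (by rw [← hsq2]; ring)
    have hfin : 2 * c0 * (c0 * t - c1) * s = -(c0 * k0 * t + k0 * c1 - 2 * k1 * c0) := by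
      apply mul_left_cancel₀ hne
      linear_combination (c0 ^ 2) * hlin - hrest + (c0 * s) * g22
    refine ⟨![-(c0 * k0), 2 * k1 * c0 - k0 * c1, 2 * c0 ^ 2, -(2 * c0 * c1)], ?_, ?_, ?_, ?_⟩
    · intro i
      fin_cases i
      · exact neg_mem (mul_mem C0 M0)
      · exact sub_mem (mul_mem (mul_mem (ofNat_mem C 2) M1) C0) (mul_mem M0 C1)
      · exact mul_mem (ofNat_mem C 2) (pow_mem C0 2)
      · exact neg_mem (mul_mem (mul_mem (ofNat_mem C 2) C0) C1)
    · change -(c0 * k0) * -(2 * c0 * c1) - (2 * k1 * c0 - k0 * c1) * (2 * c0 ^ 2) ≠ 0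
      have : -(c0 * k0) * -(2 * c0 * c1) - (2 * k1 * c0 - k0 * c1) * (2 * c0 ^ 2) =
          -(4 * c0 ^ 2) * (k1 * c0 - k0 * c1) := by ring
      rw [this]
      exact mul_ne_zero (neg_ne_zero.2 (mul_ne_zero (by norm_num) (pow_ne_zero 2 hc0))) hdet
    · change 2 * c0 ^ 2 * t + -(2 * c0 * c1) ≠ 0
      have : 2 * c0 ^ 2 * t + -(2 * c0 * c1) = 2 * c0 * (c0 * t - c1) := by ring
      rw [this]
      exact mul_ne_zero (mul_ne_zero two_ne_zero hc0) hne
    · change s * (2 * c0 ^ 2 * t + -(2 * c0 * c1)) = -(c0 * k0) * t + (2 * k1 * c0 - k0 * c1)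
      linear_combination hfin

/-- the Möbius relation of two horizontal points -/
theorem mob_of (hx : x.Ok) (hy : y.Ok) (hb : b ≠ 0) (_hDb : D b = 0) {f : Fin 3 → Fin 3 → ℂ} (ht : D y.t ≠ 0)
    (h2 : f 2 ≠ 0) (hC : ∀ k i, D (f k i) = 0) (b01 : br (f 0) (f 1) = (2 : ℂ) • f 0)
    (b02 : br (f 0) (f 2) = f 1) (b12 : br (f 1) (f 2) = (2 : ℂ) • f 2)
    (hN : 1 / 2 * RR b y (f 1) 2 * RR b x (eb 1) 2 - RR b y (f 0) 2 * RR b x (eb 2) 2 -
      RR b y (f 2) 2 * RR b x (eb 0) 2 = 0) : MobRel (Cst D) x.t y.t := by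
  have hp := hx.p0
  have hq := hx.q0
  have hp' := hy.p0
  have hq' := hy.q0
  refine mob_alg b01 b02 b12 h2 (fun k i => hC k i) (fun h => ht h) ?_
  simp only [RR2, eb00, eb01, eb02, eb10, eb11, eb12, eb20, eb21, eb22] at hN
  have h1 : (b * x.q / x.p) * (b * y.q / y.p) * ((f 2 0 * y.t ^ 2 - 2 * f 2 1 * y.t + f 2 2) * x.t ^ 2 +
      (f 1 0 * y.t ^ 2 - 2 * f 1 1 * y.t + f 1 2) * x.t + (f 0 0 * y.t ^ 2 - 2 * f 0 1 * y.t + f 0 2)) = 0 := by
    linear_combination -hN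
  exact (mul_eq_zero.1 h1).resolve_left (mul_ne_zero (div_ne_zero (mul_ne_zero hb hq) hp)
    (div_ne_zero (mul_ne_zero hb hq') hp'))

/-- **the pair theorem, interalgebraic case** -/
theorem pair_ia (hx : x.Ok) (hy : y.Ok) (hb : b ≠ 0) (hF : Free b x) (hDb : D b = 0)
    (hDx : Th b x D = 0) (hDy : Th b y D = 0) (hDg : D (gg x) ≠ 0) (hDg' : D (gg y) ≠ 0)
    (hFy : ∀ a, ∃ δ ∈ DF (Cst D), Th b y δ = a) (hw : gg y ∈ clo (Cst D) {gg x}) :
    (∀ a : Fin 3 → ℂ, P2 b x y D a 0) ∨ MobRel (Cst D) x.t y.t := by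
  classical
  have hFx : ∀ a, ∃ c, P2 b x y D a c := by
    intro a
    obtain ⟨δ, hδ, h1, -⟩ := hF.th hx hb hDb hDx hDg a 0
    exact ⟨_, δ, hδ, h1, rfl⟩
  have hFy' : ∀ c, ∃ a, P2 b x y D a c := by
    intro c
    obtain ⟨δ, hδ, h1⟩ := hFy c
    exact ⟨_, δ, hδ, rfl, h1⟩
  have hbr : ∀ {a c a' c' : Fin 3 → ℂ}, P2 b x y D a c → P2 b x y D a' c' →
      P2 b x y D (br a a') (br c c') := P2_br hx.dl hy.dl hb hDb hDx hDy
  -- the first ideal
  let W1 : Submodule ℂ (Fin 3 → ℂ) :=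
    { carrier := {a | P2 b x y D a 0}
      add_mem' := fun {a a'} h h' => by
        have := P2_add h h'
        rwa [add_zero] at this
      zero_mem' := P2_zero
      smul_mem' := fun r a h => by
        have := P2_smul r h
        rwa [smul_zero] at this }
  by_cases hW1 : ∃ a ∈ W1, a ≠ 0
  · left
    intro a
    obtain ⟨a₀, ha₀, hne⟩ := hW1
    refine simple (S := W1) (fun a ha z => ?_) ha₀ hne a
    obtain ⟨c, hc⟩ := hFx z
    have h := hbr (show P2 b x y D a 0 from ha) hc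
    rw [br_zero_left] at h
    exact h
  let W2 : Submodule ℂ (Fin 3 → ℂ) :=
    { carrier := {c | P2 b x y D 0 c}
      add_mem' := fun {a a'} h h' => by
        have := P2_add h h'
        rwa [add_zero] at this
      zero_mem' := P2_zero
      smul_mem' := fun r a h => by
        have := P2_smul r h
        rwa [smul_zero] at this }
  by_cases hW2 : ∃ c ∈ W2, c ≠ 0
  · left
    intro a
    obtain ⟨c₀, hc₀, hne⟩ := hW2
    have hall : ∀ c, P2 b x y D 0 c := by
      refine simple (S := W2) (fun c hc z => ?_) hc₀ hne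
      obtain ⟨a, ha⟩ := hFy' z
      have h := hbr (show P2 b x y D 0 c from hc) ha
      rw [br_zero_left] at h
      exact h
    obtain ⟨c, hc⟩ := hFx a
    have h := P2_add hc (hall (-c))
    rwa [add_zero, add_neg_cancel] at h
  right
  push Not at hW1 hW2
  -- the isomorphism
  have hker : ∀ δ ∈ DF (Cst D), Th b x δ = 0 → Th b y δ = 0 := fun δ hδ h =>
    hW2 _ ⟨δ, hδ, h, rfl⟩
  have hker' : ∀ δ ∈ DF (Cst D), Th b y δ = 0 → Th b x δ = 0 := fun δ hδ h =>
    hW1 _ ⟨δ, hδ, rfl, h⟩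
  choose d hd hdx using fun k => (hF.th hx hb hDb hDx hDg (eb k) 0)
  set f : Fin 3 → Fin 3 → ℂ := fun k => Th b y (d k) with hf
  have hrel : ∀ δ ∈ DF (Cst D), Th b y δ =
      Th b x δ 0 • f 0 + Th b x δ 1 • f 1 + Th b x δ 2 • f 2 := by
    intro δ hδ
    have h1 := hker (δ + ((-(Th b x δ 0)) • d 0 + ((-(Th b x δ 1)) • d 1 + (-(Th b x δ 2)) • d 2)))
      ((DF _).add_mem hδ ((DF _).add_mem ((DF _).smul_mem _ (hd 0)) ((DF _).add_mem
        ((DF _).smul_mem _ (hd 1)) ((DF _).smul_mem _ (hd 2))))) (by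
        simp only [Th_add, Th_smul, (hdx _).1]
        have hs := eb_sum (Th b x δ)
        rw [add_eq_zero_iff_eq_neg]
        refine hs.trans ?_
        module)
    simp only [Th_add, Th_smul] at h1
    rw [add_eq_zero_iff_eq_neg] at h1
    rw [h1, hf]
    module
  have hDf : ∀ k i, D (f k i) = 0 := by
    intro k i
    have hbk : D b = 0 := hDb
    have h1 := hker ⁅D, d k⁆ (bracket_mem _ (D_mem D) (hd k)) (by
      rw [Th_brk hx.dl hb hDb (hd k b hDb), hDx, br_zero_left, (hdx k).1]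
      funext i
      simp only [Pi.add_apply, Pi.sub_apply, Pi.zero_apply, map_zero, sub_zero, add_zero]
      rw [eb, Pi.single_apply]
      split_ifs
      · exact done' D
      · exact map_zero D)
    rw [Th_brk hy.dl hb hDb (hd k b hDb), hDy, br_zero_left] at h1
    have h2 := congrFun h1 i
    simp only [Pi.add_apply, Pi.sub_apply, Pi.zero_apply, map_zero, sub_zero, add_zero] at h2
    exact h2
  have hbf : ∀ k l, br (f k) (f l) = br (eb k) (eb l) 0 • f 0 + br (eb k) (eb l) 1 • f 1 +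
      br (eb k) (eb l) 2 • f 2 := by
    intro k l
    obtain ⟨E, hE, e1, e2⟩ := hbr (show P2 b x y D (eb k) (f k) from ⟨d k, hd k, (hdx k).1, rfl⟩)
      (show P2 b x y D (eb l) (f l) from ⟨d l, hd l, (hdx l).1, rfl⟩)
    rw [← e2, hrel E hE, e1]
  have b01 : br (f 0) (f 1) = (2 : ℂ) • f 0 := by
    rw [hbf, br0, br1, br2, eb00, eb01, eb02, eb10, eb11, eb12]
    module
  have b02 : br (f 0) (f 2) = f 1 := by
    rw [hbf, br0, br1, br2, eb00, eb01, eb02, eb20, eb21, eb22]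
    module
  have b12 : br (f 1) (f 2) = (2 : ℂ) • f 2 := by
    rw [hbf, br0, br1, br2, eb10, eb11, eb12, eb20, eb21, eb22]
    module
  have bself : ∀ z : Fin 3 → ℂ, br z z = 0 := by
    intro z
    apply ext3 <;> simp only [br0, br1, br2, Pi.zero_apply] <;> ring
  have bneg : ∀ z z' : Fin 3 → ℂ, br z z' = -br z' z := by
    intro z z'
    apply ext3 <;> simp only [br0, br1, br2, Pi.neg_apply] <;> ring
  have b10 : br (f 1) (f 0) = (-2 : ℂ) • f 0 := by
    rw [bneg, b01]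
    module
  have b20 : br (f 2) (f 0) = -f 1 := by rw [bneg, b02]
  have b21 : br (f 2) (f 1) = (-2 : ℂ) • f 2 := by
    rw [bneg, b12]
    module
  -- the tensor
  set N : Fin 3 → Fin 3 → ℂ := fun a c => 1 / 2 * RR b y (f 1) a * RR b x (eb 1) c -
    RR b y (f 0) a * RR b x (eb 2) c - RR b y (f 2) a * RR b x (eb 0) c with hN
  have hNv : ∀ a, N a = (1 / 2 * RR b y (f 1) a) • RR b x (eb 1) + ((-(RR b y (f 0) a)) • RR b x (eb 2)
      + (-(RR b y (f 2) a)) • RR b x (eb 0)) := by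
    intro a
    funext c
    simp only [hN, Pi.add_apply, Pi.smul_apply, smul_eq_mul]
    ring
  have hδN : ∀ δ ∈ DF (Cst D), ∀ a c, δ (N a c) = br (Av y δ) (fun i => N i c) a + br (Av x δ) (N a) c := by
    intro δ hδ a c
    have hδb := hδ b hDb
    have hθ := hrel δ hδ
    have hY : ∀ k, δ (RR b y (f k) a) = RR b y (br (Th b y δ) (f k)) a + br (Av y δ) (RR b y (f k)) a := by
      intro k
      exact congrFun (d_RR (X := f k) hy hb hδb (fun i => hδ _ (hDf k i))) a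
    have hXk : ∀ k, δ (RR b x (eb k) c) = RR b x (br (Th b x δ) (eb k)) c +
        br (Av x δ) (RR b x (eb k)) c := by
      intro k
      exact congrFun (d_RR (X := eb k) hx hb hδb (fun i => by
        rw [eb, Pi.single_apply]
        split_ifs
        · exact done' δ
        · exact map_zero δ)) c
    set θ := Th b x δ with hθd
    have hsm : ∀ (z : Qd) (r : ℂ) (Z : Fin 3 → ℂ) (i : Fin 3), RR b z (r • Z) i = r * RR b z Z i := by
      intro z r Z i
      rw [RR_smul]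
      rfl
    have had : ∀ (z : Qd) (Z Z' : Fin 3 → ℂ) (i : Fin 3), RR b z (Z + Z') i =
        RR b z Z i + RR b z Z' i := by
      intro z Z Z' i
      rw [Pool.Agent.Y776.AxJ.RR_add]
      rfl
    have y0 : δ (RR b y (f 0) a) = -2 * θ 1 * RR b y (f 0) a - θ 2 * RR b y (f 1) a +
        br (Av y δ) (RR b y (f 0)) a := by
      rw [hY, hθ]
      simp only [br_add_left, br_smul_left, bself, b10, b20]
      have e1 : θ 0 • (0 : Fin 3 → ℂ) + θ 1 • (-2 : ℂ) • f 0 + θ 2 • -f 1 =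
          (-2 * θ 1) • f 0 + (-θ 2) • f 1 := by module
      rw [e1, had, hsm, hsm]
      ring
    have y1 : δ (RR b y (f 1) a) = 2 * θ 0 * RR b y (f 0) a - 2 * θ 2 * RR b y (f 2) a +
        br (Av y δ) (RR b y (f 1)) a := by
      rw [hY, hθ]
      simp only [br_add_left, br_smul_left, bself, b01, b21]
      have e1 : θ 0 • (2 : ℂ) • f 0 + θ 1 • (0 : Fin 3 → ℂ) + θ 2 • (-2 : ℂ) • f 2 =
          (2 * θ 0) • f 0 + (-2 * θ 2) • f 2 := by module
      rw [e1, had, hsm, hsm]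
      ring
    have y2 : δ (RR b y (f 2) a) = θ 0 * RR b y (f 1) a + 2 * θ 1 * RR b y (f 2) a +
        br (Av y δ) (RR b y (f 2)) a := by
      rw [hY, hθ]
      simp only [br_add_left, br_smul_left, bself, b02, b12]
      have e1 : θ 0 • f 1 + θ 1 • (2 : ℂ) • f 2 + θ 2 • (0 : Fin 3 → ℂ) =
          θ 0 • f 1 + (2 * θ 1) • f 2 := by module
      rw [e1, had, hsm, hsm]
    have g0 : br θ (eb 0) = (-2 * θ 1) • eb 0 + (-θ 2) • eb 1 := by
      apply ext3 <;> simp only [br0, br1, br2, Pi.add_apply, Pi.smul_apply, smul_eq_mul, eb00, eb01,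
        eb02, eb10, eb11, eb12] <;> ring
    have g1 : br θ (eb 1) = (2 * θ 0) • eb 0 + (-2 * θ 2) • eb 2 := by
      apply ext3 <;> simp only [br0, br1, br2, Pi.add_apply, Pi.smul_apply, smul_eq_mul, eb00, eb01,
        eb02, eb10, eb11, eb12, eb20, eb21, eb22] <;> ring
    have g2 : br θ (eb 2) = θ 0 • eb 1 + (2 * θ 1) • eb 2 := by
      apply ext3 <;> simp only [br0, br1, br2, Pi.add_apply, Pi.smul_apply, smul_eq_mul, eb20, eb21,
        eb22, eb10, eb11, eb12] <;> ring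
    have x0 : δ (RR b x (eb 0) c) = -2 * θ 1 * RR b x (eb 0) c - θ 2 * RR b x (eb 1) c +
        br (Av x δ) (RR b x (eb 0)) c := by
      rw [hXk, g0, had, hsm, hsm]
      ring
    have x1 : δ (RR b x (eb 1) c) = 2 * θ 0 * RR b x (eb 0) c - 2 * θ 2 * RR b x (eb 2) c +
        br (Av x δ) (RR b x (eb 1)) c := by
      rw [hXk, g1, had, hsm, hsm]
      ring
    have x2 : δ (RR b x (eb 2) c) = θ 0 * RR b x (eb 1) c + 2 * θ 1 * RR b x (eb 2) c +
        br (Av x δ) (RR b x (eb 2)) c := by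
      rw [hXk, g2, had, hsm, hsm]
    have hR : br (Av x δ) (N a) c = 1 / 2 * RR b y (f 1) a * br (Av x δ) (RR b x (eb 1)) c -
        RR b y (f 0) a * br (Av x δ) (RR b x (eb 2)) c -
        RR b y (f 2) a * br (Av x δ) (RR b x (eb 0)) c := by
      rw [hNv, br_add_right, br_add_right, br_smul_right, br_smul_right, br_smul_right]
      simp only [Pi.add_apply, Pi.smul_apply, smul_eq_mul]
      ring
    have hRy : br (Av y δ) (fun i => N i c) a = 1 / 2 * br (Av y δ) (RR b y (f 1)) a * RR b x (eb 1) c -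
        br (Av y δ) (RR b y (f 0)) a * RR b x (eb 2) c -
        br (Av y δ) (RR b y (f 2)) a * RR b x (eb 0) c := by
      have e : (fun i => N i c) = (1 / 2 * RR b x (eb 1) c) • RR b y (f 1) + ((-(RR b x (eb 2) c)) • RR b y (f 0)
          + (-(RR b x (eb 0) c)) • RR b y (f 2)) := by
        funext i
        simp only [hN, Pi.add_apply, Pi.smul_apply, smul_eq_mul]
        ring
      rw [e, br_add_right, br_add_right, br_smul_right, br_smul_right, br_smul_right]
      simp only [Pi.add_apply, Pi.smul_apply, smul_eq_mul]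
      ring
    have hhalf : ∀ z : ℂ, δ (1 / 2 * z) = 1 / 2 * δ z := by
      intro z
      rw [show (1 / 2 : ℂ) * z = z / 2 by ring, dinvn]
      ring
    rw [hR, hRy]
    change δ (1 / 2 * RR b y (f 1) a * RR b x (eb 1) c - RR b y (f 0) a * RR b x (eb 2) c -
      RR b y (f 2) a * RR b x (eb 0) c) = _
    have e13 : δ (1 / 2 * RR b y (f 1) a * RR b x (eb 1) c) =
        1 / 2 * (δ (RR b y (f 1) a) * RR b x (eb 1) c + RR b y (f 1) a * δ (RR b x (eb 1) c)) := by
      rw [mul_assoc, hhalf, dmul]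
    have e14 := dmul δ (RR b y (f 0) a) (RR b x (eb 2) c)
    have e15 := dmul δ (RR b y (f 2) a) (RR b x (eb 0) c)
    rw [map_sub, map_sub, e13, e14, e15, y0, y1, y2, x0, x1, x2]
    ring
  have hvan := vanish hx hy hDg hw hδN
  refine mob_of hx hy hb hDb (Dt_ne hy hb hDy hDg') ?_ hDf b01 b02 b12 hvan
  · intro h0
    have h5 := hker' (d 2) (hd 2) h0
    rw [(hdx 2).1] at h5
    have h6 := congrFun h5 2
    rw [eb22] at h6
    exact one_ne_zero h6

/-- **the pair theorem, general case** -/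
theorem pair_or (hx : x.Ok) (hy : y.Ok) (hb : b ≠ 0) (hF : Free b x) (hDb : D b = 0)
    (hDx : Th b x D = 0) (hDy : Th b y D = 0) (hDg : D (gg x) ≠ 0) (hDg' : D (gg y) ≠ 0)
    (hFy : ∀ a, ∃ δ ∈ DF (Cst D), Th b y δ = a) :
    (∀ a : Fin 3 → ℂ, P2 b x y D a 0) ∨ (gg y ∈ clo (Cst D) {gg x} ∧ MobRel (Cst D) x.t y.t) := by
  have hex : gg x ∈ clo (Cst D) {gg y} → gg y ∈ clo (Cst D) {gg x} := by
    intro h δ hδ hs
    by_contra hne
    have h1 := h (D + (-(D (gg y) / δ (gg y))) • δ) ((DF _).add_mem (D_mem D) ((DF _).smul_mem _ hδ)) (by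
      intro s hs'
      rw [Set.mem_singleton_iff.1 hs', Derivation.add_apply, Derivation.smul_apply, smul_eq_mul, neg_mul,
        div_mul_cancel₀ _ hne, add_neg_cancel])
    rw [Derivation.add_apply, Derivation.smul_apply, smul_eq_mul, hs _ rfl, mul_zero, add_zero] at h1
    exact hDg h1
  by_cases hw : gg y ∈ clo (Cst D) {gg x}
  · rcases pair_ia hx hy hb hF hDb hDx hDy hDg hDg' hFy hw with h | h
    · exact Or.inl h
    · exact Or.inr ⟨hw, h⟩
  · exact Or.inl (pair hx hy hb hF hDb hDx hDy hDg hFy hw fun h => hw (hex h))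

end Pool.Agent.H445.MJ
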