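import Pool.Agent.H445.MJ.Isog

/-!
# The rank theorem for several points of the upper half-plane
-/

set_option autoImplicit false

open Finset Module

noncomputable section

namespace Pool.Agent.H445.MJ

open H667R3 Pool.Agent.W245.EB
open Pool.Agent.Y685 Pool.Agent.TH813.Ell Pool.Agent.Y776 Pool.Agent.Y776.Fam Pool.Agent.Y776.AxJ
open Pool.Agent.TH813.Rel (DF MK exists_derF bracket_mem)

variable {n s : ℕ} {X : Fin n → Qd} {t : Fin s → ℂ} {b : ℂ} {D δ δ' : Derivation ℚ ℂ ℂ}

/-- the hypotheses on the period matrices -/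
structure HypP (b : ℂ) (X : Fin n → Qd) (D : Derivation ℚ ℂ ℂ) : Prop where
  ok : ∀ i, (X i).Ok
  b0 : b ≠ 0
  Db : D b = 0
  th : ∀ i, Th b (X i) D = 0
  ng : ∀ i, D (gg (X i)) ≠ 0
  free : ∀ i, Free b (X i)
  ind : ∀ i k, i ≠ k → ∀ a : Fin 3 → ℂ, P2 b (X i) (X k) D a 0

/-- the forms of the period matrices are independent -/
theorem HypP.surj1 (h : HypP b X D) (σ : Fin n → Fin 3 → ℂ) :
    ∃ δ ∈ DF (Cst D), ∀ i, Th b (X i) δ = σ i := by
  classical
  let S : Submodule ℂ (Fin n → Fin 3 → ℂ) :=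
    { carrier := {σ | ∃ δ ∈ DF (Cst D), ∀ i, Th b (X i) δ = σ i}
      add_mem' := by
        rintro v w ⟨δ, hδ, hv⟩ ⟨δ', hδ', hw⟩
        exact ⟨δ + δ', (DF _).add_mem hδ hδ', fun i => by rw [Th_add, hv, hw, Pi.add_apply]⟩
      zero_mem' := ⟨0, (DF _).zero_mem, fun i => by
        have h := Th_smul (b := b) (x := X i) (δ := (0 : Derivation ℚ ℂ ℂ)) 0
        rw [zero_smul, zero_smul] at h
        rw [h, Pi.zero_apply]⟩
      smul_mem' := by
        rintro c v ⟨δ, hδ, hv⟩
        exact ⟨c • δ, (DF _).smul_mem c hδ, fun i => by rw [Th_smul, hv, Pi.smul_apply]⟩ }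
  refine generate S ?_ ?_ ?_ σ
  · rintro v ⟨δ, hδ, hv⟩ w ⟨δ', hδ', hw⟩
    obtain ⟨E, hE, hEv⟩ := SS_closed (X := X) (fun i => (h.ok i).dl) h.b0 h.Db h.th
      (s := fun p => v p.1 p.2) (t := fun p => w p.1 p.2)
      ⟨δ, hδ, fun i k => congrFun (hv i) k⟩ ⟨δ', hδ', fun i k => congrFun (hw i) k⟩
    exact ⟨E, hE, fun i => funext fun k => hEv i k⟩
  · intro i a
    obtain ⟨δ, hδ, h1, -⟩ := (h.free i).th (h.ok i) h.b0 h.Db (h.th i) (h.ng i) a 0
    exact ⟨fun j => Th b (X j) δ, ⟨δ, hδ, fun _ => rfl⟩, h1⟩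
  · intro i k hik a
    obtain ⟨δ, hδ, h1, h2⟩ := h.ind i k hik a
    exact ⟨fun j => Th b (X j) δ, ⟨δ, hδ, fun _ => rfl⟩, h1, h2⟩

/-- **the forms of the period matrices and of the exponentials are independent** -/
theorem HypP.surj2 (h : HypP b X D) (ht : ∀ k, Tf D (t k) = 0)
    (hti : ∀ q : Fin s → ℚ, D (∑ k, q k • t k) = 0 → q = 0) (v : Nf n s → ℂ) :
    v ∈ ST b X t D := by
  classical
  -- the first part
  have hl : ∀ σ : Fin n → Fin 3 → ℂ, (Sum.elim (fun p => σ p.1 p.2) 0 : Nf n s → ℂ) ∈ ST b X t D := by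
    have key : ∀ i k, (Sum.elim (fun p => Pi.single (M := fun _ => Fin 3 → ℂ) i (eb k) p.1 p.2) 0 :
        Nf n s → ℂ) ∈ ST b X t D := by
      intro i k
      obtain ⟨u, w, huw⟩ := eb_br k
      obtain ⟨δ, hδ, h1⟩ := h.surj1 (Pi.single i u)
      obtain ⟨δ', hδ', h2⟩ := h.surj1 (Pi.single i w)
      have h3 := ST_closed (t := t) (fun i => (h.ok i).dl) h.b0 h.Db h.th ht
        (show Fo b X t δ ∈ ST b X t D from ⟨δ, hδ, rfl⟩)
        (show Fo b X t δ' ∈ ST b X t D from ⟨δ', hδ', rfl⟩)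
      convert h3 using 1
      funext p
      rcases p with ⟨j, m⟩ | m
      · change Pi.single (M := fun _ => Fin 3 → ℂ) i (eb k) j m =
          br (Th b (X j) δ) (Th b (X j) δ') m
        rw [h1, h2]
        by_cases hji : j = i
        · subst hji
          rw [Pi.single_eq_same, Pi.single_eq_same, Pi.single_eq_same, huw]
        · rw [Pi.single_eq_of_ne hji, Pi.single_eq_of_ne hji, br_zero_left]
      · rfl
    intro σ
    have h4 : (Sum.elim (fun p => σ p.1 p.2) 0 : Nf n s → ℂ) = ∑ i, ∑ k, σ i k •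
        (Sum.elim (fun p => Pi.single (M := fun _ => Fin 3 → ℂ) i (eb k) p.1 p.2) 0 :
        Nf n s → ℂ) := by
      funext p
      rw [Finset.sum_apply]
      simp only [Finset.sum_apply, Pi.smul_apply, smul_eq_mul]
      rcases p with ⟨j, m⟩ | m
      · simp only [Sum.elim_inl]
        rw [Finset.sum_eq_single j]
        · simp only [Pi.single_eq_same]
          rw [Finset.sum_eq_single m]
          · rw [eb, Pi.single_eq_same, mul_one]
          · intro k _ hk
            rw [eb, Pi.single_eq_of_ne (Ne.symm hk), mul_zero]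
          · intro hcon; exact absurd (Finset.mem_univ m) hcon
        · intro i _ hi
          simp only [Pi.single_eq_of_ne (Ne.symm hi), Pi.zero_apply, mul_zero, Finset.sum_const_zero]
        · intro hcon; exact absurd (Finset.mem_univ j) hcon
      · simp only [Sum.elim_inr, Pi.zero_apply, mul_zero, Finset.sum_const_zero]
    rw [h4]
    exact Submodule.sum_mem _ fun i _ => Submodule.sum_mem _ fun k _ =>
      Submodule.smul_mem _ _ (key i k)
  -- the second part
  let W : Submodule ℂ (Fin s → ℂ) :=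
    { carrier := {w | (Sum.elim 0 w : Nf n s → ℂ) ∈ ST b X t D}
      add_mem' := fun {w w'} h1 h2 => by
        have h3 := (ST b X t D).add_mem (show (Sum.elim 0 w : Nf n s → ℂ) ∈ ST b X t D from h1)
          (show (Sum.elim 0 w' : Nf n s → ℂ) ∈ ST b X t D from h2)
        have h4 : (Sum.elim 0 (w + w') : Nf n s → ℂ) =
            (Sum.elim 0 w : Nf n s → ℂ) + (Sum.elim 0 w' : Nf n s → ℂ) := by
          funext p
          rcases p with p | p
          · exact (add_zero _).symm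
          · rfl
        change (Sum.elim 0 (w + w') : Nf n s → ℂ) ∈ ST b X t D
        rw [h4]
        exact h3
      zero_mem' := by
        change (Sum.elim 0 0 : Nf n s → ℂ) ∈ ST b X t D
        have h4 : (Sum.elim 0 0 : Nf n s → ℂ) = 0 := by
          funext p
          rcases p with p | p <;> rfl
        rw [h4]
        exact Submodule.zero_mem _
      smul_mem' := fun c w h1 => by
        have h3 := (ST b X t D).smul_mem c (show (Sum.elim 0 w : Nf n s → ℂ) ∈ ST b X t D from h1)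
        have h4 : (Sum.elim 0 (c • w) : Nf n s → ℂ) = c • (Sum.elim 0 w : Nf n s → ℂ) := by
          funext p
          rcases p with p | p
          · exact (smul_zero c).symm
          · rfl
        change (Sum.elim 0 (c • w) : Nf n s → ℂ) ∈ ST b X t D
        rw [h4]
        exact h3 }
  have hWδ : ∀ δ ∈ DF (Cst D), (fun k => Tf δ (t k)) ∈ W := by
    intro δ hδ
    have h1 := Submodule.sub_mem _ (show Fo b X t δ ∈ ST b X t D from ⟨δ, hδ, rfl⟩)
      (hl fun i => Th b (X i) δ)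
    have h2 : (Sum.elim 0 (fun k => Tf δ (t k)) : Nf n s → ℂ) = Fo b X t δ -
        Sum.elim (fun p => Th b (X p.1) δ p.2) 0 := by
      funext p
      rcases p with p | p
      · exact (sub_self _).symm
      · exact (sub_zero _).symm
    change (Sum.elim 0 (fun k => Tf δ (t k)) : Nf n s → ℂ) ∈ ST b X t D
    rw [h2]
    exact h1
  have hWD : ∀ w ∈ W, (fun k => D (w k)) ∈ W := by
    intro w hw
    have h1 := ST_D (t := t) (fun i => (h.ok i).dl) h.b0 h.Db h.th ht hw
    have h2 : (Sum.elim 0 (fun k => D (w k)) : Nf n s → ℂ) =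
        fun p => D ((Sum.elim 0 w : Nf n s → ℂ) p) := by
      funext p
      rcases p with p | p
      · exact (map_zero D).symm
      · rfl
    change (Sum.elim 0 (fun k => D (w k)) : Nf n s → ℂ) ∈ ST b X t D
    rw [h2]
    exact h1
  have hWtop : W = ⊤ := by
    by_contra hne
    obtain ⟨φ, hφ, hφ2⟩ := Submodule.exists_le_ker_of_lt_top W (lt_top_iff_ne_top.2 hne)
    have hφs : ∀ w, φ w = ∑ k, φ (Pi.single k 1) * w k := by
      intro w
      conv_lhs => rw [← Finset.univ_sum_single w]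
      rw [map_sum]
      refine Finset.sum_congr rfl fun k _ => ?_
      have : Pi.single k (w k) = (w k) • (Pi.single k (1 : ℂ) : Fin s → ℂ) := by
        rw [← Pi.single_smul, smul_eq_mul, mul_one]
      rw [this, map_smul, smul_eq_mul, mul_comm]
    obtain ⟨c, hcW, hc0, hcD⟩ := exists_const_vec D {a : Fin s → ℂ | ∀ w ∈ W, ∑ k, a k * w k = 0}
      (fun a ha i _ w hw => by
        have h1 := ha w hw
        have e : ∑ k, a k / a i * w k = (∑ k, a k * w k) / a i := by
          rw [Finset.sum_div]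
          exact Finset.sum_congr rfl fun k _ => by ring
        rw [e, h1, zero_div])
      (fun a ha w hw => by
        have h1 := congrArg D (ha w hw)
        rw [map_sum, map_zero] at h1
        have h2 : ∑ k, D (a k * w k) = ∑ k, D (a k) * w k + ∑ k, a k * D (w k) := by
          rw [← Finset.sum_add_distrib]
          exact Finset.sum_congr rfl fun k _ => dmul D _ _
        rw [h2, ha _ (hWD w hw), add_zero] at h1
        exact h1)
      (a := fun k => φ (Pi.single k 1)) (fun w hw => by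
        rw [← hφs]
        exact hφ2 hw)
      (by
        intro h0
        apply hφ
        ext w
        change φ _ = 0
        rw [hφs]
        exact Finset.sum_eq_zero fun k _ => by rw [show φ (Pi.single k 1) = 0 from congrFun h0 k, zero_mul])
    have hrel : ∀ δ : Derivation ℚ ℂ ℂ, (∀ w ∈ Cst D, δ w = 0) →
        δ (∑ k, c k * t k) = ∑ k, c k * (δ (Complex.exp (t k)) / Complex.exp (t k)) := by
      intro δ hδ
      have h1 := hcW _ (hWδ δ hδ)
      have h2 : ∑ k, c k * Tf δ (t k) = ∑ k, c k * δ (t k) -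
          ∑ k, c k * (δ (Complex.exp (t k)) / Complex.exp (t k)) := by
        rw [← Finset.sum_sub_distrib]
        refine Finset.sum_congr rfl fun k _ => ?_
        rw [Tf, lg]
        ring
      rw [h2, sub_eq_zero] at h1
      rw [← h1, map_sum]
      refine Finset.sum_congr rfl fun k _ => ?_
      rw [dmul, hδ (c k) (hcD k), zero_mul, zero_add]
    have hex := Pool.Agent.TH813.Ros.exact (Cst D) c (fun k => Complex.exp (t k)) hcD
      (fun k => Complex.exp_ne_zero _) _ hrel
    have hrat := Pool.Agent.TH813.Ros.rational (Cst D) c (fun k => Complex.exp (t k)) hcD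
      (fun k => Complex.exp_ne_zero _) (fun δ hδ => by rw [← hrel δ hδ, hex δ hδ])
    apply hc0
    funext k
    by_contra hck
    have hck : c k ≠ 0 := hck
    obtain ⟨ψ, hψ⟩ : ∃ ψ : ℂ →ₗ[ℚ] ℚ, ψ (c k) ≠ 0 := by
      by_contra hcon
      push Not at hcon
      exact hck ((Module.forall_dual_apply_eq_zero_iff ℚ (c k)).1 hcon)
    have h5 := hrat ψ D (D_mem D)
    have h6 : D (∑ k, ψ (c k) • t k) = 0 := by
      rw [map_sum, ← h5]
      refine Finset.sum_congr rfl fun k _ => ?_
      rw [D.map_smul, Rat.smul_def, D_exp (ht k), mul_div_cancel_left₀ _ (Complex.exp_ne_zero _)]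
    exact hψ (congrFun (hti _ h6) k)
  have h5 : v = (Sum.elim (fun p => (fun i k => v (Sum.inl (i, k))) p.1 p.2) 0 : Nf n s → ℂ) +
      (Sum.elim 0 (fun k => v (Sum.inr k)) : Nf n s → ℂ) := by
    funext p
    rcases p with p | p
    · exact (add_zero _).symm
    · exact (zero_add _).symm
  rw [h5]
  refine Submodule.add_mem _ (hl fun i k => v (Sum.inl (i, k))) ?_
  have h6 : (fun k => v (Sum.inr k)) ∈ W := by
    rw [hWtop]
    trivial
  exact h6

/-- **the rank theorem** -/
theorem HypP.rank (h : HypP b X D) (hn : 0 < n) (ht : ∀ k, Tf D (t k) = 0)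
    (hti : ∀ q : Fin s → ℚ, D (∑ k, q k • t k) = 0 → q = 0) :
    ((3 * n + s + 1 : ℕ) : ℕ∞) ≤ (MK (Cst D)).eRk (NX X ∪ ET t) := by
  classical
  by_contra hcon
  push Not at hcon
  have hDt := Dt_ne (h.ok ⟨0, hn⟩) h.b0 (h.th _) (h.ng _)
  set u := (X ⟨0, hn⟩).t with hu
  let f : DF (Cst D) →ₗ[ℂ] (Nf n s ⊕ Unit → ℂ) :=
    { toFun := fun δ => Sum.elim (Fo b X t (δ : Derivation ℚ ℂ ℂ))
        (fun _ => (δ : Derivation ℚ ℂ ℂ) u)
      map_add' := fun δ δ' => by
        funext k
        rcases k with k | k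
        · exact congrFun Fo_add k
        · rfl
      map_smul' := fun c δ => by
        funext k
        rcases k with k | k
        · exact congrFun (Fo_smul c) k
        · rfl }
  obtain ⟨a, ha0, ha⟩ := exists_rel ((NX_finite X).union (ET_finite t)) f (fun δ hδ => by
    have hk : ∀ i, ∀ z ∈ ({(X i).t, (X i).h, (X i).p, (X i).q} : Set ℂ),
        (δ : Derivation ℚ ℂ ℂ) z = 0 := fun i z hz => hδ z (Or.inl (Set.mem_iUnion.2 ⟨i, hz⟩))
    funext k
    rcases k with (⟨i, k⟩ | k) | k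
    · change Th b (X i) (δ : Derivation ℚ ℂ ℂ) k = 0
      rw [Th_kill (hk i _ (by simp)) (hk i _ (by simp)) (hk i _ (by simp)) (hk i _ (by simp))]
      rfl
    · exact Tf_of_kill (hδ _ (Or.inr (Or.inl ⟨k, rfl⟩))) (hδ _ (Or.inr (Or.inr ⟨k, rfl⟩)))
    · exact hk ⟨0, hn⟩ _ (by simp [hu])) (by
    rw [Fintype.card_sum, Fintype.card_sum, Fintype.card_prod, Fintype.card_fin, Fintype.card_fin,
      Fintype.card_fin, Fintype.card_unit, mul_comm n 3]
    exact hcon)
  apply ha0
  funext k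
  obtain ⟨δ, hδ⟩ : ∃ δ : DF (Cst D), f δ = Pi.single k 1 := by
    obtain ⟨δ, hδ, h1⟩ := h.surj2 ht hti (fun p => Pi.single (M := fun _ => ℂ) k 1 (Sum.inl p))
    have hFD : Fo b X t D = 0 := by
      funext p
      rcases p with ⟨i, m⟩ | m
      · exact congrFun (h.th i) m
      · exact ht m
    refine ⟨⟨δ + ((Pi.single (M := fun _ => ℂ) k 1 (Sum.inr ()) - δ u) / D u) • D,
      (DF _).add_mem hδ ((DF _).smul_mem _ (D_mem D))⟩, ?_⟩
    funext p
    rcases p with p | p
    · change Fo b X t (δ + ((Pi.single (M := fun _ => ℂ) k 1 (Sum.inr ()) - δ u) / D u) • D) p = _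
      rw [Fo_add, Fo_smul, hFD, smul_zero, add_zero, h1]
    · change (δ + ((Pi.single (M := fun _ => ℂ) k 1 (Sum.inr ()) - δ u) / D u) • D) u = _
      rw [Derivation.add_apply, Derivation.smul_apply, smul_eq_mul, div_mul_cancel₀ _ hDt,
        add_sub_cancel]
  have h2 := ha δ
  rw [hδ, Finset.sum_eq_single k] at h2
  · rw [Pi.single_eq_same, mul_one] at h2
    exact h2
  · intro j _ hj
    rw [Pi.single_eq_of_ne hj, mul_zero]
  · intro hc; exact absurd (Finset.mem_univ k) hc


/-- a derivation which is compatible with the differential equations at a point -/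
structure Cj (D : Derivation ℚ ℂ ℂ) (τ : ℂ) : Prop where
  h : D (h1 τ) = (be0 * h1 τ ^ 2 - be0 * (LC τ).g₂ / 12) * D τ
  p : D (LC τ).g₂ = (4 * be0 * h1 τ * (LC τ).g₂ - 6 * be0 * (LC τ).g₃) * D τ
  q : D (LC τ).g₃ = (6 * be0 * h1 τ * (LC τ).g₃ - be0 * (LC τ).g₂ ^ 2 / 3) * D τ

theorem ok_of_T0 {τ : ℂ} (hτ : 0 < τ.im) (hT : τ ∉ T0) : (QL τ).Ok := QL_ok (T0_spec.2 τ hτ hT)

/-- **the rank theorem at points** -/
theorem rank_tau {τ : Fin n → ℂ} (him : ∀ i, 0 < (τ i).im) (hT : ∀ i, τ i ∉ T0)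
    (hGL : ∀ i k, i ≠ k → ¬ GL2Q (τ i) (τ k)) (hDb : D be0 = 0) (hC : ∀ i, Cj D (τ i))
    (hD : ∀ i, D (τ i) ≠ 0) (hn : 0 < n) (ht : ∀ k, Tf D (t k) = 0)
    (hti : ∀ q : Fin s → ℚ, D (∑ k, q k • t k) = 0 → q = 0) :
    ((3 * n + s + 1 : ℕ) : ℕ∞) ≤ (MK (Cst D)).eRk (NX (fun i => QL (τ i)) ∪ ET t) := by
  have hok : ∀ i, (QL (τ i)).Ok := fun i => ok_of_T0 (him i) (hT i)
  have hfl : ∀ i, Th be0 (QL (τ i)) D = 0 ∧ fb (QL (τ i)) D = be0 * D (τ i) := fun i =>
    th_of_flow (hok i) be0_ne rfl (hC i).h (hC i).p (hC i).q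
  have hng : ∀ i, D (gg (QL (τ i))) ≠ 0 := by
    intro i
    have hp := (hok i).p0
    have hq := (hok i).q0
    have hd := (hok i).dl
    have e1 : D (gg (QL (τ i))) = 2 / 3 * fb (QL (τ i)) D * (QL (τ i)).p ^ 2 * (QL (τ i)).dl / (QL (τ i)).q ^ 3 := by
      rw [d_gg (hok i), Qd.dl]
      field_simp
      ring
    rw [e1, (hfl i).2]
    exact div_ne_zero (mul_ne_zero (mul_ne_zero (mul_ne_zero (by norm_num)
      (mul_ne_zero be0_ne (hD i))) (pow_ne_zero 2 hp)) hd) (pow_ne_zero 3 hq)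
  refine HypP.rank (X := fun i => QL (τ i)) ⟨hok, be0_ne, hDb, fun i => (hfl i).1, hng,
    fun i => free_LC (him i) (hT i), ?_⟩ hn ht hti
  intro i k hik
  rcases pair_or (hok i) (hok k) be0_ne (free_LC (him i) (hT i)) hDb (hfl i).1 (hfl k).1 (hng i) (hng k)
    (fun a => by
      obtain ⟨δ, hδ, h1, -⟩ := (free_LC (him k) (hT k)).th (hok k) be0_ne hDb (hfl k).1 (hng k) a 0
      exact ⟨δ, hδ, h1⟩) with h | ⟨h, h'⟩
  · exact h
  · exact absurd (isog (him i) (him k) (hok i) (hok k) hDb (hfl i).1 (hfl k).1 (hD i) h h') (hGL i k hik)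

end Pool.Agent.H445.MJ
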