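import Pool.Agent.H445.MJ.AlgPt
import Pool.Graph.R_seed8.Y776.AxJ.Fun

/-!
# Failures of the modular Schanuel inequality: reduction to a closed field
-/

set_option autoImplicit false

open Set Module MvPolynomial
open Pool.Agent.TH813.Rel (DF MK subset_cl rk_le_of_subset_cl cl_of_base exists_derF)
open Pool.Agent.Y685
open Pool.Agent.Y776 (T0 T0_spec be0 jf)
open Pool.Agent.Y776.AxJ
open Pool.Agent.W245.EB Pool.Agent.TH813.Ell H667R3

noncomputable section

namespace Pool.Agent.H445.MJ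

variable {n : ℕ} {K : Subfield ℂ}

/-- the numbers of a point: `z, j (z)` or `z, j (z), j' (z), j'' (z)` -/
def Sg : Bool → ℂ → Set ℂ
  | false, z => {z, jf z}
  | true, z => {z, jf z, deriv jf z, deriv (deriv jf) z}

/-- the bound for one point -/
def rr : Bool → ℕ
  | false => 1
  | true => 3

theorem Sg_finite (r : Bool) (z : ℂ) : (Sg r z).Finite := by
  cases r
  · exact Set.toFinite ({z, jf z} : Set ℂ)
  · exact Set.toFinite ({z, jf z, deriv jf z, deriv (deriv jf) z} : Set ℂ)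

theorem Sg_encard (r : Bool) (z : ℂ) : (Sg r z).encard ≤ (rr r + 1 : ℕ) := by
  cases r
  · refine (Set.encard_insert_le _ _).trans ?_
    rw [Set.encard_singleton]
    norm_num [rr]
  · refine (Set.encard_insert_le _ _).trans ?_
    refine (add_le_add_left (Set.encard_insert_le _ _) _).trans ?_
    refine (add_le_add_left (add_le_add_left (Set.encard_insert_le _ _) _) _).trans ?_
    rw [Set.encard_singleton]
    norm_num [rr]

/-- the numbers of a set of points -/
def SgS (r : Bool) (S : Set ℂ) : Set ℂ := ⋃ τ ∈ S, Sg r τ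

theorem SgS_finite (r : Bool) {S : Set ℂ} (hS : S.Finite) : (SgS r S).Finite := hS.biUnion fun τ _ => Sg_finite r τ

theorem SgS_union (r : Bool) (S T : Set ℂ) : SgS r (S ∪ T) = SgS r S ∪ SgS r T := biUnion_union _ _ _

theorem SgS_mono (r : Bool) {S T : Set ℂ} (h : S ⊆ T) : SgS r S ⊆ SgS r T := biUnion_subset_biUnion_left h

theorem self_mem_Sg (r : Bool) (z : ℂ) : z ∈ Sg r z := by
  cases r <;> exact Or.inl rfl

/-- the numbers of a point in terms of the lattice numbers -/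
theorem Sg_mem {F : IntermediateField ℚ ℂ} {τ : ℂ} (hτ : 0 < τ.im) (hb : be0 ∈ F) (h0 : τ ∈ F) (e1 : h1 τ ∈ F)
    (e2 : (LC τ).g₂ ∈ F) (e3 : (LC τ).g₃ ∈ F) (r : Bool) : Sg r τ ⊆ F := by
  have hd : dlf τ ∈ F := sub_mem (pow_mem e2 3) (mul_mem (ofNat_mem F 27) (pow_mem e3 2))
  have m1 : jf τ ∈ F := by
    change 1728 * (LC τ).g₂ ^ 3 / dlf τ ∈ F
    exact div_mem (mul_mem (ofNat_mem F 1728) (pow_mem e2 3)) hd
  have m2 : deriv jf τ ∈ F := by
    rw [deriv_j hτ]
    exact div_mem (mul_mem (mul_mem (mul_mem (neg_mem (ofNat_mem F 31104)) hb) (pow_mem e2 2)) e3) hd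
  have m3 : deriv (deriv jf) τ ∈ F := by
    rw [deriv_dj hτ]
    refine div_mem (mul_mem (mul_mem (neg_mem (ofNat_mem F 31104)) (pow_mem hb 2)) (sub_mem (sub_mem ?_ ?_) ?_)) hd
    · exact mul_mem (mul_mem (mul_mem (ofNat_mem F 2) e1) (pow_mem e2 2)) e3
    · exact mul_mem (mul_mem (ofNat_mem F 12) e2) (pow_mem e3 2)
    · exact div_mem (pow_mem e2 4) (ofNat_mem F 3)
  cases r
  · rintro x (rfl | rfl)
    · exact h0
    · exact m1
  · rintro x (rfl | rfl | rfl | rfl)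
    · exact h0
    · exact m1
    · exact m2
    · exact m3

theorem clo_le_IFd' (hK : FldJ K) {C : IntermediateField ℚ ℂ} (hC : C ≤ IFd K) {A : Set ℂ}
    (hA : A ⊆ K) : clo C A ≤ IFd K := by
  intro x hx
  by_contra hxK
  have htr : Transcendental (IFd K) x := fun h => hxK (hK.alg x h)
  have hai : AlgebraicIndependent (IFd K) (fun _ : Unit => x) :=
    algebraicIndependent_unique_type_iff.2 htr
  obtain ⟨D, hD, hD1⟩ := exists_derF (IFd K) hai (fun _ => 1)
  have h1 : D x = 0 := hx D (fun c hc => hD c (hC hc)) (fun s hs => hD s (hA hs))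
  rw [hD1 ()] at h1
  exact one_ne_zero h1

theorem FldJ.Sg_mem (hK : FldJ K) {τ : ℂ} (hτ : 0 < τ.im) (h0 : τ ∈ K) (r : Bool) : Sg r τ ⊆ IFd K :=
  MJ.Sg_mem (F := IFd K) hτ hK.be h0 (hK.val τ h0 0) (hK.val τ h0 1) (hK.val τ h0 2) r

/-- the rank over a closed field of the numbers of points outside of it -/
theorem rank_Sg (hK : FldJ K) (r : Bool) (S : Finset ℂ) (hS : ∀ τ ∈ S, 0 < τ.im ∧ τ ∉ T0) :
    (MK (IFd K)).eRk (NS S) + ((rr r * S.card : ℕ) : ℕ∞) ≤
      (MK (IFd K)).eRk (SgS r S) + ((3 * S.card : ℕ) : ℕ∞) := by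
  classical
  have hbe : be0 ∈ IFd K := hK.be
  cases r
  · -- `z, j (z)`
    have h1 : NS (S : Set ℂ) ⊆ (MK (IFd K)).closure (SgS false S ∪ (h1 '' S ∪ (fun t => (LC t).g₂) '' S)) := by
      intro x hx
      obtain ⟨τ, hτ, hx⟩ := mem_iUnion₂.1 hx
      obtain ⟨him, hT⟩ := hS τ hτ
      have hok := ok_of_T0 him hT
      rw [← mem_clo_iff]
      set C := clo (IFd K) (SgS false S ∪ (h1 '' S ∪ (fun t => (LC t).g₂) '' S)) with hC
      have c0 : τ ∈ C := subset_clo (Or.inl (mem_biUnion hτ (Or.inl rfl)))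
      have cj : jf τ ∈ C := subset_clo (Or.inl (mem_biUnion hτ (Or.inr rfl)))
      have ch : h1 τ ∈ C := subset_clo (Or.inr (Or.inl ⟨τ, hτ, rfl⟩))
      have cp : (LC τ).g₂ ∈ C := subset_clo (Or.inr (Or.inr ⟨τ, hτ, rfl⟩))
      rcases hx with rfl | rfl | rfl | rfl
      · exact c0
      · exact ch
      · exact cp
      · -- `g₃`
        intro δ hδ hs
        have hq0 : (LC τ).g₃ ≠ 0 := hok.q0
        have hp0 : (LC τ).g₂ ≠ 0 := hok.p0
        have hd0 := dlf_ne him
        have dp : δ (LC τ).g₂ = 0 := cp δ hδ hs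
        have dj : δ (jf τ) = 0 := cj δ hδ hs
        have e1 : (LC τ).g₃ ^ 2 = (LC τ).g₂ ^ 3 * (jf τ - 1728) / (27 * jf τ) := by
          have hj : jf τ = 1728 * (LC τ).g₂ ^ 3 / dlf τ := rfl
          have hj0 : jf τ ≠ 0 := by
            rw [hj]
            exact div_ne_zero (mul_ne_zero (by norm_num) (pow_ne_zero 3 hp0)) hd0
          rw [eq_div_iff (mul_ne_zero (by norm_num) hj0), hj]
          field_simp
          rw [dlf]
          ring
        have hmem : (LC τ).g₂ ^ 3 * (jf τ - 1728) / (27 * jf τ) ∈ clo (IFd K) {(LC τ).g₂, jf τ} :=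
          div_mem (mul_mem (pow_mem (subset_clo (Or.inl rfl)) 3)
            (sub_mem (subset_clo (Or.inr rfl)) (ofNat_mem _ 1728)))
            (mul_mem (ofNat_mem _ 27) (subset_clo (Or.inr rfl)))
        refine kill_of_pow two_ne_zero hq0 e1 (hmem δ hδ ?_)
        rintro s (rfl | rfl)
        · exact dp
        · exact dj
    have h2 : (MK (IFd K)).eRk (NS S) ≤ (MK (IFd K)).eRk (SgS false S) + ((2 * S.card : ℕ) : ℕ∞) := by
      refine (rk_le_of_subset_cl h1).trans (((MK _).eRk_union_le_eRk_add_encard _ _).trans ?_)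
      gcongr
      refine (encard_union_le _ _).trans ?_
      have h3 : ∀ f : ℂ → ℂ, (f '' (S : Set ℂ)).encard ≤ (S.card : ℕ) := fun f => by
        refine (encard_image_le _ _).trans ?_
        rw [encard_coe_eq_coe_finsetCard]
      refine (add_le_add (h3 _) (h3 _)).trans ?_
      rw [← Nat.cast_add]
      exact_mod_cast (by omega : S.card + S.card ≤ 2 * S.card)
    calc (MK (IFd K)).eRk (NS S) + ((rr false * S.card : ℕ) : ℕ∞)
        ≤ ((MK (IFd K)).eRk (SgS false S) + ((2 * S.card : ℕ) : ℕ∞)) + ((rr false * S.card : ℕ) : ℕ∞) := by gcongr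
      _ = (MK (IFd K)).eRk (SgS false S) + ((3 * S.card : ℕ) : ℕ∞) := by
          rw [add_assoc, ← Nat.cast_add]
          congr 2
          simp only [rr]
          ring
  · have h1 : NS (S : Set ℂ) ⊆ (MK (IFd K)).closure (SgS true S) := by
      intro x hx
      obtain ⟨τ, hτ, hx⟩ := mem_iUnion₂.1 hx
      obtain ⟨him, hT⟩ := hS τ hτ
      have hok := ok_of_T0 him hT
      rw [← mem_clo_iff]
      have mO : ∀ x ∈ Sg true τ, x ∈ clo (IFd K) (SgS true S) := fun x hx => subset_clo (mem_biUnion hτ hx)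
      obtain ⟨m2, m3, m4⟩ := mem_of_j him hok (K := clo (IFd K) (SgS true S)) (base_clo hbe)
        (mO _ (Or.inr (Or.inl rfl))) (mO _ (Or.inr (Or.inr (Or.inl rfl)))) (mO _ (Or.inr (Or.inr (Or.inr rfl))))
      rcases hx with rfl | rfl | rfl | rfl
      · exact mO _ (Or.inl rfl)
      · exact m2
      · exact m3
      · exact m4
    have h2 := rk_le_of_subset_cl h1
    simp only [rr]
    gcongr

/-- `n` points which miss the bound `rr n + c` by at least `m` -/
structure FailJ (r : Bool) (P : Set ℂ) (c n m : ℕ) (z : Fin n → ℂ) : Prop where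
  im : ∀ i, 0 < (z i).im
  ncm : ∀ i, ¬ CMp (z i)
  ineq : ∀ i k, i ≠ k → ¬ GL2Q (z i) (z k)
  rk : (MK (⊥ : IntermediateField ℚ ℂ)).eRk (P ∪ SgS r (range z)) + m ≤ ((rr r * n + c : ℕ) : ℕ∞)

theorem FailJ.inj {r : Bool} {P : Set ℂ} {c m : ℕ} {z : Fin n → ℂ} (h : FailJ r P c n m z) :
    Function.Injective z := by
  intro i k hik
  by_contra hne
  exact h.ineq i k hne (by rw [hik]; exact GL2Q.refl _)

/-- **Reduction of a failure to the closed field** -/
theorem FailJ.reduce {r : Bool} {P : Set ℂ} {c m : ℕ} {z : Fin n → ℂ} (h : FailJ r P c n m z) (hK : FldJ K)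
    (hP : P.Finite) (hPK : P ⊆ K) :
    (∃ (n₀ : ℕ) (z₀ : Fin n₀ → ℂ), finrank ℂ (Tan PJ K (PhJ z)) + n₀ ≤ n ∧
      FailJ r P c n₀ (m + finrank ℂ (Tan PJ K (PhJ z))) z₀) ∧
    (finrank ℂ (Tan PJ K (PhJ z)) = 0 → ∀ j, z j ∈ K) := by
  classical
  have hU : z ∈ UJ n := h.im
  set S : Finset ℂ := (Finset.univ.filter fun i => z i ∉ K).image z with hS
  set I : Finset (Fin n) := Finset.univ.filter fun i => z i ∈ K with hI
  have hScard : S.card + I.card = n := by
    rw [hS, Finset.card_image_of_injective _ h.inj, hI]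
    have := Finset.card_filter_add_card_filter_not (s := (Finset.univ : Finset (Fin n))) (fun i => z i ∈ K)
    rw [Finset.card_univ, Fintype.card_fin] at this
    omega
  have hSz : ∀ τ ∈ S, ∃ i, z i ∉ K ∧ z i = τ := by
    intro τ hτ
    obtain ⟨i, hi, rfl⟩ := Finset.mem_image.1 hτ
    exact ⟨i, (Finset.mem_filter.1 hi).2, rfl⟩
  have hST : ∀ τ ∈ S, 0 < τ.im ∧ τ ∉ T0 := by
    intro τ hτ
    obtain ⟨i, hi, rfl⟩ := hSz τ hτ
    exact ⟨h.im i, fun h0 => hi (hK.t0 _ h0)⟩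
  set Δ := CJ K z with hΔ
  have hΔF : Δ ≤ DF (IFd K) := inf_le_left
  have hch := chainJ (K := IFd K) hK.be hΔF _ S rfl hST (by
    intro τ hτ σ hσ hne
    obtain ⟨i, -, rfl⟩ := hSz τ hτ
    obtain ⟨k, -, rfl⟩ := hSz σ hσ
    exact h.ineq i k fun hik => hne (by rw [hik])) (by
    intro D hD τ hτ
    obtain ⟨i, -, rfl⟩ := hSz τ hτ
    exact (mem_CJ.1 hD).2 i) (by
    intro τ hτ
    obtain ⟨i, hi, rfl⟩ := hSz τ hτ
    exact hK.moves hU hi)
  set d := finrank ℂ (Tan PJ K (PhJ z)) with hd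
  have hd1 : d ≤ finrank ℂ (Δ.map (rsJ S)) := by
    let ev : Derivation ℚ ℂ ℂ →ₗ[ℂ] (Fin n → ℂ) :=
      { toFun := fun D j => D (z j)
        map_add' := fun _ _ => rfl
        map_smul' := fun _ _ => rfl }
    have h4 : Tan PJ K (PhJ z) ≤ Δ.map ev := by
      intro v hv
      obtain ⟨D, hD, h5⟩ := Tan_CJ hv
      exact ⟨D, hD, funext h5⟩
    refine (Submodule.finrank_mono h4).trans (finrank_map_le Δ _ _ ?_)
    intro D hD h0
    have h5 := rsJ_eq_zero.1 h0
    funext j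
    change D (z j) = 0
    by_cases hj : z j ∈ K
    · exact (mem_CJ.1 hD).1 _ hj
    · exact h5 _ (Finset.mem_image.2 ⟨j, Finset.mem_filter.2 ⟨Finset.mem_univ _, hj⟩, rfl⟩)
  have hd2 := finrank_rsJ_le S Δ
  have hrk1 := rank_Sg hK r S hST
  -- the other points
  let e := I.equivFin
  let z₀ : Fin I.card → ℂ := fun i => z (e.symm i)
  have hz₀K : ∀ i, z₀ i ∈ K := fun i => (Finset.mem_filter.1 (e.symm i).2).2
  have hz₀i : ∀ i k, i ≠ k → ((e.symm i : I) : Fin n) ≠ ((e.symm k : I) : Fin n) := fun i k hik h =>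
    hik (e.symm.injective (Subtype.ext h))
  have hrange : range z = range z₀ ∪ S := by
    ext x
    constructor
    · rintro ⟨i, rfl⟩
      by_cases hi : z i ∈ K
      · left
        refine ⟨e ⟨i, Finset.mem_filter.2 ⟨Finset.mem_univ _, hi⟩⟩, ?_⟩
        change z (e.symm (e _)) = z i
        rw [Equiv.symm_apply_apply]
      · right
        exact Finset.mem_image.2 ⟨i, Finset.mem_filter.2 ⟨Finset.mem_univ _, hi⟩, rfl⟩
    · rintro (⟨i, rfl⟩ | hx)
      · exact ⟨_, rfl⟩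
      · obtain ⟨i, -, rfl⟩ := hSz x hx
        exact ⟨i, rfl⟩
  have hf0 : (P ∪ SgS r (range z₀)).Finite := hP.union (SgS_finite r (finite_range z₀))
  have hf1 : (SgS r (S : Set ℂ)).Finite := SgS_finite r S.finite_toSet
  have hrk := h.rk
  rw [hrange, SgS_union, ← union_assoc, rank_add hf0 hf1] at hrk
  have hle : clo ⊥ (P ∪ SgS r (range z₀)) ≤ IFd K := by
    apply clo_le_IFd' hK bot_le
    rintro x (hx | hx)
    · exact hPK hx
    · obtain ⟨τ, ⟨i, rfl⟩, hx⟩ := mem_iUnion₂.1 hx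
      exact hK.Sg_mem (h.im _) (hz₀K i) r hx
  have hr5 := rank_mono_base hle hf1
  -- the ranks as numbers
  have hnat : ∀ (F : IntermediateField ℚ ℂ) {S : Set ℂ}, S.Finite →
      ∃ r : ℕ, (MK F).eRk S = r := by
    intro F S hS
    have : (MK F).eRk S ≠ ⊤ := by
      rw [← lt_top_iff_ne_top]
      exact lt_of_le_of_lt ((MK _).eRk_le_encard _) hS.encard_lt_top
    exact ⟨_, (ENat.natCast_toNat this).symm⟩
  obtain ⟨r0, hr0⟩ := hnat ⊥ hf0
  obtain ⟨r1, hr1⟩ := hnat (IFd K) hf1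
  obtain ⟨r2, hr2⟩ := hnat (clo ⊥ (P ∪ SgS r (range z₀))) hf1
  obtain ⟨r3, hr3⟩ := hnat (IFd K) (NS_finite S.finite_toSet)
  rw [hr3] at hch
  rw [hr3, hr1] at hrk1
  rw [hr1, hr2] at hr5
  rw [hr0, hr2] at hrk
  have e1 : 3 * S.card + finrank ℂ (Δ.map (rsJ S)) ≤ r3 := by exact_mod_cast hch
  have e2 : r3 + rr r * S.card ≤ r1 + 3 * S.card := by exact_mod_cast hrk1
  have e3 : r1 ≤ r2 := by exact_mod_cast hr5
  have e4 : r0 + r2 + m ≤ rr r * n + c := by exact_mod_cast hrk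
  have e5 : rr r * S.card + rr r * I.card = rr r * n := by
    rw [← mul_add]
    exact congrArg _ hScard
  refine ⟨⟨I.card, z₀, by omega, fun i => h.im _, fun i => h.ncm _, fun i k hik => h.ineq _ _ (hz₀i i k hik), ?_⟩,
    fun h0 => ?_⟩
  · rw [hr0]
    exact_mod_cast (by omega : r0 + (m + d) ≤ rr r * I.card + c)
  · intro j
    by_contra hj
    obtain ⟨v, hvT, hv⟩ := good_Tan (hK.good n z j hU hj)
    rw [Submodule.finrank_eq_zero.1 h0, Submodule.mem_bot] at hvT
    rw [hvT] at hv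
    exact zero_ne_one hv

end Pool.Agent.H445.MJ
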