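import Pool.Agent.H445.MJ.DimJ
import Pool.Graph.R_seed8.TH936.CM.Jal
import Pool.Graph.R_seed8.W245.EB.RedZ

/-!
# Schneider's theorem on the modular function
-/

set_option autoImplicit false

open Set

noncomputable section

namespace Pool.Agent.H445.MJ

open H667R3 Pool.Agent.W245.EB
open Pool.Agent.Y685 Pool.Agent.TH813.Ell Pool.Agent.Y776 Pool.Agent.Y776.Fam Pool.Agent.Y776.AxJ
open Pool.Agent.TH936.CM UpperHalfPlane

/-- `mkL τ 1` is the lattice `ℤ + ℤ τ` -/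
theorem mkL_one_lattice {τ : ℂ} (hτ : 0 < τ.im) :
    (mkL τ 1 hτ one_ne_zero).lattice = (LC τ).lattice := by
  ext z
  rw [mem_LC hτ, PeriodPair.mem_lattice]
  show (∃ m n : ℤ, (m : ℂ) * 1 + n * (1 * τ) = z) ↔ _
  simp

theorem mkL_eq_LC {τ : ℂ} (hτ : 0 < τ.im) : mkL τ 1 hτ one_ne_zero = LC τ := by
  have h1 : (mkL τ 1 hτ one_ne_zero).ω₁ = (LC τ).ω₁ := rfl
  have h2 : (mkL τ 1 hτ one_ne_zero).ω₂ = (LC τ).ω₂ := by
    rw [LC_ω₂ hτ]
    show 1 * τ = τ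
    ring
  cases hL : LC τ with
  | mk a b c =>
    cases hM : mkL τ 1 hτ one_ne_zero with
    | mk a' b' c' =>
      rw [hL, hM] at h1 h2
      simp only at h1 h2
      subst h1 h2
      rfl

theorem G_scale {τ Ω : ℂ} (hτ : 0 < τ.im) (hΩ : Ω ≠ 0) {k : ℕ} (hk : 3 ≤ k) :
    (mkL τ Ω hτ hΩ).G k = (Ω ^ k)⁻¹ * (LC τ).G k := by
  rw [← mkL_eq_LC hτ, G_eq hτ hΩ hk, G_eq hτ one_ne_zero hk, one_pow, inv_one, one_mul]

theorem g2_scale {τ Ω : ℂ} (hτ : 0 < τ.im) (hΩ : Ω ≠ 0) :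
    (mkL τ Ω hτ hΩ).g₂ = (Ω ^ 4)⁻¹ * (LC τ).g₂ := by
  unfold PeriodPair.g₂
  rw [G_scale hτ hΩ (by norm_num)]
  ring

theorem g3_scale {τ Ω : ℂ} (hτ : 0 < τ.im) (hΩ : Ω ≠ 0) :
    (mkL τ Ω hτ hΩ).g₃ = (Ω ^ 6)⁻¹ * (LC τ).g₃ := by
  unfold PeriodPair.g₃
  rw [G_scale hτ hΩ (by norm_num)]
  ring

/-- a lattice with algebraic invariants -/
theorem exists_alg_lat {τ : ℂ} (hτ : 0 < τ.im) (hj : IsAlgebraic ℚ (jf τ)) : ∃ (Ω : ℂ) (hΩ : Ω ≠ 0),
    IsAlgebraic ℚ (mkL τ Ω hτ hΩ).g₂ ∧ IsAlgebraic ℚ (mkL τ Ω hτ hΩ).g₃ := by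
  have hd : dlf τ ≠ 0 := dlf_ne hτ
  by_cases h2 : (LC τ).g₂ = 0
  · have h3 : (LC τ).g₃ ≠ 0 := by
      intro h3
      apply hd
      rw [dlf, h2, h3]
      norm_num
    obtain ⟨Ω, hΩ⟩ := IsAlgClosed.exists_pow_nat_eq (LC τ).g₃ (n := 6) (by norm_num)
    have hΩ0 : Ω ≠ 0 := by
      rintro rfl
      rw [zero_pow (by norm_num)] at hΩ
      exact h3 hΩ.symm
    refine ⟨Ω, hΩ0, ?_, ?_⟩
    · rw [g2_scale hτ hΩ0, h2, mul_zero]
      exact isAlgebraic_zero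
    · rw [g3_scale hτ hΩ0, hΩ, inv_mul_cancel₀ h3]
      exact isAlgebraic_one
  · obtain ⟨Ω, hΩ⟩ := IsAlgClosed.exists_pow_nat_eq (LC τ).g₂ (n := 4) (by norm_num)
    have hΩ0 : Ω ≠ 0 := by
      rintro rfl
      rw [zero_pow (by norm_num)] at hΩ
      exact h2 hΩ.symm
    refine ⟨Ω, hΩ0, ?_, ?_⟩
    · rw [g2_scale hτ hΩ0, hΩ, inv_mul_cancel₀ h2]
      exact isAlgebraic_one
    · have hjne : jf τ ≠ 0 := by
        unfold jf
        exact div_ne_zero (mul_ne_zero (by norm_num) (pow_ne_zero 3 h2)) hd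
      have hsq : (mkL τ Ω hτ hΩ0).g₃ ^ 2 = (1 - 1728 / jf τ) / 27 := by
        rw [g3_scale hτ hΩ0, mul_pow]
        have h10 : ((Ω ^ 6)⁻¹) ^ 2 = ((LC τ).g₂ ^ 3)⁻¹ := by
          rw [← hΩ, inv_pow, ← pow_mul, ← pow_mul]
        rw [h10]
        have h11 : 1728 / jf τ = dlf τ / (LC τ).g₂ ^ 3 := by
          unfold jf
          have h12 : (LC τ).g₂ ^ 3 - 27 * (LC τ).g₃ ^ 2 = dlf τ := rfl
          rw [h12]
          field_simp
        rw [h11, dlf]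
        field_simp
        ring
      have halg : IsAlgebraic ℚ ((mkL τ Ω hτ hΩ0).g₃ ^ 2) := by
        rw [hsq]
        have h12 : jf τ ∈ QB := mem_QB.2 hj
        rw [← mem_QB]
        exact div_mem (sub_mem (one_mem _) (div_mem (ofNat_mem _ 1728) h12)) (ofNat_mem _ 27)
      exact IsAlgebraic.of_pow two_pos halg

/-- **Schneider's theorem** -/
theorem schneider {τ : ℂ} (hτ : 0 < τ.im) (ha : IsAlgebraic ℚ τ) (hj : IsAlgebraic ℚ (jf τ)) : CMp τ := by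
  obtain ⟨Ω, hΩ, h2, h3⟩ := exists_alg_lat hτ hj
  by_contra hcm
  set L := mkL τ Ω hτ hΩ with hL
  have hmem : ∀ x : ℂ, x ∈ L.lattice ↔ ∃ m n : ℤ, (m : ℂ) * Ω + n * (Ω * τ) = x := fun x => PeriodPair.mem_lattice
  have key : ∀ α β : ℂ, α ∈ Pool.Agent.W245.EB.kL L → β ∈ Pool.Agent.W245.EB.kL L → α * Ω + β * (Ω * τ) = 0 → α = 0 ∧ β = 0 := by
    -- the ring of multiplications is `ℚ`
    have hq : ∀ α : ℂ, α ∈ Pool.Agent.W245.EB.kL L → ∃ q : ℚ, α = q := by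
      rintro α ⟨m, hm, h⟩
      obtain ⟨a, b, hab⟩ := (hmem _).1 (h Ω ((hmem _).2 ⟨1, 0, by push_cast; ring⟩))
      obtain ⟨c, d, hcd⟩ := (hmem _).1 (h (Ω * τ) ((hmem _).2 ⟨0, 1, by push_cast; ring⟩))
      have e1 : (m : ℂ) * α = a + b * τ := by
        have : Ω * ((m : ℂ) * α) = Ω * (a + b * τ) := by linear_combination -hab
        exact mul_left_cancel₀ hΩ this
      have e2 : (m : ℂ) * α * τ = c + d * τ := by
        have : Ω * ((m : ℂ) * α * τ) = Ω * (c + d * τ) := by linear_combination -hcd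
        exact mul_left_cancel₀ hΩ this
      have hb : b = 0 := by
        by_contra hb
        apply hcm
        refine ⟨b, a - d, -c, Or.inl hb, ?_⟩
        push_cast
        linear_combination e2 - τ * e1
      rw [hb] at e1
      have hm0 : (m : ℂ) ≠ 0 := by exact_mod_cast hm.ne'
      refine ⟨(a : ℚ) / m, ?_⟩
      push_cast
      rw [eq_div_iff hm0, mul_comm, e1]
      push_cast
      ring
    intro α β hα hβ h0
    obtain ⟨p, rfl⟩ := hq α hα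
    obtain ⟨q, rfl⟩ := hq β hβ
    have h1 : (p : ℂ) + q * τ = 0 := by
      have : Ω * ((p : ℂ) + q * τ) = 0 := by linear_combination h0
      exact (mul_eq_zero.1 this).resolve_left hΩ
    have h3 : q = 0 ∧ p = 0 := by
      by_contra hne
      exact den_ne hτ hne (by linear_combination h1)
    rw [h3.1, h3.2]
    simp
  have hsk := second_kind h2 h3 (m := 2) ![Ω, Ω * τ] (by
    intro r
    left
    fin_cases r
    · exact (hmem _).2 ⟨1, 0, by push_cast; ring⟩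
    · exact (hmem _).2 ⟨0, 1, by push_cast; ring⟩) (by
    intro α hα h0
    rw [Fin.sum_univ_two] at h0
    obtain ⟨e1, e2⟩ := key (α 0) (α 1) (hα 0) (hα 1) h0
    funext r
    fin_cases r
    · exact e1
    · exact e2) 0 1 isAlgebraic_zero isAlgebraic_one (Or.inr one_ne_zero) ![τ, -1] (by
    intro r
    fin_cases r
    · exact ha
    · exact (isAlgebraic_one (R := ℚ) (A := ℂ)).neg) (by
    rw [Fin.sum_univ_two]
    have : (![τ, -1] : Fin 2 → ℂ) 0 * (0 * zt L ((![Ω, Ω * τ] : Fin 2 → ℂ) 0) + 1 * (![Ω, Ω * τ] : Fin 2 → ℂ) 0) +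
        (![τ, -1] : Fin 2 → ℂ) 1 * (0 * zt L ((![Ω, Ω * τ] : Fin 2 → ℂ) 1) + 1 * (![Ω, Ω * τ] : Fin 2 → ℂ) 1) = 0 := by
      simp
      ring
    rw [this]
    exact isAlgebraic_zero)
  have := congrFun hsk 1
  simp at this

end Pool.Agent.H445.MJ
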