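import Mathlib

/-!
# The derivation `t d/dt` of the field of Hahn series with rational exponents
-/

set_option autoImplicit false

open HahnSeries

noncomputable section

namespace Pool.Agent.H445.MJ

variable {E : Type*} [Field E]

/-- the derivation `t d/dt` -/
def th (f : HahnSeries ℚ E) : HahnSeries ℚ E where
  coeff q := (q : E) * f.coeff q
  isPWO_support' := f.isPWO_support.mono fun q hq => by
    simp only [Function.mem_support, ne_eq, mul_eq_zero, not_or] at hq
    exact hq.2

theorem th_coeff (f : HahnSeries ℚ E) (q : ℚ) : (th f).coeff q = (q : E) * f.coeff q := rfl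

theorem th_support (f : HahnSeries ℚ E) : (th f).support ⊆ f.support := by
  intro q hq
  rw [mem_support, th_coeff] at hq
  exact right_ne_zero_of_mul hq

theorem th_add (f g : HahnSeries ℚ E) : th (f + g) = th f + th g := by
  ext q
  rw [th_coeff, coeff_add, coeff_add, th_coeff, th_coeff, mul_add]

theorem th_zero : th (0 : HahnSeries ℚ E) = 0 := by
  ext q
  rw [th_coeff, coeff_zero, mul_zero]

theorem th_neg (f : HahnSeries ℚ E) : th (-f) = -th f := by
  ext q
  rw [th_coeff, coeff_neg, coeff_neg, th_coeff, mul_neg]

theorem th_sub (f g : HahnSeries ℚ E) : th (f - g) = th f - th g := by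
  rw [sub_eq_add_neg, th_add, th_neg, ← sub_eq_add_neg]

theorem th_mul [CharZero E] (f g : HahnSeries ℚ E) : th (f * g) = th f * g + f * th g := by
  ext q
  rw [th_coeff, coeff_add, coeff_mul, coeff_mul_left' (s := f.support) f.isPWO_support (th_support f),
    coeff_mul_right' (s := g.support) g.isPWO_support (th_support g), ← Finset.sum_add_distrib, Finset.mul_sum]
  refine Finset.sum_congr rfl fun ij hij => ?_
  rw [Finset.mem_antidiagonal] at hij
  rw [th_coeff, th_coeff, ← hij.2.2]
  push_cast
  ring

theorem th_single (q : ℚ) (c : E) : th (single q c) = single q ((q : E) * c) := by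
  ext r
  rw [th_coeff]
  by_cases h : r = q
  · subst h
    rw [coeff_single_same, coeff_single_same]
  · rw [coeff_single_of_ne h, coeff_single_of_ne h, mul_zero]

theorem th_C (c : E) : th (HahnSeries.C c : HahnSeries ℚ E) = 0 := by
  change th (single 0 c) = 0
  rw [th_single]
  simp

end Pool.Agent.H445.MJ
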