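import Pool.Agent.H445.MJ.Brg

/-!
# Arbitrary tuples of points of the upper half-plane
-/

set_option autoImplicit false

open Set Filter Module
open scoped Topology ENNReal

noncomputable section

namespace Pool.Agent.H445.MJ

open H667R3 Pool.Agent.W245.EB
open Pool.Agent.Y685 Pool.Agent.TH813.Ell Pool.Agent.Y776 Pool.Agent.Y776.Fam Pool.Agent.Y776.AxJ
open Pool.Agent.TH813.Rel (MK)

variable {n m : ℕ}

/-- the orbit of a point -/
def orb (z : ℂ) : Set ℂ := {w | 0 < w.im ∧ GL2Q z w}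

theorem orb_eq_iff {z w : ℂ} (hw : 0 < w.im) : orb z = orb w ↔ GL2Q z w := by
  constructor
  · intro h
    have h1 : w ∈ orb w := ⟨hw, GL2Q.refl w⟩
    rw [← h] at h1
    exact h1.2
  · intro h
    ext u
    exact ⟨fun hu => ⟨hu.1, h.symm.trans hu.2⟩, fun hu => ⟨hu.1, h.trans hu.2⟩⟩

/-- the orbits of the points which are not special -/
def oN (S : Set ℂ) : Set (Set ℂ) := orb '' {z | z ∈ S ∧ ¬ CMp z}

/-- the orbits of the special points which are not zeros of `j` -/
def oS (S : Set ℂ) : Set (Set ℂ) := orb '' {z | z ∈ S ∧ CMp z ∧ jf z ≠ 0}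

/-- the number `3 m₁ + m₂` -/
def cntU (S : Set ℂ) : ℕ := 3 * (oN S).ncard + (oS S).ncard

/-- the finite sets of points with defect at least `m` -/
structure BadU (m : ℕ) (S : Set ℂ) : Prop where
  fin : S.Finite
  im : ∀ z ∈ S, 0 < z.im
  rk : (MK (⊥ : IntermediateField ℚ ℂ)).eRk (SgS true S) + m ≤ ((cntU S : ℕ) : ℕ∞)

/-- the special points of a set -/
def cmS (S : Set ℂ) : Set ℂ := {z | z ∈ S ∧ CMp z}

theorem oS_cmS (S : Set ℂ) : oS (cmS S) = oS S := by
  unfold oS cmS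
  congr 1
  ext z
  exact ⟨fun h => ⟨h.1.1, h.2⟩, fun h => ⟨⟨h.1, h.2.1⟩, h.2⟩⟩

theorem SgS_eq (S : Set ℂ) : SgS true S = SgS true (cmS S) ∪ SgS true {z | z ∈ S ∧ ¬ CMp z} := by
  rw [← SgS_union]
  congr 1
  ext z
  by_cases h : CMp z
  · exact ⟨fun h1 => Or.inl ⟨h1, h⟩, fun h1 => h1.elim (fun h => h.1) fun h => h.1⟩
  · exact ⟨fun h1 => Or.inr ⟨h1, h⟩, fun h1 => h1.elim (fun h => h.1) fun h => h.1⟩

theorem ncard_oN_range {a : ℕ} {w : Fin a → ℂ} (him : ∀ i, 0 < (w i).im) (hcm : ∀ i, ¬ CMp (w i))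
    (hin : ∀ i k, i ≠ k → ¬ GL2Q (w i) (w k)) : (oN (range w)).ncard = a := by
  have h1 : oN (range w) = range fun i => orb (w i) := by
    ext O
    constructor
    · rintro ⟨z, ⟨⟨i, rfl⟩, -⟩, rfl⟩
      exact ⟨i, rfl⟩
    · rintro ⟨i, rfl⟩
      exact ⟨w i, ⟨⟨i, rfl⟩, hcm i⟩, rfl⟩
  have h2 : Function.Injective fun i => orb (w i) := by
    intro i k h
    by_contra hne
    exact hin i k hne ((orb_eq_iff (him k)).1 h)
  rw [h1, ← image_univ, ncard_image_of_injective _ h2, ncard_univ, Nat.card_eq_fintype_card,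
    Fintype.card_fin]

/-- assembling a failure -/
theorem BadU.of_FailJ {a : ℕ} {S₀ : Set ℂ} (hfin : S₀.Finite) (hS : ∀ z ∈ S₀, 0 < z.im ∧ CMp z) {w : Fin a → ℂ}
    (h : FailJ true (SgS true S₀) (oS S₀).ncard a m w) : BadU m (range w ∪ S₀) := by
  have h1 : oN (range w ∪ S₀) = oN (range w) := by
    unfold oN
    congr 1
    ext z
    refine ⟨fun h1 => ⟨h1.1.resolve_right fun h2 => h1.2 (hS z h2).2, h1.2⟩, fun h1 => ⟨Or.inl h1.1, h1.2⟩⟩
  have h2 : oS (range w ∪ S₀) = oS S₀ := by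
    unfold oS
    congr 1
    ext z
    refine ⟨fun h1 => ⟨h1.1.resolve_left ?_, h1.2⟩, fun h1 => ⟨Or.inr h1.1, h1.2⟩⟩
    rintro ⟨i, rfl⟩
    exact h.ncm i h1.2.1
  refine ⟨(finite_range w).union hfin, ?_, ?_⟩
  · rintro z (⟨i, rfl⟩ | hz)
    · exact h.im i
    · exact (hS z hz).1
  · rw [cntU, h1, h2, ncard_oN_range h.im h.ncm h.ineq, SgS_union, union_comm]
    exact h.rk

/-- representatives of the classes -/
theorem BadU.choose {S : Set ℂ} (h : BadU m S) : ∃ (a : ℕ) (w : Fin a → ℂ), (∀ k, w k ∈ S) ∧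
    (∀ z ∈ S, ¬ CMp z → ∃ k, GL2Q (w k) z) ∧ a + (cmS S).ncard ≤ S.ncard ∧
    FailJ true (SgS true (cmS S)) (oS (cmS S)).ncard a m w := by
  have hfin : {z | z ∈ S ∧ ¬ CMp z}.Finite := h.fin.subset fun z hz => hz.1
  have hoN : (oN S).Finite := hfin.image _
  have hcard : Nat.card (oN S) = (oN S).ncard := rfl
  have := hoN.to_subtype
  let e : oN S ≃ Fin (oN S).ncard := Finite.equivFinOfCardEq hcard
  have hch : ∀ k, ∃ z, (z ∈ S ∧ ¬ CMp z) ∧ orb z = ((e.symm k : oN S) : Set ℂ) := fun k => (e.symm k).2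
  choose w hw1 hw2 using hch
  have him : ∀ k, 0 < (w k).im := fun k => h.im _ (hw1 k).1
  have hin : ∀ i k, i ≠ k → ¬ GL2Q (w i) (w k) := by
    intro i k hik hG
    have h1 := (orb_eq_iff (him k)).2 hG
    rw [hw2, hw2] at h1
    exact hik (e.symm.injective (Subtype.ext h1))
  have hinj : Function.Injective w := by
    intro i k hik
    by_contra hne
    exact hin i k hne (by rw [hik]; exact GL2Q.refl _)
  refine ⟨(oN S).ncard, w, fun k => (hw1 k).1, ?_, ?_, ?_⟩
  · intro z hz hcm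
    have h1 : orb z ∈ oN S := ⟨z, ⟨hz, hcm⟩, rfl⟩
    refine ⟨e ⟨orb z, h1⟩, ?_⟩
    rw [← orb_eq_iff (h.im z hz), hw2, Equiv.symm_apply_apply]
  · have h1 : (range w).ncard = (oN S).ncard := by
      rw [← image_univ, ncard_image_of_injective _ hinj, ncard_univ, Nat.card_eq_fintype_card,
        Fintype.card_fin]
    have h2 : Disjoint (range w) (cmS S) := by
      rw [Set.disjoint_left]
      rintro _ ⟨k, rfl⟩ h3
      exact (hw1 k).2 h3.2
    have h3 : range w ∪ cmS S ⊆ S := by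
      rintro z (⟨k, rfl⟩ | hz)
      · exact (hw1 k).1
      · exact hz.1
    rw [← h1, ← ncard_union_eq h2 (finite_range w) (h.fin.subset fun z hz => hz.1)]
    exact ncard_le_ncard h3 h.fin
  · refine ⟨him, fun k => (hw1 k).2, hin, ?_⟩
    have h1 : (MK (⊥ : IntermediateField ℚ ℂ)).eRk (SgS true (cmS S) ∪ SgS true (range w)) ≤
        (MK (⊥ : IntermediateField ℚ ℂ)).eRk (SgS true S) := by
      apply Matroid.eRk_mono
      rw [← SgS_union]
      apply SgS_mono
      rintro z (hz | ⟨k, rfl⟩)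
      · exact hz.1
      · exact (hw1 k).1
    rw [oS_cmS]
    exact (add_le_add h1 le_rfl).trans h.rk

/-- the failures of length `n` -/
def FU (n m : ℕ) : Set (Fin n → ℂ) := {z | BadU m (range z)}

/-- the admissible levels -/
def LevU (n m : ℕ) : Set ℕ := {d | d ≤ n ∧ (FU (n - d) (m + d)).Nonempty}

theorem LevU_bdd : BddAbove (LevU n m) := ⟨n, fun _ h => h.1⟩

theorem exists_range {S : Set ℂ} (hS : S.Finite) (h : S.ncard ≤ n) (h0 : S = ∅ → n = 0) :
    ∃ z : Fin n → ℂ, range z = S := by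
  rcases S.eq_empty_or_nonempty with he | ⟨s, hs⟩
  · have := h0 he
    subst this
    refine ⟨Fin.elim0, ?_⟩
    rw [he]
    ext x
    constructor
    · rintro ⟨i, -⟩
      exact i.elim0
    · exact fun h => h.elim
  · have := hS.to_subtype
    let e : S ≃ Fin S.ncard := Finite.equivFinOfCardEq rfl
    refine ⟨fun i => if hi : (i : ℕ) < S.ncard then e.symm ⟨i, hi⟩ else s, ?_⟩
    ext x
    constructor
    · rintro ⟨i, rfl⟩
      dsimp only
      split_ifs with hi
      · exact (e.symm ⟨i, hi⟩).2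
      · exact hs
    · intro hx
      refine ⟨⟨e ⟨x, hx⟩, (e ⟨x, hx⟩).2.trans_le h⟩, ?_⟩
      dsimp only
      rw [dif_pos (e ⟨x, hx⟩).2]
      simp

theorem BadU.empty {S : Set ℂ} (h : BadU m S) (hS : S = ∅) : m = 0 := by
  have h1 := h.rk
  have h2 : cntU S = 0 := by
    unfold cntU oN oS
    rw [hS]
    simp
  rw [h2] at h1
  have h3 : (m : ℕ∞) ≤ ((0 : ℕ) : ℕ∞) := le_add_self.trans h1
  have h4 : m ≤ 0 := by exact_mod_cast h3
  omega

/-- the levels of the pieces are levels -/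
theorem LevJ_sub {z : Fin n → ℂ} (hz : z ∈ FU n m) {a : ℕ}
    (ha : a + (cmS (range z)).ncard ≤ (range z).ncard) (ha0 : a = 0 → ∀ x ∈ range z, CMp x) :
    LevJ true (SgS true (cmS (range z))) (oS (cmS (range z))).ncard a m ⊆ LevU n m := by
  rintro d ⟨hd, w, hw⟩
  have hfin : (cmS (range z)).Finite := hz.fin.subset fun x hx => hx.1
  have h1 : BadU (m + d) (range w ∪ cmS (range z)) :=
    BadU.of_FailJ hfin (fun x hx => ⟨hz.im x hx.1, hx.2⟩) hw
  have hn : (range z).ncard ≤ n := by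
    rw [← image_univ]
    refine (ncard_image_le finite_univ).trans ?_
    rw [ncard_univ, Nat.card_eq_fintype_card, Fintype.card_fin]
  have hwc : (range w).ncard ≤ a - d := by
    rw [← image_univ]
    refine (ncard_image_le finite_univ).trans ?_
    rw [ncard_univ, Nat.card_eq_fintype_card, Fintype.card_fin]
  have h2 : (range w ∪ cmS (range z)).ncard ≤ n - d := by
    refine (ncard_union_le _ _).trans ?_
    omega
  refine ⟨by omega, ?_⟩
  obtain ⟨z', hz'⟩ := exists_range h1.fin h2 (by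
    intro h3
    have h4 := h1.empty h3
    have h5 : a = 0 := by
      have h6 : range w = ∅ := (union_empty_iff.1 h3).1
      have h7 : a - d = 0 := by
        by_contra hne
        have : (⟨0, by omega⟩ : Fin (a - d)) ∈ (univ : Set _) := mem_univ _
        have h8 : w ⟨0, by omega⟩ ∈ range w := ⟨_, rfl⟩
        rw [h6] at h8
        exact h8
      omega
    have h6 : n = 0 := by
      by_contra hne
      have h7 : z ⟨0, by omega⟩ ∈ range z := ⟨_, rfl⟩
      have h8 : z ⟨0, by omega⟩ ∈ cmS (range z) := ⟨h7, ha0 h5 _ h7⟩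
      rw [(union_empty_iff.1 h3).2] at h8
      exact h8
    omega)
  exact ⟨z', by rw [FU, mem_ofPred_eq, hz']; exact h1⟩

/-- adding generic points -/
theorem BadU.generic {S : Set ℂ} {d : ℕ} (h : BadU (m + d) S) {K : Subfield ℂ} (hK : FldJ K) (hS : S ⊆ K)
    {x : Fin d → ℂ} (hx : x ∈ GenJ K d) : BadU m (S ∪ range x) := by
  obtain ⟨hxU, hxK, hxG⟩ := hx
  have hxcm : ∀ i, ¬ CMp (x i) := fun i hcm => hxK i (hK.alg_mem hcm.alg)
  have h1 : oN (S ∪ range x) = oN S ∪ oN (range x) := by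
    unfold oN
    rw [← image_union]
    congr 1
    ext z
    constructor
    · rintro ⟨h1 | h1, h2⟩
      · exact Or.inl ⟨h1, h2⟩
      · exact Or.inr ⟨h1, h2⟩
    · rintro (⟨h1, h2⟩ | ⟨h1, h2⟩)
      · exact ⟨Or.inl h1, h2⟩
      · exact ⟨Or.inr h1, h2⟩
  have h2 : oS (S ∪ range x) = oS S := by
    unfold oS
    congr 1
    ext z
    refine ⟨fun h1 => ⟨h1.1.resolve_right ?_, h1.2⟩, fun h1 => ⟨Or.inl h1.1, h1.2⟩⟩
    rintro ⟨i, rfl⟩
    exact hxcm i h1.2.1
  have h3 : Disjoint (oN S) (oN (range x)) := by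
    rw [Set.disjoint_left]
    rintro _ ⟨z, ⟨hz, -⟩, rfl⟩ ⟨_, ⟨⟨i, rfl⟩, -⟩, h4⟩
    have h5 : GL2Q (x i) z := (orb_eq_iff (h.im z hz)).1 h4
    exact hxK i (h5.mem_left (h.im z hz) (hS hz))
  have hfin1 : (oN S).Finite := (h.fin.subset fun z hz => hz.1).image _
  have hfin2 : (oN (range x)).Finite := ((finite_range x).subset fun z hz => hz.1).image _
  have h4 : cntU (S ∪ range x) = cntU S + 3 * d := by
    rw [cntU, cntU, h1, h2, ncard_union_eq h3 hfin1 hfin2, ncard_oN_range hxU hxcm hxG]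
    ring
  refine ⟨h.fin.union (finite_range x), ?_, ?_⟩
  · rintro z (hz | ⟨i, rfl⟩)
    · exact h.im z hz
    · exact hxU i
  · rw [h4, SgS_union]
    have h5 := (MK (⊥ : IntermediateField ℚ ℂ)).eRk_union_le_eRk_add_encard (SgS true S) (SgS true (range x))
    have h6 := encard_SgS (r := true) x
    calc (MK (⊥ : IntermediateField ℚ ℂ)).eRk (SgS true S ∪ SgS true (range x)) + m
        ≤ ((MK (⊥ : IntermediateField ℚ ℂ)).eRk (SgS true S) + (((rr true + 1) * d : ℕ) : ℕ∞)) + m := by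
          gcongr
          exact h5.trans (add_le_add le_rfl h6)
      _ = ((MK (⊥ : IntermediateField ℚ ℂ)).eRk (SgS true S) + (m + d : ℕ)) + (3 * d : ℕ) := by
          have e1 : (((rr true + 1) * d : ℕ) : ℕ∞) + m = ((m + d : ℕ) : ℕ∞) + ((3 * d : ℕ) : ℕ∞) := by
            rw [← Nat.cast_add, ← Nat.cast_add]
            congr 1
            simp only [rr]
            ring
          rw [add_assoc, e1, ← add_assoc]
      _ ≤ ((cntU S : ℕ) : ℕ∞) + (3 * d : ℕ) := add_le_add h.rk le_rfl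
      _ = ((cntU S + 3 * d : ℕ) : ℕ∞) := by rw [Nat.cast_add]

theorem lowerU {d : ℕ} (hd : d ∈ LevU n m) : ((2 * d : ℕ) : ℝ≥0∞) ≤ dimH (FU n m) := by
  obtain ⟨h1, z, hz⟩ := hd
  obtain ⟨n', rfl⟩ : ∃ n', n = n' + d := ⟨n - d, by omega⟩
  obtain ⟨K, hK, hS⟩ := exists_FldJ (S := range z) (countable_range z)
  have e : n' + d - d = n' := by omega
  have hS' : ∀ i, z i ∈ K := fun i => hS ⟨i, rfl⟩
  clear hS
  revert z
  rw [e]
  intro z hz hS'
  let π : (Fin (n' + d) → ℂ) →L[ℂ] (Fin d → ℂ) :=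
    ContinuousLinearMap.pi fun j => ContinuousLinearMap.proj (Fin.natAdd n' j)
  refine (dimH_GenJ hK.cnt d).trans (le_trans (dimH_mono ?_) (π.lipschitz.dimH_image_le (FU (n' + d) m)))
  intro x hx
  refine ⟨Fin.append z x, ?_, ?_⟩
  · rw [FU, mem_ofPred_eq, range_append]
    exact BadU.generic hz hK (by rintro _ ⟨i, rfl⟩; exact hS' i) hx
  funext j
  change Fin.append z x (Fin.natAdd n' j) = x j
  rw [Fin.append_right]

/-- matrices with positive determinant -/
abbrev Mat : Type := {q : Fin 4 → ℚ // 0 < q 0 * q 3 - q 1 * q 2}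

/-- the codes of the pieces -/
abbrev Code (n : ℕ) : Type := Σ a : ℕ, Fin n → (Fin a × Mat) ⊕ {s : ℂ // CMp s}

/-- the reconstruction of the tuple -/
def rec1 (C : Code n) (w : Fin C.1 → ℂ) (i : Fin n) : ℂ :=
  match C.2 i with
  | Sum.inl (k, q) => ((q.1 0 : ℂ) * w k + q.1 1) / ((q.1 2 : ℂ) * w k + q.1 3)
  | Sum.inr s => s

theorem rec1_contDiff (C : Code n) : ContDiffOn ℝ 1 (rec1 C) (UJ C.1) := by
  apply contDiffOn_pi.2
  intro i
  unfold rec1
  rcases hC : C.2 i with ⟨k, q⟩ | s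
  · have h1 : ContDiffOn ℂ 1 (fun w : Fin C.1 → ℂ =>
        ((q.1 0 : ℂ) * w k + q.1 1) / ((q.1 2 : ℂ) * w k + q.1 3)) (UJ C.1) := by
      apply ContDiffOn.div
      · fun_prop
      · fun_prop
      · intro w hw
        apply den_ne (hw k)
        rintro ⟨h3, h4⟩
        have := q.2
        rw [h3, h4] at this
        simp at this
    simpa [hC] using h1.restrict_scalars ℝ
  · simpa [hC] using contDiffOn_const

theorem convex_UJ (a : ℕ) : Convex ℝ (UJ a) := by
  intro x hx y hy s t hs ht hst i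
  have h1 : ((s • x + t • y) i).im = s * (x i).im + t * (y i).im := by
    simp
  rw [h1]
  rcases hs.lt_or_eq with h | h
  · exact add_pos_of_pos_of_nonneg (mul_pos h (hx i)) (mul_nonneg ht (hy i).le)
  · have : t = 1 := by rw [← hst, ← h, zero_add]
    rw [← h, this]
    simpa using hy i

/-- the special points of a code -/
def spC (C : Code n) : Set ℂ := {s | ∃ i, ∃ s' : {s : ℂ // CMp s}, C.2 i = Sum.inr s' ∧ s = s'}

/-- the piece of a code -/
def pcC (m : ℕ) (C : Code n) : Set (Fin C.1 → ℂ) := FJ true (SgS true (spC C)) (oS (spC C)).ncard C.1 m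

theorem spC_finite (C : Code n) : (spC C).Finite := by
  have : spC C ⊆ range fun i => (match C.2 i with
    | Sum.inl _ => (0 : ℂ)
    | Sum.inr s => (s : ℂ)) := by
    rintro s ⟨i, s', h1, rfl⟩
    exact ⟨i, by simp only [h1]⟩
  exact (finite_range _).subset this

theorem countable_Code : Countable (Code n) := by
  have h1 : Countable {s : ℂ // CMp s} := countable_CMp.to_subtype
  infer_instance

theorem cover {z : Fin n → ℂ} (hz : z ∈ FU n m) : ∃ C : Code n,
    LevJ true (SgS true (spC C)) (oS (spC C)).ncard C.1 m ⊆ LevU n m ∧ z ∈ rec1 C '' pcC m C := by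
  classical
  obtain ⟨a, w, h1, h2, h3, h4⟩ := BadU.choose hz
  have h5 : ∀ i, ∃ c : (Fin a × Mat) ⊕ {s : ℂ // CMp s}, (match c with
      | Sum.inl (k, q) => ((q.1 0 : ℂ) * w k + q.1 1) / ((q.1 2 : ℂ) * w k + q.1 3)
      | Sum.inr s => (s : ℂ)) = z i ∧ (∀ s, c = Sum.inr s → (s : ℂ) = z i) ∧
      ((∃ s, c = Sum.inr s) ↔ CMp (z i)) := by
    intro i
    by_cases hcm : CMp (z i)
    · refine ⟨Sum.inr ⟨z i, hcm⟩, rfl, ?_, ⟨fun _ => hcm, fun _ => ⟨_, rfl⟩⟩⟩
      intro s hs
      rw [← Sum.inr_injective hs]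
    · obtain ⟨k, p, q, r, t, h6, h7⟩ := h2 (z i) ⟨i, rfl⟩ hcm
      have hne : (r : ℂ) * w k + t ≠ 0 := den_ne (h4.im k) (by
        rintro ⟨h8, h9⟩
        rw [h8, h9] at h6
        simp at h6)
      refine ⟨Sum.inl (k, ⟨![p, q, r, t], h6⟩), ?_, ?_, ?_⟩
      · change ((p : ℂ) * w k + q) / ((r : ℂ) * w k + t) = z i
        rw [div_eq_iff hne, h7]
      · intro s hs
        cases hs
      · refine ⟨?_, fun h => absurd h hcm⟩
        rintro ⟨s, hs⟩
        cases hs
  choose c hc1 hc2 hc3 using h5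
  have hsp : spC (⟨a, c⟩ : Code n) = cmS (range z) := by
    ext s
    constructor
    · rintro ⟨i, s', h6, rfl⟩
      have h7 := hc2 i s' h6
      exact ⟨⟨i, h7.symm⟩, s'.2⟩
    · rintro ⟨⟨i, rfl⟩, h6⟩
      obtain ⟨s', hs'⟩ := (hc3 i).2 h6
      exact ⟨i, s', hs', (hc2 i s' hs').symm⟩
  refine ⟨⟨a, c⟩, ?_, w, ?_, ?_⟩
  · rw [hsp]
    refine LevJ_sub hz h3 ?_
    rintro rfl x hx
    by_contra hcm
    obtain ⟨k, -⟩ := h2 x hx hcm
    exact k.elim0
  · show FailJ _ _ _ _ _ _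
    rw [hsp]
    exact h4
  · funext i
    have h6 := hc1 i
    unfold rec1
    rcases hci : c i with ⟨k, q⟩ | s
    · rw [hci] at h6
      simp only [hci]
      exact h6
    · rw [hci] at h6
      simp only [hci]
      exact h6

/-- **The dimension formula for arbitrary tuples** -/
theorem dimU (n m : ℕ) : dimH (FU n m) = (2 * sSup (LevU n m) : ℕ) := by
  apply le_antisymm
  · let ι := {C : Code n // LevJ true (SgS true (spC C)) (oS (spC C)).ncard C.1 m ⊆ LevU n m}
    have hc : Countable (Code n) := countable_Code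
    have h1 : FU n m ⊆ ⋃ C : ι, rec1 C.1 '' pcC m C.1 := by
      intro z hz
      obtain ⟨C, hC, h⟩ := cover hz
      exact mem_iUnion.2 ⟨⟨C, hC⟩, h⟩
    refine (dimH_mono h1).trans ?_
    rw [dimH_iUnion]
    refine iSup_le fun C => ?_
    have h2 : pcC m C.1 ⊆ UJ C.1.1 := fun w hw => FailJ.im hw
    refine ((rec1_contDiff C.1).dimH_image_le (convex_UJ _) h2).trans ?_
    rw [pcC, dimJ (SgS_finite true (spC_finite C.1))]
    have h3 : sSup (LevJ true (SgS true (spC C.1)) (oS (spC C.1)).ncard C.1.1 m) ≤ sSup (LevU n m) := by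
      rcases Set.eq_empty_or_nonempty (LevJ true (SgS true (spC C.1)) (oS (spC C.1)).ncard C.1.1 m) with h | h
      · rw [h, csSup_empty]
        exact Nat.zero_le _
      · exact le_csSup LevU_bdd (C.2 (Nat.sSup_mem h LevJ_bdd))
    exact_mod_cast Nat.mul_le_mul_left 2 h3
  · rcases Set.eq_empty_or_nonempty (LevU n m) with h | h
    · rw [h, csSup_empty]
      simp
    · exact lowerU (Nat.sSup_mem h LevU_bdd)

/-- **Countability** -/
theorem countableU (n m : ℕ) : (FU n m).Countable ↔ 1 ∉ LevU n m := by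
  constructor
  · intro h h1
    have h2 := lowerU h1
    rw [h.dimH_zero] at h2
    norm_num at h2
  · intro h
    let ι := {C : Code n // LevJ true (SgS true (spC C)) (oS (spC C)).ncard C.1 m ⊆ LevU n m}
    have hc : Countable (Code n) := countable_Code
    have h1 : FU n m ⊆ ⋃ C : ι, rec1 C.1 '' pcC m C.1 := by
      intro z hz
      obtain ⟨C, hC, h⟩ := cover hz
      exact mem_iUnion.2 ⟨⟨C, hC⟩, h⟩
    refine (countable_iUnion fun C => ?_).mono h1
    refine Set.Countable.image ?_ _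
    rw [pcC, countableJ (SgS_finite true (spC_finite C.1))]
    exact fun h2 => h (C.2 h2)

/-- the bound for the levels -/
theorem LevU_le {d : ℕ} (hd : d ∈ LevU n m) : d ≤ (3 * n - m - 1) / 4 := by
  obtain ⟨h1, z, hz⟩ := hd
  obtain ⟨a, w, h2, h3, h4, h5⟩ := BadU.choose hz
  have hb : (oS (cmS (range z))).ncard ≤ (cmS (range z)).ncard := by
    have hfin : (cmS (range z)).Finite := hz.fin.subset fun x hx => hx.1
    refine (ncard_image_le (hfin.subset fun x hx => hx.1)).trans ?_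
    exact ncard_le_ncard (fun x hx => hx.1) hfin
  have hn : (range z).ncard ≤ n - d := by
    rw [← image_univ]
    refine (ncard_image_le finite_univ).trans ?_
    rw [ncard_univ, Nat.card_eq_fintype_card, Fintype.card_fin]
  rcases Nat.eq_zero_or_pos a with h0 | h0
  · have h6 : ((m + d : ℕ) : ℕ∞) ≤ ((rr true * a + (oS (cmS (range z))).ncard : ℕ) : ℕ∞) := le_add_self.trans h5.rk
    have h7 : m + d ≤ rr true * a + (oS (cmS (range z))).ncard := by exact_mod_cast h6
    rw [h0] at h7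
    omega
  · have h6 := h5.bound h0
    simp only [rr] at h6
    omega

end Pool.Agent.H445.MJ
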