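import Pool.Agent.H445.MJ.LocGlob
import Pool.Graph.R_seed8.Y776.AxJ.Main

/-!
# Horizontal tensors in the interalgebraic case
-/

set_option autoImplicit false

open Finset Module

noncomputable section

namespace Pool.Agent.H445.MJ

open Pool.Agent.Y685 Pool.Agent.TH813.Ell Pool.Agent.Y776.AxJ
open Pool.Agent.TH813.Rel (DF MK exists_derF bracket_mem mem_cl)

variable {x y : Qd} {D δ : Derivation ℚ ℂ ℂ} {C : IntermediateField ℚ ℂ}

theorem clo_empty_of_alg {z : ℂ} (h : IsAlgebraic C z) : z ∈ clo C ∅ := by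
  rw [mem_clo_iff, mem_cl]
  exact h.extendScalars (algebraMap C (Algebra.adjoin C (∅ : Set ℂ))).injective

theorem cst_of_alg {z : ℂ} (h : IsAlgebraic (Cst D) z) : D z = 0 :=
  clo_empty_of_alg h D (D_mem D) fun _ h => absurd h (Set.notMem_empty _)

instance cst_algClosed (D : Derivation ℚ ℂ ℂ) : IsAlgClosed (Cst D) := by
  refine IsAlgClosed.of_exists_root _ fun p hp hirr => ?_
  obtain ⟨z, hz⟩ := IsAlgClosed.exists_aeval_eq_zero ℂ p (degree_ne_of_irr hirr)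
  have h1 : D z = 0 := cst_of_alg ⟨p, hp.ne_zero, hz⟩
  refine ⟨⟨z, h1⟩, ?_⟩
  have h2 : (algebraMap (Cst D) ℂ) (Polynomial.eval ⟨z, h1⟩ p) = 0 := by
    rw [← Polynomial.eval₂_at_apply]
    exact hz
  exact (map_eq_zero _).1 h2
where
  degree_ne_of_irr {p : Polynomial (Cst D)} (h : Irreducible p) : p.degree ≠ 0 :=
    (Polynomial.degree_pos_of_irreducible h).ne'

/-- the normalised pair -/
theorem exists_norm {g : ℂ} (h0 : g ≠ 0) (h27 : g - 27 ≠ 0) : ∃ P Q : ℂ, P ≠ 0 ∧ Q ≠ 0 ∧ P ^ 3 - 27 * Q ^ 2 = 1 ∧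
    P ^ 3 = g / (g - 27) ∧ Q ^ 2 = 1 / (g - 27) := by
  obtain ⟨Q, hQ⟩ := IsAlgClosed.exists_pow_nat_eq (1 / (g - 27)) (n := 2) two_pos
  obtain ⟨P, hP⟩ := IsAlgClosed.exists_pow_nat_eq (g / (g - 27)) (n := 3) three_pos
  refine ⟨P, Q, ?_, ?_, ?_, hP, hQ⟩
  · rintro rfl
    rw [zero_pow three_ne_zero] at hP
    exact div_ne_zero h0 h27 hP.symm
  · rintro rfl
    rw [zero_pow two_ne_zero] at hQ
    exact div_ne_zero one_ne_zero h27 hQ.symm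
  · rw [hP, hQ]
    field_simp

theorem kill_of_pow {z w : ℂ} {n : ℕ} (hn : n ≠ 0) (hz : z ≠ 0) (h : z ^ n = w) (hw : δ w = 0) : δ z = 0 := by
  rw [← h, Derivation.leibniz_pow, smul_eq_mul, nsmul_eq_mul] at hw
  have h1 : (n : ℂ) ≠ 0 := Nat.cast_ne_zero.2 hn
  exact ((mul_eq_zero.1 ((mul_eq_zero.1 hw).resolve_left h1)).resolve_left (pow_ne_zero _ hz))

/-- the change of gauge -/
theorem gauge {P Q : ℂ} (hP : P ≠ 0) (hQ : Q ≠ 0) (h : P ^ 3 - 27 * Q ^ 2 = 1) (v : Fin 3 → ℂ) (k : Fin 3) :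
    br (Av (⟨0, 0, P, Q⟩ : Qd) δ) v k * (![Q / P, 1, P / Q] : Fin 3 → ℂ) k +
      v k * δ ((![Q / P, 1, P / Q] : Fin 3 → ℂ) k) =
    brF ![1 / 12 * (1 / 2 * (9 * Q * δ P - 6 * P * δ Q) * P), 0, 1 / 2 * (9 * Q * δ P - 6 * P * δ Q)]
      (fun b => v b * (![Q / P, 1, P / Q] : Fin 3 → ℂ) b) k := by
  set β : ℂ := 1 / 2 * (9 * Q * δ P - 6 * P * δ Q) with hβ
  have hd : (⟨0, 0, P, Q⟩ : Qd).dl = 1 := by rw [Qd.dl]; exact h
  have hd0 : (⟨0, 0, P, Q⟩ : Qd).dl ≠ 0 := by rw [hd]; exact one_ne_zero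
  have hfb : fb (⟨0, 0, P, Q⟩ : Qd) δ = β := by
    rw [fb, hd, hβ]
    ring
  have hfa : fa (⟨0, 0, P, Q⟩ : Qd) δ = 0 := by
    have h1 := congrArg δ h
    rw [show P ^ 3 = P * P ^ 2 by ring, map_sub, dmul, dmul, dsq, dsq, dnat, done'] at h1
    rw [fa, hd]
    change (-P ^ 2 * δ P + 18 * Q * δ Q) / (4 * 1) = 0
    linear_combination (-1 / 12 : ℂ) * h1
  have hp : δ P = -6 * β * Q := by
    have h1 : δ P = -4 * fa (⟨0, 0, P, Q⟩ : Qd) δ * P - 6 * fb (⟨0, 0, P, Q⟩ : Qd) δ * Q := d_p hd0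
    rw [h1, hfa, hfb]
    ring
  have hq : δ Q = -β * P ^ 2 / 3 := by
    have h1 : δ Q = -6 * fa (⟨0, 0, P, Q⟩ : Qd) δ * Q - fb (⟨0, 0, P, Q⟩ : Qd) δ * P ^ 2 / 3 := d_q hd0
    rw [h1, hfa, hfb]
    ring
  have a0 : Av (⟨0, 0, P, Q⟩ : Qd) δ 0 = β * P ^ 2 / (12 * Q) := by rw [Av0, hfb]
  have a1 : Av (⟨0, 0, P, Q⟩ : Qd) δ 1 = β * (3 * Q / P - P ^ 2 / (6 * Q)) := by rw [Av1, hfb]
  have a2 : Av (⟨0, 0, P, Q⟩ : Qd) δ 2 = β * Q / P := by rw [Av2, hfb]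
  clear_value β
  fin_cases k
  · change br (Av (⟨0, 0, P, Q⟩ : Qd) δ) v 0 * (Q / P) + v 0 * δ (Q / P) =
      2 * (1 / 12 * (β * P) * (v 1 * 1) - 0 * (v 0 * (Q / P)))
    rw [br0, a0, a1, ddiv _ _ hP, hp, hq]
    field_simp
    ring
  · change br (Av (⟨0, 0, P, Q⟩ : Qd) δ) v 1 * 1 + v 1 * δ 1 =
      1 / 12 * (β * P) * (v 2 * (P / Q)) - β * (v 0 * (Q / P))
    rw [br1, a0, a2, done']
    field_simp
    ring
  · change br (Av (⟨0, 0, P, Q⟩ : Qd) δ) v 2 * (P / Q) + v 2 * δ (P / Q) =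
      2 * (0 * (v 2 * (P / Q)) - β * (v 1 * 1))
    rw [br2, a1, a2, ddiv _ _ hQ, hp, hq]
    field_simp
    ring

theorem brF_mul_right (u : Fin 3 → ℂ) (v : Fin 3 → ℂ) (c : ℂ) (w : Fin 3 → ℂ) (k : Fin 3) :
    brF u (fun b => v b * c * w b) k = c * brF u (fun b => v b * w b) k := by
  fin_cases k
  · change 2 * (u 0 * (v 1 * c * w 1) - u 1 * (v 0 * c * w 0)) = c * (2 * (u 0 * (v 1 * w 1) - u 1 * (v 0 * w 0)))
    ring
  · change u 0 * (v 2 * c * w 2) - u 2 * (v 0 * c * w 0) = c * (u 0 * (v 2 * w 2) - u 2 * (v 0 * w 0))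
    ring
  · change 2 * (u 1 * (v 2 * c * w 2) - u 2 * (v 1 * c * w 1)) = c * (2 * (u 1 * (v 2 * w 2) - u 2 * (v 1 * w 1)))
    ring

theorem brF_mul_mid (u : Fin 3 → ℂ) (v : Fin 3 → ℂ) (c : ℂ) (w : Fin 3 → ℂ) (k : Fin 3) :
    brF u (fun b => v b * w b * c) k = c * brF u (fun b => v b * w b) k := by
  fin_cases k
  · change 2 * (u 0 * (v 1 * w 1 * c) - u 1 * (v 0 * w 0 * c)) = c * (2 * (u 0 * (v 1 * w 1) - u 1 * (v 0 * w 0)))
    ring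
  · change u 0 * (v 2 * w 2 * c) - u 2 * (v 0 * w 0 * c) = c * (u 0 * (v 2 * w 2) - u 2 * (v 0 * w 0))
    ring
  · change 2 * (u 1 * (v 2 * w 2 * c) - u 2 * (v 1 * w 1 * c)) = c * (2 * (u 1 * (v 2 * w 2) - u 2 * (v 1 * w 1)))
    ring

/-- **the vanishing theorem in the interalgebraic case** -/
theorem vanish (hx : x.Ok) (hy : y.Ok) (hDg : D (gg x) ≠ 0) (hyx : gg y ∈ clo (Cst D) {gg x})
    {N : Fin 3 → Fin 3 → ℂ} (hN : ∀ δ ∈ DF (Cst D), ∀ a c, δ (N a c) = br (Av y δ) (fun i => N i c) a +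
      br (Av x δ) (N a) c) : N 2 2 = 0 := by
  classical
  set C := Cst D with hC
  obtain ⟨P₁, Q₁, hP₁0, hQ₁0, h₁, hP₁, hQ₁⟩ := exists_norm (gg_ne hx) (gg_27 hx)
  obtain ⟨P₂, Q₂, hP₂0, hQ₂0, h₂, hP₂, hQ₂⟩ := exists_norm (gg_ne hy) (gg_27 hy)
  set X : ℂ := P₁ ^ 3 with hX
  have hkill : ∀ (δ : Derivation ℚ ℂ ℂ) (g : ℂ), g - 27 ≠ 0 → δ g = 0 → δ (g / (g - 27)) = 0 ∧ δ (1 / (g - 27)) = 0 := by
    intro δ g h27 hg
    constructor
    · rw [ddiv _ _ h27, map_sub, dnat, hg]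
      simp
    · rw [ddiv _ _ h27, map_sub, dnat, hg, done']
      simp
  -- the field
  set F := clo C {gg x} with hFd
  have hgF : gg x ∈ F := subset_clo rfl
  have hCF : ∀ c ∈ C, c ∈ F := fun c hc => base_clo hc
  have hP₁F : P₁ ∈ F := fun δ hδ hs => kill_of_pow three_ne_zero hP₁0 hP₁ (hkill δ _ (gg_27 hx) (hs _ rfl)).1
  have hQ₁F : Q₁ ∈ F := fun δ hδ hs => kill_of_pow two_ne_zero hQ₁0 hQ₁ (hkill δ _ (gg_27 hx) (hs _ rfl)).2
  have hP₂F : P₂ ∈ F := fun δ hδ hs => kill_of_pow three_ne_zero hP₂0 hP₂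
    (hkill δ _ (gg_27 hy) (hyx δ hδ hs)).1
  have hQ₂F : Q₂ ∈ F := fun δ hδ hs => kill_of_pow two_ne_zero hQ₂0 hQ₂
    (hkill δ _ (gg_27 hy) (hyx δ hδ hs)).2
  have hNF : ∀ a c, N a c ∈ F := by
    intro a c δ hδ hs
    rw [hN δ hδ, Av_eq hy, Av_eq hx, hs _ rfl, hyx δ hδ hs, zero_smul, zero_smul, br_zero_left, br_zero_left]
    simp
  -- the derivation
  have hgX : gg x = 27 * X / (X - 1) ∧ X - 1 ≠ 0 := by
    have h27 := gg_27 hx
    have h1 : X - 1 = 27 / (gg x - 27) := by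
      rw [hP₁]
      field_simp
      ring
    have h2 : X - 1 ≠ 0 := by
      rw [h1]
      exact div_ne_zero (by norm_num) h27
    refine ⟨?_, h2⟩
    rw [h1, hP₁]
    field_simp
  have hDX : D X ≠ 0 := by
    intro h0
    apply hDg
    rw [hgX.1, ddiv _ _ hgX.2, dmul, dnat, map_sub, done', h0]
    simp
  set δ₀ : Derivation ℚ ℂ ℂ := (D X)⁻¹ • D with hδ₀
  have hδ₀C : δ₀ ∈ DF C := (DF _).smul_mem _ (D_mem D)
  have hδ₀X : δ₀ X = 1 := by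
    rw [hδ₀, Derivation.smul_apply, smul_eq_mul, inv_mul_cancel₀ hDX]
  have hXF : X ∈ F := pow_mem hP₁F 3
  have hδ₀g : δ₀ (gg x) ∈ F := by
    have h1 : δ₀ (gg x) = -27 / (X - 1) ^ 2 := by
      rw [hgX.1, ddiv _ _ hgX.2, dmul, dnat, map_sub, done', hδ₀X]
      congr 1
      ring
    rw [h1]
    refine div_mem (neg_mem (ofNat_mem F 27)) (pow_mem (sub_mem hXF (one_mem F)) 2)
  have hδ₀F : ∀ z ∈ F, δ₀ z ∈ F := fun z hz => der_clo hδ₀C (by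
    intro s hs
    rw [Set.mem_singleton_iff.1 hs]
    exact hδ₀g) hz
  let algCF : Algebra C F := RingHom.toAlgebra
    { toFun := fun c => (⟨c, hCF c c.2⟩ : F)
      map_one' := rfl
      map_mul' := fun _ _ => rfl
      map_zero' := rfl
      map_add' := fun _ _ => rfl }
  have htow : IsScalarTower C F ℂ := IsScalarTower.of_algebraMap_eq fun _ => rfl
  let d : Derivation C F F := Derivation.mk'
    { toFun := fun z => ⟨δ₀ z, hδ₀F z z.2⟩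
      map_add' := fun a b => Subtype.ext (by simp)
      map_smul' := fun c z => Subtype.ext (by
        change δ₀ ((c : ℂ) * (z : ℂ)) = (c : ℂ) * δ₀ z
        rw [dmul, hδ₀C _ c.2, zero_mul, zero_add]) }
    (fun a b => Subtype.ext (by
      change δ₀ ((a : ℂ) * b) = a * δ₀ b + b * δ₀ a
      rw [dmul]
      ring))
  have hdv : ∀ z : F, ((d z : F) : ℂ) = δ₀ z := fun _ => rfl
  set XF : F := ⟨X, hXF⟩ with hXFd
  have hdX : d XF = 1 := Subtype.ext hδ₀X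
  -- transcendence
  have htr : Transcendental C XF := by
    intro halg
    have h1 : IsAlgebraic C (X : ℂ) := halg.algHom (IsScalarTower.toAlgHom C F ℂ)
    exact hDX (cst_of_alg h1)
  have hFalg : ∀ z : F, IsAlgebraic (IntermediateField.adjoin C {XF}) z := by
    intro z
    have h1 : (z : ℂ) ∈ clo C ((IsScalarTower.toAlgHom C F ℂ) '' {XF}) := by
      intro δ hδ hs
      refine z.2 δ hδ ?_
      intro s hs'
      have h2 : δ X = 0 := hs X ⟨XF, rfl, rfl⟩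
      rw [Set.mem_singleton_iff.1 hs', hgX.1, ddiv _ _ hgX.2, dmul, dnat, map_sub, done', h2]
      simp
    rw [mem_clo_iff, mem_cl, ← AlgHom.map_adjoin] at h1
    have h2 : IsAlgebraic (Algebra.adjoin C {XF}) z := by
      refine IsAlgebraic.of_ringHom_of_comp_eq (f := ((Algebra.adjoin C {XF}).equivMapOfInjective
        (IsScalarTower.toAlgHom C F ℂ) (algebraMap F ℂ).injective : _ →+* _)) (g := algebraMap F ℂ) h1 ?_
        (algebraMap F ℂ).injective ?_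
      · exact (AlgEquiv.surjective _)
      · ext r
        rfl
    have hle : Algebra.adjoin C {XF} ≤ (IntermediateField.adjoin C {XF}).toSubalgebra :=
      IntermediateField.algebra_adjoin_le_adjoin C {XF}
    refine IsAlgebraic.ringHom_of_comp_eq (S := IntermediateField.adjoin C {XF})
      (f := (Subalgebra.inclusion hle).toRingHom) (g := RingHom.id F) h2 ?_ ?_
    · exact Subalgebra.inclusion_injective hle
    · ext r
      rfl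
  -- the gauge
  set fy : Fin 3 → ℂ := ![Q₂ / P₂, 1, P₂ / Q₂] with hfy
  set fx : Fin 3 → ℂ := ![Q₁ / P₁, 1, P₁ / Q₁] with hfx
  have hfyF : ∀ a, fy a ∈ F := by
    intro a
    fin_cases a
    · exact div_mem hQ₂F hP₂F
    · exact one_mem F
    · exact div_mem hP₂F hQ₂F
  have hfxF : ∀ a, fx a ∈ F := by
    intro a
    fin_cases a
    · exact div_mem hQ₁F hP₁F
    · exact one_mem F
    · exact div_mem hP₁F hQ₁F
  have hnorm : ∀ {z : Qd} {P Q : ℂ}, z.Ok → P ≠ 0 → Q ≠ 0 → P ^ 3 - 27 * Q ^ 2 = 1 →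
      P ^ 3 = gg z / (gg z - 27) → Q ^ 2 = 1 / (gg z - 27) →
      ∀ k, Av (⟨0, 0, P, Q⟩ : Qd) δ₀ k = Av z δ₀ k := by
    intro z P Q hz hP hQ h hP3 hQ2 k
    have hok : (⟨0, 0, P, Q⟩ : Qd).Ok := ⟨by rw [Qd.dl]; simp [h], hP, hQ⟩
    have hgg : gg (⟨0, 0, P, Q⟩ : Qd) = gg z := by
      change P ^ 3 / Q ^ 2 = gg z
      rw [hP3, hQ2]
      have := gg_27 hz
      field_simp
    rw [Av_eq hok, Av_eq hz, hgg]
  have A1 := fun k => hnorm hx hP₁0 hQ₁0 h₁ hP₁ hQ₁ k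
  have A2 := fun k => hnorm hy hP₂0 hQ₂0 h₂ hP₂ hQ₂ k
  have key : N 2 2 * fy 2 * fx 2 = 0 := by
    have hfin := locglob (E := C) (F := F) (x := XF) htr hFalg d hdX (P₁ := ⟨P₁, hP₁F⟩) (Q₁ := ⟨Q₁, hQ₁F⟩)
      (P₂ := ⟨P₂, hP₂F⟩) (Q₂ := ⟨Q₂, hQ₂F⟩) (Subtype.ext h₁) (Subtype.ext h₂) rfl
      (N := fun c a => ⟨N a c * fy a * fx c, mul_mem (mul_mem (hNF a c) (hfyF a)) (hfxF c)⟩) ?_
    · exact congrArg Subtype.val hfin
    intro c a
    have G1 := gauge (δ := δ₀) hP₁0 hQ₁0 h₁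
    have G2 := gauge (δ := δ₀) hP₂0 hQ₂0 h₂
    apply Subtype.ext
    have hB : ∀ {P Q : ℂ} (hP : P ∈ F) (hQ : Q ∈ F), ((BF d (⟨P, hP⟩ : F) ⟨Q, hQ⟩ : F) : ℂ) =
        1 / 2 * (9 * Q * δ₀ P - 6 * P * δ₀ Q) := fun _ _ => rfl
    have hbrv : ∀ (u v : Fin 3 → F) (k : Fin 3), ((brF u v k : F) : ℂ) =
        brF (fun i => (u i : ℂ)) (fun i => (v i : ℂ)) k := by
      intro u v k
      fin_cases k <;> rfl
    have hAv : ∀ {P Q : ℂ} (hP : P ∈ F) (hQ : Q ∈ F), (fun i => ((AvF d (⟨P, hP⟩ : F) ⟨Q, hQ⟩ i : F) : ℂ)) =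
        ![1 / 12 * (1 / 2 * (9 * Q * δ₀ P - 6 * P * δ₀ Q) * P), 0, 1 / 2 * (9 * Q * δ₀ P - 6 * P * δ₀ Q)] := by
      intro P Q hP hQ
      funext i
      fin_cases i <;> rfl
    change δ₀ (N a c * fy a * fx c) = ((brF _ _ c : F) : ℂ) + ((brF _ _ a : F) : ℂ)
    rw [hbrv, hbrv, hAv, hAv]
    change _ = brF _ (fun b => N a b * fy a * fx b) c + brF _ (fun b => N b c * fy b * fx c) a
    rw [brF_mul_right, brF_mul_mid, ← G1, ← G2, dmul, dmul, hN δ₀ hδ₀C]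
    have e1 : Av (⟨0, 0, P₁, Q₁⟩ : Qd) δ₀ = Av x δ₀ := funext A1
    have e2 : Av (⟨0, 0, P₂, Q₂⟩ : Qd) δ₀ = Av y δ₀ := funext A2
    rw [e1, e2]
    ring
  rcases mul_eq_zero.1 key with h | h
  · rcases mul_eq_zero.1 h with h | h
    · exact h
    · exact absurd h (div_ne_zero hP₂0 hQ₂0)
  · exact absurd h (div_ne_zero hP₁0 hQ₁0)

end Pool.Agent.H445.MJ
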